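import Pool.Agent.CPZ.Sym

/-!
# CPZ-FinG: the automorphisms `τ` and `ρ π` generate a finite group

The set of all `D.τ ^ a * P.ρ π`, `a < 3`, `π : Perm (ZMod 3)`, is a subgroup (`dat_τ3`, `rho_comm`), the image of the homomorphism
`Multiplicative (ZMod 3) × Perm (ZMod 3) → (R ≃ₐ[F] R)`, or of `Subgroup.zpowers τ × Perm (ZMod 3)` (`MonoidHom.noncommCoprod`,
`finite_zpowers`), so the range is finite (`Finite.of_surjective` / `Set.finite_range`). It contains `τ` and the range of `ρ`, and `σ` (`rho_shift`).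
-/

namespace CPZ

open IntermediateField

universe u v

variable {F : Type u} {R : Type v} [Field F] [Field R] [Algebra F R] {s : ℕ}

theorem exists_finG (D : Datum F R s) (P : Rho D) :
    ∃ G : Subgroup (R ≃ₐ[F] R), Finite G ∧ D.τ ∈ G ∧ D.σ ∈ G ∧ ∀ π, P.ρ π ∈ G := by
  have hfin : Finite (Subgroup.zpowers D.τ) := finite_zpowers D.τ (dat_τ3 D)
  have hcomm : ∀ (a : Subgroup.zpowers D.τ) (π : Equiv.Perm (ZMod 3)),
      Commute ((Subgroup.zpowers D.τ).subtype a) (P.ρ π) := by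
    intro a π
    obtain ⟨a, ha⟩ := a
    obtain ⟨n, rfl⟩ := Subgroup.mem_zpowers_iff.mp ha
    have h1 : Commute D.τ (P.ρ π) := (rho_comm D P π).symm
    exact h1.zpow_left n
  let φ : Subgroup.zpowers D.τ × Equiv.Perm (ZMod 3) →* (R ≃ₐ[F] R) :=
    MonoidHom.noncommCoprod (Subgroup.zpowers D.τ).subtype P.ρ hcomm
  have hρ : ∀ π, P.ρ π ∈ φ.range := by
    intro π
    refine ⟨(1, π), ?_⟩
    simp [φ, MonoidHom.noncommCoprod_apply]
  refine ⟨φ.range, ?_, ?_, ?_, hρ⟩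
  · exact Set.finite_range φ
  · refine ⟨(⟨D.τ, Subgroup.mem_zpowers D.τ⟩, 1), ?_⟩
    simp [φ, MonoidHom.noncommCoprod_apply]
  · rw [← rho_shift D P]
    exact hρ _

end CPZ
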