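import Mathlib

/-!
# CPZ-HNin: Hilbert 90 for the cyclic group of order 3, explicit

`θ(a) = a + e_0⁻¹ τ a + (e_0 e_1)⁻¹ τ (τ a)` solves `τ θ = e_0 θ`, and one of `θ(1), θ(e_0), θ(e_0²)` is not
zero.
-/

namespace CPZ

open IntermediateField

universe u v

variable {F : Type u} {R : Type v} [Field F] [Field R] [Algebra F R]

private theorem theta_eq (τ : R ≃ₐ[F] R) {e0 e1 e2 : R} (h0 : τ e0 = e1) (h1 : τ e1 = e2)
    (hp : e0 * e1 * e2 = 1) {a b c : R} (ha : τ a = b) (hb : τ b = c) (hc : τ c = a) :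
    τ (a + e0⁻¹ * b + (e0 * e1)⁻¹ * c) = e0 * (a + e0⁻¹ * b + (e0 * e1)⁻¹ * c) := by
  have n0 : e0 ≠ 0 := by
    rintro rfl
    simp at hp
  have n1 : e1 ≠ 0 := by
    rintro rfl
    simp at hp
  have n2 : e2 ≠ 0 := by
    rintro rfl
    simp at hp
  have e12 : (e1 * e2)⁻¹ = e0 := by
    rw [inv_eq_iff_eq_inv]
    field_simp
    linear_combination hp
  rw [map_add, map_add, map_mul, map_mul, map_inv₀, map_inv₀, map_mul, h0, h1, ha, hb, hc, e12]
  field_simp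
  ring

theorem hilbert90 (τ : R ≃ₐ[F] R) (e : ZMod 3 → R) (he : ∀ i, τ (e i) = e (i + 1)) (hp : e 0 * e 1 * e 2 = 1)
    (hne : e 0 ≠ e 1) (h3 : τ * τ * τ = 1) :
    ∃ θ ∈ adjoin F (Set.range e), θ ≠ 0 ∧ τ θ = e 0 * θ := by
  have h0 : τ (e 0) = e 1 := by
    have := he 0
    simpa using this
  have h1 : τ (e 1) = e 2 := by
    have := he 1
    have e11 : (1 : ZMod 3) + 1 = 2 := by decide
    rwa [e11] at this
  have h2 : τ (e 2) = e 0 := by
    have := he 2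
    have e21 : (2 : ZMod 3) + 1 = 0 := by decide
    rwa [e21] at this
  have m : ∀ i, e i ∈ adjoin F (Set.range e) := fun i => subset_adjoin F _ ⟨i, rfl⟩
  have mem : ∀ {a b c : R}, a ∈ adjoin F (Set.range e) → b ∈ adjoin F (Set.range e) →
      c ∈ adjoin F (Set.range e) → a + (e 0)⁻¹ * b + (e 0 * e 1)⁻¹ * c ∈ adjoin F (Set.range e) :=
    fun ha hb hc => add_mem (add_mem ha (mul_mem (inv_mem (m 0)) hb))
      (mul_mem (inv_mem (mul_mem (m 0) (m 1))) hc)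
  by_cases c1 : (1 : R) + (e 0)⁻¹ * 1 + (e 0 * e 1)⁻¹ * 1 = 0
  · by_cases c2 : e 0 + (e 0)⁻¹ * e 1 + (e 0 * e 1)⁻¹ * e 2 = 0
    · by_cases c3 : e 0 ^ 2 + (e 0)⁻¹ * e 1 ^ 2 + (e 0 * e 1)⁻¹ * e 2 ^ 2 = 0
      · exfalso
        have h4 : (e 0 - e 1) * (e 0 - e 2) = 0 := by
          linear_combination c3 - (e 1 + e 2) * c2 + e 1 * e 2 * c1
        rcases mul_eq_zero.1 h4 with h5 | h5
        · exact hne (sub_eq_zero.1 h5)
        · have h6 : e 0 = e 2 := sub_eq_zero.1 h5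
          have h7 := congrArg τ h6
          rw [h0, h2] at h7
          exact hne h7.symm
      · refine ⟨_, mem (pow_mem (m 0) 2) (pow_mem (m 1) 2) (pow_mem (m 2) 2), c3, ?_⟩
        exact theta_eq τ h0 h1 hp (by rw [map_pow, h0]) (by rw [map_pow, h1]) (by rw [map_pow, h2])
    · exact ⟨_, mem (m 0) (m 1) (m 2), c2, theta_eq τ h0 h1 hp h0 h1 h2⟩
  · exact ⟨_, mem (one_mem _) (one_mem _) (one_mem _), c1,
      theta_eq τ h0 h1 hp (map_one τ) (map_one τ) (map_one τ)⟩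

end CPZ
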