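import Pool.Agent.CPZ.C3G
import Pool.Agent.CPZ.HNin

/-!
# CPZ-TT: the main tool for the cyclic permutation `τ`

`R` is generated by `e_0, e_1, e_2` (cyclically permuted, product `1`), `n + 1` cyclically permuted triples `z k` and `s` invariants
`ρ`, and has transcendence degree `≥ 3(n+1) + 2 + s`. Then the field of invariants is generated by `3(n+1) + 2 + s` elements.

Proof. `e_0 ≠ e_1`: otherwise all `e_i` are equal and `e_0 ^ 3 = 1`, so `R` is algebraic over `F(z, ρ)` and `trdeg_le_of_alg` gives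
`trdeg ≤ 3(n+1) + s`. `K = adjoin F (range e)`, `G = zpowers τ`, faithful on `K`. `W = span_K (z's)` is stable. `speiser` and
`exists_family` with `U = ⊥` (and the `3(n+1)` elements `z k i`): there are invariant `ω : Fin (3(n+1)) → R`, `ω ∈ W`, with
`z k i ∈ span_K (range ω)`, so `R = adjoin F (K ∪ range ω ∪ range ρ)`. The family `(e_0, e_1, ω, ρ)` generates `R`, so it is
algebraically independent (`ind_of_gens`); in particular `ω_0 ≠ 0`.
`hilbert90` gives `θ ∈ K`, `θ ≠ 0`, `τ θ = e_0 θ`. Then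
`w_0 = θ ω_0`, `w_1 = e_0 w_0`, `w_2 = e_0 e_1 w_0` satisfy `τ w_i = w_{i+1}`, `e_0 = w_1/w_0`, `e_1 = w_2/w_1`, so
`K' := adjoin F (range w) = adjoin F (K ∪ {ω_0})`. The family `(w_0, w_1, w_2, ω_1, …, ρ)` (same number `3(n+1)+2+s`) generates
`R`, so it is independent and so is `w`. `c3_gens` gives `g` with `adjoin F (range g) = K' ⊓ Fx {τ}`, and `descent` for `K'` and
`C = {ω_1, …} ∪ range ρ` gives `Fx {τ} = adjoin F ((K' ⊓ Fx {τ}) ∪ C) = adjoin F (range g ∪ C)` (`Fx_zpowers`).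
-/

namespace CPZ

open IntermediateField

universe u v

variable {F : Type u} {R : Type v} [Field F] [Field R] [Algebra F R]

private theorem tt_stab (φ : R ≃ₐ[F] R) (S : Set R) (h : ∀ s ∈ S, φ s ∈ adjoin F S) :
    ∀ a ∈ adjoin F S, φ a ∈ adjoin F S := by
  intro a ha
  have h1 : adjoin F S ≤ (adjoin F S).comap φ.toAlgHom := by
    rw [adjoin_le_iff]
    intro s hs
    exact h s hs
  exact h1 ha

private theorem tt_span_stab (K : IntermediateField F R) (φ : R ≃ₐ[F] R) (hK : ∀ a ∈ K, φ a ∈ K) (S : Set R)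
    (h : ∀ s ∈ S, φ s ∈ Submodule.span K S) : ∀ x ∈ Submodule.span K S, φ x ∈ Submodule.span K S := by
  intro x hx
  induction hx using Submodule.span_induction with
  | mem x hx => exact h x hx
  | zero => rw [map_zero]; exact Submodule.zero_mem _
  | add x y _ _ hx hy => rw [map_add]; exact Submodule.add_mem _ hx hy
  | smul a x _ hx =>
    have h1 : φ (a • x) = (⟨φ a, hK a a.2⟩ : K) • φ x := by
      rw [Algebra.smul_def, Algebra.smul_def, map_mul]
      rfl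
    rw [h1]
    exact Submodule.smul_mem _ _ hx

private theorem tt_span_le (K L : IntermediateField F R) (hKL : K ≤ L) (S : Set R) (hS : ∀ s ∈ S, s ∈ L) :
    ∀ x ∈ Submodule.span K S, x ∈ L := by
  intro x hx
  induction hx using Submodule.span_induction with
  | mem x hx => exact hS x hx
  | zero => exact L.zero_mem
  | add x y _ _ hx hy => exact L.add_mem hx hy
  | smul a x _ hx =>
    rw [Algebra.smul_def]
    exact L.mul_mem (hKL a.2) hx

private theorem tt_grp (τ : R ≃ₐ[F] R) (h3 : τ * τ * τ = 1) (P : R → Prop) (h : ∀ x, P x → P (τ x)) :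
    ∀ g ∈ Subgroup.zpowers τ, ∀ a, P a → P (g a) := by
  intro g hg a ha
  rcases mem_zpowers τ h3 g hg with rfl | rfl | rfl
  · exact ha
  · exact h a ha
  · exact h _ (h a ha)

private theorem tt_faith (τ : R ≃ₐ[F] R) (h3 : τ * τ * τ = 1) (K : IntermediateField F R) (x : R) (hx : x ∈ K)
    (hn : τ x ≠ x) : ∀ g ∈ Subgroup.zpowers τ, (∀ a ∈ K, g a = a) → g = 1 := by
  intro g hg ha
  rcases mem_zpowers τ h3 g hg with rfl | rfl | rfl
  · rfl
  · exact absurd (ha x hx) hn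
  · have h1 : τ (τ x) = x := ha x hx
    have h4 : τ (τ (τ x)) = x := by
      have h := congrArg (fun φ : R ≃ₐ[F] R => φ x) h3
      simpa using h
    rw [h1] at h4
    exact absurd h4 hn

private theorem tt_three (i : ZMod 3) : i = 0 ∨ i = 1 ∨ i = 2 := by
  revert i; decide

private theorem tt_ne (τ : R ≃ₐ[F] R) (e : ZMod 3 → R) (he : ∀ i, τ (e i) = e (i + 1))
    (hp : e 0 * e 1 * e 2 = 1) {n s : ℕ} (z : Fin (n + 1) → ZMod 3 → R) (ρ : Fin s → R)
    (hgen : adjoin F (Set.range e ∪ Set.range (fun p : Fin (n + 1) × ZMod 3 => z p.1 p.2) ∪ Set.range ρ) = ⊤)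
    (ht : ((3 * (n + 1) + 2 + s : ℕ) : Cardinal.{v}) ≤ Algebra.trdeg F R) : e 0 ≠ e 1 := by
  intro h01
  have e1 : τ (e 0) = e 1 := he 0
  have e2 : τ (e 1) = e 2 := he 1
  have h12 : e 1 = e 2 := by
    have h4 : τ (e 0) = τ (e 1) := by rw [h01]
    rw [e1, e2] at h4
    exact h4
  have hc : e 0 ^ 3 = 1 := by
    rw [← h12, ← h01] at hp
    rw [← hp]; ring
  obtain ⟨x, hx⟩ : ∃ x : (Fin (n + 1) × ZMod 3) ⊕ Fin s → R, x = Sum.elim (fun p => z p.1 p.2) ρ := ⟨_, rfl⟩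
  obtain ⟨A, hA⟩ : ∃ A : IntermediateField F R, A = adjoin F (Set.range x) := ⟨_, rfl⟩
  have halg : ∀ r : R, IsAlgebraic A r := by
    have he0 : IsIntegral A (e 0) := by
      refine ⟨Polynomial.X ^ 3 - 1, Polynomial.monic_X_pow_sub_C (1 : A) (by norm_num), ?_⟩
      simp [hc]
    have hall : ∀ i, IsIntegral A (e i) := by
      intro i
      rcases tt_three i with rfl | rfl | rfl
      · exact he0
      · rw [← h01]; exact he0
      · rw [← h12, ← h01]; exact he0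
    have hle : (⊤ : IntermediateField F R) ≤ (algebraicClosure A R).restrictScalars F := by
      rw [← hgen, adjoin_le_iff]
      have hAle : ∀ r ∈ A, r ∈ (algebraicClosure A R).restrictScalars F := by
        intro r hr
        have : IsAlgebraic A ((algebraMap A R) ⟨r, hr⟩) := isAlgebraic_algebraMap _
        exact mem_algebraicClosure_iff.2 this
      rintro r ((⟨i, rfl⟩ | ⟨p, rfl⟩) | ⟨k, rfl⟩)
      · exact mem_algebraicClosure_iff.2 (hall i).isAlgebraic
      · refine hAle _ ?_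
        rw [hA]
        exact subset_adjoin F _ ⟨Sum.inl p, by rw [hx]; rfl⟩
      · refine hAle _ ?_
        rw [hA]
        exact subset_adjoin F _ ⟨Sum.inr k, by rw [hx]; rfl⟩
    intro r
    exact mem_algebraicClosure_iff.1 (hle IntermediateField.mem_top)
  rw [hA] at halg
  have h1 := ht.trans (trdeg_le_of_alg x halg)
  have h2 : Fintype.card ((Fin (n + 1) × ZMod 3) ⊕ Fin s) = 3 * (n + 1) + s := by
    simp only [Fintype.card_sum, Fintype.card_prod, ZMod.card, Fintype.card_fin]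
    omega
  rw [h2] at h1
  have h3 : 3 * (n + 1) + 2 + s ≤ 3 * (n + 1) + s := by exact_mod_cast h1
  omega

theorem toolT (τ : R ≃ₐ[F] R) (h3 : τ * τ * τ = 1) (e : ZMod 3 → R) (he : ∀ i, τ (e i) = e (i + 1))
    (hp : e 0 * e 1 * e 2 = 1) {n s : ℕ} (z : Fin (n + 1) → ZMod 3 → R)
    (hz : ∀ k i, τ (z k i) = z k (i + 1)) (ρ : Fin s → R) (hρ : ∀ k, τ (ρ k) = ρ k)
    (hgen : adjoin F (Set.range e ∪ Set.range (fun p : Fin (n + 1) × ZMod 3 => z p.1 p.2) ∪ Set.range ρ) = ⊤)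
    (ht : ((3 * (n + 1) + 2 + s : ℕ) : Cardinal.{v}) ≤ Algebra.trdeg F R) :
    ∃ g : Fin (3 * (n + 1) + 2 + s) → R, adjoin F (Set.range g) = Fx {τ} := by
  classical
  have hne : e 0 ≠ e 1 := tt_ne τ e he hp z ρ hgen ht
  have hfin : Finite (Subgroup.zpowers τ) := finite_zpowers τ h3
  have e1 : τ (e 0) = e 1 := he 0
  have e2 : τ (e 1) = e 2 := he 1
  have e3 : τ (e 2) = e 0 := he 2
  have hen : ∀ i, e i ≠ 0 := by
    intro i hi
    rcases tt_three i with rfl | rfl | rfl <;> rw [hi] at hp <;> simp at hp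
  obtain ⟨K, hKd⟩ : ∃ K : IntermediateField F R, K = adjoin F (Set.range e) := ⟨_, rfl⟩
  have heK : ∀ i, e i ∈ K := fun i => by rw [hKd]; exact subset_adjoin F _ ⟨i, rfl⟩
  have hKτ : ∀ a ∈ K, τ a ∈ K := by
    rw [hKd]
    refine tt_stab τ _ ?_
    rintro _ ⟨i, rfl⟩
    rw [he]
    exact subset_adjoin F _ ⟨_, rfl⟩
  have hK : ∀ g ∈ Subgroup.zpowers τ, ∀ a ∈ K, g a ∈ K := tt_grp τ h3 (fun a => a ∈ K) hKτ
  have hf : ∀ g ∈ Subgroup.zpowers τ, (∀ a ∈ K, g a = a) → g = 1 :=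
    tt_faith τ h3 K (e 0) (heK 0) (by rw [e1]; exact hne.symm)
  obtain ⟨Z, hZd⟩ : ∃ Z : Set R, Z = Set.range (fun p : Fin (n + 1) × ZMod 3 => z p.1 p.2) := ⟨_, rfl⟩
  rw [← hZd] at hgen
  obtain ⟨W, hWd⟩ : ∃ W : Submodule K R, W = Submodule.span K Z := ⟨_, rfl⟩
  have hWτ : ∀ a ∈ W, τ a ∈ W := by
    rw [hWd]
    refine tt_span_stab K τ hKτ _ ?_
    rw [hZd]
    rintro _ ⟨p, rfl⟩
    simp only [hz]
    exact Submodule.subset_span ⟨(p.1, p.2 + 1), rfl⟩
  have hW : ∀ g ∈ Subgroup.zpowers τ, ∀ a ∈ W, g a ∈ W := tt_grp τ h3 (fun a => a ∈ W) hWτ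
  have hsp := speiser (Subgroup.zpowers τ) K hK hf W hW
  have hcard : Fintype.card (Fin (n + 1) × ZMod 3) = 3 * n + 2 + 1 := by
    simp only [Fintype.card_prod, ZMod.card, Fintype.card_fin]
    omega
  let eq1 : Fin (3 * n + 2 + 1) ≃ Fin (n + 1) × ZMod 3 := (Fintype.equivFinOfCardEq hcard).symm
  have hre : Set.range ((fun p : Fin (n + 1) × ZMod 3 => z p.1 p.2) ∘ eq1) = Z := by
    rw [Set.range_comp, eq1.surjective.range_eq, Set.image_univ, hZd]
  obtain ⟨ω, hωS, hω⟩ := exists_family (⊥ : Submodule K R) {w | w ∈ W ∧ ∀ g ∈ Subgroup.zpowers τ, g w = w}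
    ⟨W.zero_mem, fun g _ => map_zero g⟩ ((fun p : Fin (n + 1) × ZMod 3 => z p.1 p.2) ∘ eq1) (by
      rintro v ⟨hv, -⟩
      rw [hre, bot_sup_eq, ← hWd]
      exact hv)
  have hωτ : ∀ i, τ (ω i) = ω i := fun i => (hωS i).2 τ (Subgroup.mem_zpowers τ)
  have hZmem : ∀ L : IntermediateField F R, K ≤ L → (∀ i, ω i ∈ L) → ∀ x ∈ Z, x ∈ L := by
    intro L hKL hL x hx
    have h1 : x ∈ W := by rw [hWd]; exact Submodule.subset_span hx
    have h2 : Submodule.span K {w | w ∈ W ∧ ∀ g ∈ Subgroup.zpowers τ, g w = w} ≤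
        Submodule.span K (Set.range ω) := by
      rw [Submodule.span_le]
      intro v hv
      have h3 := hω v hv
      rwa [bot_sup_eq] at h3
    refine tt_span_le K L hKL _ ?_ x (h2 (hsp h1))
    rintro _ ⟨i, rfl⟩
    exact hL i
  have htop : ∀ L : IntermediateField F R, K ≤ L → (∀ i, ω i ∈ L) → (∀ k, ρ k ∈ L) → L = ⊤ := by
    intro L hKL hL hρL
    rw [eq_top_iff, ← hgen, adjoin_le_iff]
    rintro r ((⟨i, rfl⟩ | hr) | ⟨k, rfl⟩)
    · exact hKL (heK i)
    · exact hZmem L hKL hL r hr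
    · exact hρL k
  have hKle : ∀ L : IntermediateField F R, e 0 ∈ L → e 1 ∈ L → K ≤ L := by
    intro L h0 h1
    rw [hKd, adjoin_le_iff]
    rintro _ ⟨i, rfl⟩
    rcases tt_three i with rfl | rfl | rfl
    · exact h0
    · exact h1
    · have h2 : e 2 = (e 0 * e 1)⁻¹ := eq_inv_of_mul_eq_one_right hp
      rw [h2]
      exact L.inv_mem (L.mul_mem h0 h1)
  -- the first family
  have hω0 : ω 0 ≠ 0 := by
    obtain ⟨x, hx⟩ : ∃ x : Fin 2 ⊕ Fin (3 * n + 2 + 1) ⊕ Fin s → R,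
        x = Sum.elim ![e 0, e 1] (Sum.elim ω ρ) := ⟨_, rfl⟩
    have hxt : adjoin F (Set.range x) = ⊤ := by
      refine htop _ (hKle _ ?_ ?_) ?_ ?_
      · exact subset_adjoin F _ ⟨Sum.inl 0, by rw [hx]; rfl⟩
      · exact subset_adjoin F _ ⟨Sum.inl 1, by rw [hx]; rfl⟩
      · exact fun i => subset_adjoin F _ ⟨Sum.inr (Sum.inl i), by rw [hx]; rfl⟩
      · exact fun k => subset_adjoin F _ ⟨Sum.inr (Sum.inr k), by rw [hx]; rfl⟩
    have hxi : AlgebraicIndependent F x := by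
      refine ind_of_gens x hxt ?_
      have h1 : Fintype.card (Fin 2 ⊕ Fin (3 * n + 2 + 1) ⊕ Fin s) = 3 * (n + 1) + 2 + s := by
        simp only [Fintype.card_sum, Fintype.card_fin]
        omega
      rw [h1]
      exact ht
    have h1 := hxi.ne_zero (Sum.inr (Sum.inl 0))
    rw [hx] at h1
    exact h1
  -- Hilbert 90
  obtain ⟨θ, hθK, hθ0, hθτ⟩ := hilbert90 τ e he hp hne h3
  rw [← hKd] at hθK
  obtain ⟨w0, hw0⟩ : ∃ w0, w0 = θ * ω 0 := ⟨_, rfl⟩
  have hw00 : w0 ≠ 0 := by rw [hw0]; exact mul_ne_zero hθ0 hω0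
  have hτw0 : τ w0 = e 0 * w0 := by
    rw [hw0, map_mul, hθτ, hωτ, mul_assoc]
  obtain ⟨w, hwd⟩ : ∃ w : ZMod 3 → R, w = fun i => if i = 0 then w0 else if i = 1 then e 0 * w0 else e 0 * e 1 * w0 :=
    ⟨_, rfl⟩
  have w0e : w 0 = w0 := by rw [hwd]; simp
  have w1e : w 1 = e 0 * w0 := by
    have h1 : (1 : ZMod 3) ≠ 0 := by decide
    rw [hwd]
    simp [h1]
  have w2e : w 2 = e 0 * e 1 * w0 := by
    have h1 : (2 : ZMod 3) ≠ 0 := by decide
    have h2 : (2 : ZMod 3) ≠ 1 := by decide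
    rw [hwd]
    simp [h1, h2]
  have hw : ∀ i, τ (w i) = w (i + 1) := by
    intro i
    rcases tt_three i with rfl | rfl | rfl
    · have h1 : (0 : ZMod 3) + 1 = 1 := by decide
      rw [h1, w0e, w1e, hτw0]
    · have h1 : (1 : ZMod 3) + 1 = 2 := by decide
      rw [h1, w1e, w2e, map_mul, hτw0, e1]
      ring
    · have h1 : (2 : ZMod 3) + 1 = 0 := by decide
      rw [h1, w0e, w2e, map_mul, map_mul, hτw0, e1, e2]
      linear_combination w0 * hp
  obtain ⟨ω', hω'd⟩ : ∃ ω' : Fin (3 * n + 2) → R, ω' = fun i => ω i.succ := ⟨_, rfl⟩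
  obtain ⟨y, hy⟩ : ∃ y : ZMod 3 ⊕ Fin (3 * n + 2) ⊕ Fin s → R, y = Sum.elim w (Sum.elim ω' ρ) := ⟨_, rfl⟩
  have hbig : ∀ L : IntermediateField F R, (∀ i, w i ∈ L) → (∀ i, ω' i ∈ L) → (∀ k, ρ k ∈ L) → L = ⊤ := by
    intro L hwL hωL hρL
    have h0 : e 0 ∈ L := by
      have h1 : e 0 = w 1 / w 0 := by rw [w1e, w0e]; field_simp
      rw [h1]
      exact L.div_mem (hwL 1) (hwL 0)
    have h1 : e 1 ∈ L := by
      have h1 : e 1 = w 2 / w 1 := by
        have := hen 0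
        rw [w1e, w2e]; field_simp
      rw [h1]
      exact L.div_mem (hwL 2) (hwL 1)
    have hKL := hKle L h0 h1
    refine htop L hKL ?_ hρL
    intro i
    refine Fin.cases ?_ (fun j => ?_) i
    · have h2 : ω 0 = w 0 / θ := by rw [w0e, hw0]; field_simp
      rw [h2]
      exact L.div_mem (hwL 0) (hKL hθK)
    · have h2 := hωL j
      rw [hω'd] at h2
      exact h2
  have hyt : adjoin F (Set.range y) = ⊤ := by
    refine hbig _ ?_ ?_ ?_
    · exact fun i => subset_adjoin F _ ⟨Sum.inl i, by rw [hy]; rfl⟩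
    · exact fun i => subset_adjoin F _ ⟨Sum.inr (Sum.inl i), by rw [hy]; rfl⟩
    · exact fun k => subset_adjoin F _ ⟨Sum.inr (Sum.inr k), by rw [hy]; rfl⟩
  have hyi : AlgebraicIndependent F y := by
    refine ind_of_gens y hyt ?_
    have h1 : Fintype.card (ZMod 3 ⊕ Fin (3 * n + 2) ⊕ Fin s) = 3 * (n + 1) + 2 + s := by
      simp only [Fintype.card_sum, Fintype.card_fin, ZMod.card]
      omega
    rw [h1]
    exact ht
  have hwi : AlgebraicIndependent F w := by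
    have h1 : w = y ∘ Sum.inl := by rw [hy]; rfl
    rw [h1]
    exact hyi.comp _ Sum.inl_injective
  obtain ⟨g, hg⟩ := c3_gens τ h3 w hw hwi
  -- descent
  obtain ⟨K', hK'd⟩ : ∃ K' : IntermediateField F R, K' = adjoin F (Set.range w) := ⟨_, rfl⟩
  rw [← hK'd] at hg
  have hwK' : ∀ i, w i ∈ K' := fun i => by rw [hK'd]; exact subset_adjoin F _ ⟨i, rfl⟩
  have hK'τ : ∀ a ∈ K', τ a ∈ K' := by
    rw [hK'd]
    refine tt_stab τ _ ?_
    rintro _ ⟨i, rfl⟩
    rw [hw]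
    exact subset_adjoin F _ ⟨_, rfl⟩
  have hw01 : τ (w 0) ≠ w 0 := by
    have h1 : τ (w 0) = w 1 := hw 0
    rw [h1]
    intro h
    exact absurd (hwi.injective h) (by decide)
  obtain ⟨C, hC⟩ : ∃ C : Set R, C = Set.range ω' ∪ Set.range ρ := ⟨_, rfl⟩
  have hCτ : ∀ c ∈ C, τ c = c := by
    rw [hC]
    rintro c (⟨i, rfl⟩ | ⟨k, rfl⟩)
    · rw [hω'd]; exact hωτ _
    · exact hρ k
  have hCi : ∀ g ∈ Subgroup.zpowers τ, ∀ c ∈ C, g c = c := by
    intro g hg c hc
    have h4 := hCτ c hc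
    rcases mem_zpowers τ h3 g hg with rfl | rfl | rfl
    · rfl
    · exact h4
    · show τ (τ c) = c
      rw [h4, h4]
  have hdes := descent (Subgroup.zpowers τ) K' (tt_grp τ h3 (fun a => a ∈ K') hK'τ)
    (tt_faith τ h3 K' (w 0) (hwK' 0) hw01) C hCi
  have htopK : adjoin F ((K' : Set R) ∪ C) = ⊤ := by
    refine hbig _ ?_ ?_ ?_
    · exact fun i => subset_adjoin F _ (Or.inl (hwK' i))
    · exact fun i => subset_adjoin F _ (Or.inr (by rw [hC]; exact Or.inl ⟨i, rfl⟩))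
    · exact fun k => subset_adjoin F _ (Or.inr (by rw [hC]; exact Or.inr ⟨k, rfl⟩))
  rw [htopK, Fx_zpowers, top_inf_eq, ← hg] at hdes
  have hcard3 : Fintype.card (Fin 3 ⊕ Fin (3 * n + 2) ⊕ Fin s) = 3 * (n + 1) + 2 + s := by
    simp only [Fintype.card_sum, Fintype.card_fin]
    omega
  let eq3 : Fin (3 * (n + 1) + 2 + s) ≃ Fin 3 ⊕ Fin (3 * n + 2) ⊕ Fin s := (Fintype.equivFinOfCardEq hcard3).symm
  refine ⟨Sum.elim g (Sum.elim ω' ρ) ∘ eq3, ?_⟩
  have hr3 : Set.range (Sum.elim g (Sum.elim ω' ρ) ∘ eq3) = Set.range g ∪ C := by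
    rw [Set.range_comp, eq3.surjective.range_eq, Set.image_univ, Set.Sum.elim_range, Set.Sum.elim_range, hC]
  rw [hr3, hdes]
  apply le_antisymm
  · rw [adjoin_le_iff]
    rintro x (hx | hx)
    · exact subset_adjoin F _ (Or.inl (subset_adjoin F _ hx))
    · exact subset_adjoin F _ (Or.inr hx)
  · rw [adjoin_le_iff]
    rintro x (hx | hx)
    · exact adjoin.mono F _ _ Set.subset_union_left hx
    · exact subset_adjoin F _ (Or.inr hx)

end CPZ
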