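import Pool.Agent.CPZ.DatL
import Pool.Agent.CPZ.TT

/-!
# CPZ-LLm: the fixed field of `τ` is generated by `11 + s` elements

Apply `toolT` to `R`, `τ`, `e i = ∏_j u i j` (product `1` by `D.hu`), `n + 1 = 2`, `z = ![fun i => u i 0, fun i => u i 1]`, and the `3 + s` invariants
`Fin.append (fun j : Fin 3 => D.m j) D.w` (`Fin 3` and `ZMod 3` are the same type by definition). They generate `R` because
`u i 2 = e i / (u i 0 * u i 1)` (`u_ne_zero`) and `D.gen`. `3 * 2 + 2 + (3 + s) = 11 + s`.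
-/

namespace CPZ

open IntermediateField

universe u v

variable {F : Type u} {R : Type v} [Field F] [Field R] [Algebra F R] {s : ℕ}

theorem gens_L (D : Datum F R s) : ∃ g : Fin (11 + s) → R, adjoin F (Set.range g) = Fx {D.τ} := by
  classical
  have hcast : 3 * (1 + 1) + 2 + (3 + s) = 11 + s := by omega
  have h3 : ∀ f : ZMod 3 → R, ∏ j, f j = f 0 * f 1 * f 2 := fun f => Fin.prod_univ_three f
  have he : ∀ i, D.τ (∏ j, D.u i j) = ∏ j, D.u (i + 1) j := fun i => by
    rw [map_prod]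
    exact Finset.prod_congr rfl fun j _ => D.τu i j
  have hp : (∏ j, D.u 0 j) * (∏ j, D.u 1 j) * (∏ j, D.u 2 j) = 1 := by
    have h := D.hu
    rw [h3] at h
    exact h
  have hz : ∀ (k : Fin (1 + 1)) (i : ZMod 3),
      D.τ ((![fun i => D.u i 0, fun i => D.u i 1] : Fin (1 + 1) → ZMod 3 → R) k i) =
        (![fun i => D.u i 0, fun i => D.u i 1] : Fin (1 + 1) → ZMod 3 → R) k (i + 1) := by
    intro k i
    fin_cases k
    · exact D.τu i 0
    · exact D.τu i 1
  have hρ : ∀ k, D.τ (Fin.append (fun j : Fin 3 => D.m j) D.w k) =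
      Fin.append (fun j : Fin 3 => D.m j) D.w k := by
    intro k
    refine Fin.addCases (fun j => ?_) (fun j => ?_) k
    · rw [Fin.append_left]
      exact D.τm j
    · rw [Fin.append_right]
      exact D.τw j
  have hgen : adjoin F (Set.range (fun i => ∏ j, D.u i j) ∪
      Set.range (fun p : Fin (1 + 1) × ZMod 3 =>
        (![fun i => D.u i 0, fun i => D.u i 1] : Fin (1 + 1) → ZMod 3 → R) p.1 p.2) ∪
      Set.range (Fin.append (fun j : Fin 3 => D.m j) D.w)) = ⊤ := by
    rw [eq_top_iff, ← D.gen, adjoin_le_iff]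
    have hu0 : ∀ i, D.u i 0 ∈ adjoin F (Set.range (fun i => ∏ j, D.u i j) ∪
      Set.range (fun p : Fin (1 + 1) × ZMod 3 =>
        (![fun i => D.u i 0, fun i => D.u i 1] : Fin (1 + 1) → ZMod 3 → R) p.1 p.2) ∪
      Set.range (Fin.append (fun j : Fin 3 => D.m j) D.w)) := fun i =>
      subset_adjoin F _ (Or.inl (Or.inr ⟨(0, i), rfl⟩))
    have hu1 : ∀ i, D.u i 1 ∈ adjoin F (Set.range (fun i => ∏ j, D.u i j) ∪
      Set.range (fun p : Fin (1 + 1) × ZMod 3 =>
        (![fun i => D.u i 0, fun i => D.u i 1] : Fin (1 + 1) → ZMod 3 → R) p.1 p.2) ∪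
      Set.range (Fin.append (fun j : Fin 3 => D.m j) D.w)) := fun i =>
      subset_adjoin F _ (Or.inl (Or.inr ⟨(1, i), rfl⟩))
    have hu2 : ∀ i, D.u i 2 ∈ adjoin F (Set.range (fun i => ∏ j, D.u i j) ∪
      Set.range (fun p : Fin (1 + 1) × ZMod 3 =>
        (![fun i => D.u i 0, fun i => D.u i 1] : Fin (1 + 1) → ZMod 3 → R) p.1 p.2) ∪
      Set.range (Fin.append (fun j : Fin 3 => D.m j) D.w)) := fun i => by
      have h1 : (∏ j, D.u i j) ∈ adjoin F (Set.range (fun i => ∏ j, D.u i j) ∪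
        Set.range (fun p : Fin (1 + 1) × ZMod 3 =>
          (![fun i => D.u i 0, fun i => D.u i 1] : Fin (1 + 1) → ZMod 3 → R) p.1 p.2) ∪
        Set.range (Fin.append (fun j : Fin 3 => D.m j) D.w)) :=
        subset_adjoin F _ (Or.inl (Or.inl ⟨i, rfl⟩))
      have h2 : D.u i 2 = (∏ j, D.u i j) / (D.u i 0 * D.u i 1) := by
        have a0 := u_ne_zero D i 0
        have a1 := u_ne_zero D i 1
        rw [h3]
        field_simp
      rw [h2]
      exact div_mem h1 (mul_mem (hu0 i) (hu1 i))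
    intro x hx
    rcases hx with (⟨⟨i, j⟩, rfl⟩ | ⟨j, rfl⟩) | ⟨k, rfl⟩
    · have hj : j = 0 ∨ j = 1 ∨ j = 2 := by
        revert j
        decide
      rcases hj with rfl | rfl | rfl
      · exact hu0 i
      · exact hu1 i
      · exact hu2 i
    · refine subset_adjoin F _ (Or.inr ⟨Fin.castAdd s (j : Fin 3), ?_⟩)
      exact Fin.append_left (fun j : Fin 3 => D.m j) D.w j
    · refine subset_adjoin F _ (Or.inr ⟨Fin.natAdd 3 k, ?_⟩)
      rw [Fin.append_right]
  have ht : ((3 * (1 + 1) + 2 + (3 + s) : ℕ) : Cardinal.{v}) ≤ Algebra.trdeg F R := by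
    rw [hcast]
    exact D.trd
  have hmain := toolT D.τ (dat_τ3 D) (fun i => ∏ j, D.u i j) he hp (n := 1) (s := 3 + s)
    ![fun i => D.u i 0, fun i => D.u i 1] hz (Fin.append (fun j : Fin 3 => D.m j) D.w) hρ hgen ht
  rw [hcast] at hmain
  exact hmain

end CPZ
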