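import Pool.Agent.CPZ.FxL

/-!
# CPZ-Rel: relative degrees from group actions

* `relfinrank_of_group`: `G` finite acts faithfully by `ρ : G →* (L ≃ₐ[F] L)` and `E ≤ L` is the set of fixed elements; then `[L : E] = |G|`:
  `finrank_Fx` for the field `L` and the subgroup `ρ.range` (`Nat.card ρ.range = Nat.card G` by injectivity); `relfinrank` of `E, L` is the
  finrank of `L` over `E` (`IntermediateField.relfinrank_eq_finrank_of_le`, `extendScalars`, `restrict`).
* `alg_of_group`: `R` is algebraic over the field of elements fixed by a finite set of automorphisms which generate a finite group; here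
  in the form: every `r` is algebraic over `E` if `E = Fx S`, `S ⊆ G`, `G` a finite subgroup (`finite_Fx`, `Fx G ≤ Fx S`).
-/

namespace CPZ

open IntermediateField

universe u v

variable {F : Type u} {R : Type v} [Field F] [Field R] [Algebra F R]

theorem relfinrank_of_group {G : Type} [Group G] [Finite G] (L E : IntermediateField F R) (hE : E ≤ L)
    (ρ : G →* (L ≃ₐ[F] L)) (hρ : Function.Injective ρ) (h : ∀ a : L, (a : R) ∈ E ↔ ∀ g, ρ g a = a) :
    E.relfinrank L = Nat.card G := by
  have : Finite ρ.range := Set.finite_range ρ |>.to_subtype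
  have h1 : Module.finrank (Fx ((ρ.range : Subgroup (L ≃ₐ[F] L)) : Set (L ≃ₐ[F] L))) L = Nat.card ρ.range :=
    finrank_Fx ρ.range
  have h2 : Nat.card ρ.range = Nat.card G :=
    (Nat.card_congr (Equiv.ofInjective ρ hρ)).symm
  rw [relfinrank_eq_finrank_of_le hE, ← h2, ← h1]
  have hmem : ∀ a : L, a ∈ Fx ((ρ.range : Subgroup (L ≃ₐ[F] L)) : Set (L ≃ₐ[F] L)) ↔ (a : R) ∈ E := by
    intro a
    rw [h a, mem_Fx]
    constructor
    · intro ha g
      exact ha (ρ g) ⟨g, rfl⟩
    · rintro ha s ⟨g, rfl⟩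
      exact ha g
  let i : E ≃+* Fx ((ρ.range : Subgroup (L ≃ₐ[F] L)) : Set (L ≃ₐ[F] L)) :=
    { toFun := fun a => ⟨⟨a, hE a.2⟩, (hmem _).mpr a.2⟩
      invFun := fun a => ⟨(a : L), (hmem _).mp a.2⟩
      left_inv := fun a => rfl
      right_inv := fun a => rfl
      map_mul' := fun a b => rfl
      map_add' := fun a b => rfl }
  let j : extendScalars hE ≃+* L :=
    { toFun := fun a => ⟨(a : R), a.2⟩
      invFun := fun a => ⟨(a : R), a.2⟩
      left_inv := fun a => rfl
      right_inv := fun a => rfl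
      map_mul' := fun a b => rfl
      map_add' := fun a b => rfl }
  exact Algebra.finrank_eq_of_equiv_equiv i j (by ext a; rfl)

theorem alg_of_group (G : Subgroup (R ≃ₐ[F] R)) [Finite G] (S : Set (R ≃ₐ[F] R)) (hS : S ⊆ G) (r : R) :
    IsAlgebraic (Fx S) r := by
  have hle : Fx (G : Set (R ≃ₐ[F] R)) ≤ Fx S := fun a ha s hs => ha s (hS hs)
  have : Module.Finite (Fx (G : Set (R ≃ₐ[F] R))) R := finite_Fx G
  have h1 : IsAlgebraic (Fx (G : Set (R ≃ₐ[F] R))) r := IsAlgebraic.of_finite _ r
  obtain ⟨p, hp0, hp⟩ := h1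
  refine ⟨p.map (inclusion hle).toRingHom, ?_, ?_⟩
  · rw [Ne, Polynomial.map_eq_zero_iff]
    · exact hp0
    · exact (inclusion hle).toRingHom.injective
  · rw [Polynomial.aeval_def, Polynomial.eval₂_map]
    exact hp

end CPZ
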