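import Pool.Agent.CPZ.BE
import Pool.Agent.CPZ.LLm
import Pool.Agent.CPZ.Rel
import Pool.Agent.CPZ.FinG

/-!
# CPZ-Abs: the abstract theorem (assembly)
-/

namespace CPZ

open IntermediateField

universe u v

variable {F : Type u} {R : Type v} [Field F] [Field R] [Algebra F R] {s : ℕ}

lemma mem_alt (π : Equiv.Perm (Fin 3)) :
    π ∈ alternatingGroup (Fin 3) ↔ π = 1 ∨ π = Equiv.addRight 1 ∨ π = Equiv.addRight 1 * Equiv.addRight 1 := by
  rw [Equiv.Perm.mem_alternatingGroup]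
  revert π; decide

lemma rho_stable (D : Datum F R s) (P : Rho D) (π : Equiv.Perm (ZMod 3)) (a : R) (ha : a ∈ Fx {D.τ}) :
    P.ρ π a ∈ Fx {D.τ} := by
  intro t ht
  rw [Set.mem_singleton_iff] at ht
  subst ht
  have h := congrArg (fun f : R ≃ₐ[F] R => f a) (rho_comm D P π)
  simp only [AlgEquiv.mul_apply] at h
  rw [← h, ha _ rfl]

lemma rho_symm (D : Datum F R s) (P : Rho D) (π : Equiv.Perm (ZMod 3)) (a : R) :
    (P.ρ π).symm a = P.ρ π⁻¹ a := by
  rw [AlgEquiv.symm_apply_eq, ← AlgEquiv.mul_apply, ← map_mul, mul_inv_cancel, map_one, AlgEquiv.one_apply]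

/-- restriction of the action to `L = Fx {τ}` -/
noncomputable def rhoL (D : Datum F R s) (P : Rho D) : Equiv.Perm (Fin 3) →* (Fx {D.τ} ≃ₐ[F] Fx {D.τ}) where
  toFun π := res (Fx {D.τ}) (P.ρ π) (fun a ha => rho_stable D P π a ha)
    (fun a ha => by rw [rho_symm]; exact rho_stable D P π⁻¹ a ha)
  map_one' := by
    ext a
    rw [coe_res, AlgEquiv.one_apply]
    have : P.ρ (1 : Equiv.Perm (ZMod 3)) = 1 := map_one _
    exact congrArg (fun f : R ≃ₐ[F] R => f a) this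
  map_mul' := fun a b => by
    ext c
    rw [coe_res, AlgEquiv.mul_apply, coe_res, coe_res]
    have : P.ρ (a * b : Equiv.Perm (ZMod 3)) = P.ρ a * P.ρ b := map_mul _ _ _
    exact congrArg (fun f : R ≃ₐ[F] R => f c) this

lemma coe_rhoL (D : Datum F R s) (P : Rho D) (π : Equiv.Perm (Fin 3)) (a : Fx {D.τ}) :
    ((rhoL D P π a : Fx {D.τ}) : R) = P.ρ π (a : R) := rfl

lemma m_memL (D : Datum F R s) (j : ZMod 3) : D.m j ∈ Fx {D.τ} := by
  intro t ht
  rw [Set.mem_singleton_iff] at ht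
  subst ht
  exact D.τm j

lemma rhoL_inj (D : Datum F R s) (P : Rho D) : Function.Injective (rhoL D P) := by
  intro a b h
  refine Equiv.ext (fun j => ?_)
  have h1 := congrArg (fun f : Fx {D.τ} ≃ₐ[F] Fx {D.τ} => ((f ⟨D.m j, m_memL D j⟩ : Fx {D.τ}) : R)) h
  simp only [coe_rhoL] at h1
  rw [P.hm, P.hm] at h1
  exact m_inj D h1

theorem abs_main (D : Datum F R s) : ∃ E L : IntermediateField F R, L = Fx {D.τ} ∧ E ≤ Fx {D.σ, D.τ} ∧
    Fx {D.σ, D.τ} ≤ L ∧ Rat F E (11 + s) ∧ Rat F L (11 + s) ∧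
    E.relfinrank (Fx {D.σ, D.τ}) = 2 ∧ (Fx {D.σ, D.τ}).relfinrank L = 3 ∧
    ∃ ρ : Equiv.Perm (Fin 3) →* (L ≃ₐ[F] L), Function.Injective ρ ∧
      (∀ a : L, (a : R) ∈ Fx {D.σ, D.τ} ↔ ∀ π ∈ alternatingGroup (Fin 3), ρ π a = a) ∧
      (∀ a : L, (a : R) ∈ E ↔ ∀ π, ρ π a = a) := by
  obtain ⟨P⟩ := exists_rho D
  obtain ⟨G, hG, hτ, hσ, hρ⟩ := exists_finG D P
  obtain ⟨gE, hgE⟩ := gens_BE D P
  obtain ⟨gL, hgL⟩ := gens_L D
  have hsh := rho_shift D P
  have hle1 : Fx ({D.τ} ∪ Set.range P.ρ) ≤ Fx {D.σ, D.τ} := by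
    intro a ha t ht
    rcases ht with rfl | ht
    · rw [← hsh]; exact ha _ (Or.inr ⟨_, rfl⟩)
    · rw [Set.mem_singleton_iff] at ht; subst ht; exact ha _ (Or.inl rfl)
  have hle2 : Fx {D.σ, D.τ} ≤ Fx {D.τ} := by
    intro a ha t ht
    exact ha t (Or.inr ht)
  have hE : Rat F (Fx ({D.τ} ∪ Set.range P.ρ)) (11 + s) := by
    refine rat_of_gens _ gE hgE (fun r => ?_) D.trd
    refine alg_of_group G _ ?_ r
    rintro t (ht | ⟨π, rfl⟩)
    · rw [Set.mem_singleton_iff] at ht; subst ht; exact hτ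
    · exact hρ π
  have hL : Rat F (Fx {D.τ}) (11 + s) := by
    refine rat_of_gens _ gL hgL (fun r => ?_) D.trd
    refine alg_of_group G _ ?_ r
    intro t ht
    rw [Set.mem_singleton_iff] at ht; subst ht; exact hτ
  have hA : ∀ a : Fx {D.τ}, (a : R) ∈ Fx {D.σ, D.τ} ↔ ∀ π ∈ alternatingGroup (Fin 3), rhoL D P π a = a := by
    intro a
    constructor
    · intro ha π hπ
      have hs : P.ρ (Equiv.addRight 1) (a : R) = a := by rw [hsh]; exact ha _ (Or.inl rfl)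
      have h1 : rhoL D P (Equiv.addRight 1) a = a := Subtype.ext hs
      rcases (mem_alt π).1 hπ with rfl | rfl | rfl
      · rw [map_one]; rfl
      · exact h1
      · rw [map_mul, AlgEquiv.mul_apply, h1, h1]
    · intro h t ht
      rcases ht with rfl | ht
      · have h1 := h (Equiv.addRight 1) ((mem_alt _).2 (Or.inr (Or.inl rfl)))
        have h2 := congrArg (fun z : Fx {D.τ} => (z : R)) h1
        rw [← hsh]; exact h2
      · rw [Set.mem_singleton_iff] at ht; subst ht; exact a.2 _ rfl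
  have hB : ∀ a : Fx {D.τ}, (a : R) ∈ Fx ({D.τ} ∪ Set.range P.ρ) ↔ ∀ π, rhoL D P π a = a := by
    intro a
    constructor
    · intro ha π
      exact Subtype.ext (ha _ (Or.inr ⟨π, rfl⟩))
    · rintro h t (ht | ⟨π, rfl⟩)
      · rw [Set.mem_singleton_iff] at ht; subst ht; exact a.2 _ rfl
      · exact congrArg (fun z : Fx {D.τ} => (z : R)) (h π)
  have h6 : (Fx ({D.τ} ∪ Set.range P.ρ)).relfinrank (Fx {D.τ}) = 6 := by
    rw [relfinrank_of_group (Fx {D.τ}) _ (hle1.trans hle2) (rhoL D P) (rhoL_inj D P) hB]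
    rw [Nat.card_eq_fintype_card, Fintype.card_perm, Fintype.card_fin]
    rfl
  have h3 : (Fx {D.σ, D.τ}).relfinrank (Fx {D.τ}) = 3 := by
    rw [relfinrank_of_group (G := alternatingGroup (Fin 3)) (Fx {D.τ}) _ hle2
      ((rhoL D P).comp (alternatingGroup (Fin 3)).subtype)
      ((rhoL_inj D P).comp Subtype.val_injective) (fun a => ?_)]
    · rw [Nat.card_eq_fintype_card]
      decide
    · rw [hA a]
      constructor
      · intro h g; exact h g.1 g.2
      · intro h π hπ; exact h ⟨π, hπ⟩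
  have hmul := IntermediateField.relfinrank_mul_relfinrank hle1 hle2
  rw [h3, h6] at hmul
  exact ⟨_, _, rfl, hle1, hle2, hE, hL, by omega, h3, rhoL D P, rhoL_inj D P, hA, hB⟩

end CPZ
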