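import Pool.Agent.CPZ.Bfix
import Pool.Agent.CPZ.TT

/-!
# CPZ-BE: the fixed field of `⟨τ⟩ × S_3` is generated by `11 + s` elements
-/

namespace CPZ

open IntermediateField

universe u v

variable {F : Type u} {R : Type v} [Field F] [Field R] [Algebra F R] {s : ℕ}

theorem gens_BE (D : Datum F R s) (P : Rho D) :
    ∃ g : Fin (11 + s) → R, adjoin F (Set.range g) = Fx ({D.τ} ∪ Set.range P.ρ) := by
  have mV : ∀ i, Vi D i ∈ Bf D := fun i =>
    subset_adjoin F _ (Or.inl (Or.inl (Or.inl (Or.inl ⟨i, rfl⟩))))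
  have mL : ∀ i, Li D i ∈ Bf D := fun i =>
    subset_adjoin F _ (Or.inl (Or.inl (Or.inl (Or.inr ⟨i, rfl⟩))))
  have mK : ∀ i, Ki D i ∈ Bf D := fun i =>
    subset_adjoin F _ (Or.inl (Or.inl (Or.inr ⟨i, rfl⟩)))
  have mE : ∀ i, Ei D i ∈ Bf D := fun i =>
    subset_adjoin F _ (Or.inl (Or.inr ⟨i, rfl⟩))
  have mW : ∀ k, D.w k ∈ Bf D := fun k => subset_adjoin F _ (Or.inr ⟨k, rfl⟩)
  have h1 : ∀ a ∈ Bf D, D.τ a ∈ Bf D := by
    have h : Bf D ≤ (Bf D).comap (D.τ : R →ₐ[F] R) := by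
      conv_lhs => rw [Bf]
      rw [adjoin_le_iff]
      rintro a ((((⟨i, rfl⟩ | ⟨i, rfl⟩) | ⟨i, rfl⟩) | ⟨i, rfl⟩) | ⟨k, rfl⟩)
      · show D.τ (Vi D i) ∈ Bf D
        rw [τ_Vi]
        exact mV _
      · show D.τ (Li D i) ∈ Bf D
        rw [τ_Li]
        exact mL _
      · show D.τ (Ki D i) ∈ Bf D
        rw [τ_Ki]
        exact mK _
      · show D.τ (Ei D i) ∈ Bf D
        rw [τ_Ei]
        exact mE _
      · show D.τ (D.w k) ∈ Bf D
        rw [D.τw]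
        exact mW _
    exact fun a ha => h ha
  have h3 : ∀ r, D.τ (D.τ (D.τ r)) = r := by
    intro r
    have := dat_τ3 D
    have h := congrArg (fun φ : R ≃ₐ[F] R => φ r) this
    exact h
  have h2 : ∀ a ∈ Bf D, D.τ.symm a ∈ Bf D := by
    intro a ha
    have h : D.τ.symm a = D.τ (D.τ a) := by
      rw [AlgEquiv.symm_apply_eq]
      exact (h3 a).symm
    rw [h]
    exact h1 _ (h1 _ ha)
  obtain ⟨τ', hτ'⟩ : ∃ τ' : Bf D ≃ₐ[F] Bf D, ∀ a, ((τ' a : Bf D) : R) = D.τ a :=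
    ⟨res (Bf D) D.τ h1 h2, fun a => rfl⟩
  have ht : ((3 * (2 + 1) + 2 + s : ℕ) : Cardinal.{v}) ≤ Algebra.trdeg F (Bf D) := by
    have hf := (fin_Bf D).1
    rw [trdeg_of_alg (Bf D) (fun r => Algebra.IsAlgebraic.isAlgebraic r)]
    have e : 3 * (2 + 1) + 2 + s = 11 + s := by omega
    rw [e]
    exact D.trd
  obtain ⟨z, hz⟩ : ∃ z : Fin (2 + 1) → ZMod 3 → Bf D, z = ![fun i => ⟨Vi D i, mV i⟩,
      fun i => ⟨Li D i, mL i⟩, fun i => ⟨Ki D i, mK i⟩] := ⟨_, rfl⟩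
  have hgen : adjoin F (Set.range (fun i => (⟨Ei D i, mE i⟩ : Bf D)) ∪
      Set.range (fun p : Fin (2 + 1) × ZMod 3 => z p.1 p.2) ∪
      Set.range (fun k => (⟨D.w k, mW k⟩ : Bf D))) = ⊤ := by
    apply map_injective (Bf D).val
    rw [adjoin_map, ← AlgHom.fieldRange_eq_map, fieldRange_val]
    apply le_antisymm
    · rw [adjoin_le_iff]
      rintro a ⟨b, _, rfl⟩
      exact b.2
    · conv_lhs => rw [Bf]
      rw [adjoin_le_iff]
      rintro a ((((⟨i, rfl⟩ | ⟨i, rfl⟩) | ⟨i, rfl⟩) | ⟨i, rfl⟩) | ⟨k, rfl⟩)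
      · refine subset_adjoin F _ ⟨⟨Vi D i, mV i⟩, Or.inl (Or.inr ⟨(0, i), ?_⟩), rfl⟩
        rw [hz]
        rfl
      · refine subset_adjoin F _ ⟨⟨Li D i, mL i⟩, Or.inl (Or.inr ⟨(1, i), ?_⟩), rfl⟩
        rw [hz]
        rfl
      · refine subset_adjoin F _ ⟨⟨Ki D i, mK i⟩, Or.inl (Or.inr ⟨(2, i), ?_⟩), rfl⟩
        rw [hz]
        rfl
      · exact subset_adjoin F _ ⟨⟨Ei D i, mE i⟩, Or.inl (Or.inl ⟨i, rfl⟩), rfl⟩
      · exact subset_adjoin F _ ⟨⟨D.w k, mW k⟩, Or.inr ⟨k, rfl⟩, rfl⟩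
  obtain ⟨g', hg'⟩ := toolT τ' (by
      apply AlgEquiv.ext
      intro a
      apply Subtype.ext
      show ((τ' (τ' (τ' a)) : Bf D) : R) = a
      rw [hτ', hτ', hτ', h3])
    (fun i => ⟨Ei D i, mE i⟩) (by
      intro i
      apply Subtype.ext
      rw [hτ']
      exact τ_Ei D i)
    (Subtype.ext (Ei_prod D)) z (by
      intro k i
      apply Subtype.ext
      rw [hτ', hz]
      fin_cases k
      · exact τ_Vi D i
      · exact τ_Li D i
      · exact τ_Ki D i)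
    (fun k => ⟨D.w k, mW k⟩) (by
      intro k
      apply Subtype.ext
      rw [hτ']
      exact D.τw k) hgen ht
  refine ⟨fun k => (g' (Fin.cast (by omega) k) : R), ?_⟩
  have e1 : Set.range (fun k : Fin (11 + s) => (g' (Fin.cast (by omega) k) : R)) =
      (Bf D).val '' Set.range g' := by
    ext r
    constructor
    · rintro ⟨k, rfl⟩
      exact ⟨_, ⟨_, rfl⟩, rfl⟩
    · rintro ⟨_, ⟨k, rfl⟩, rfl⟩
      exact ⟨Fin.cast (by omega) k, rfl⟩
  rw [e1, ← adjoin_map, hg']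
  ext r
  constructor
  · rintro ⟨b, hb, rfl⟩
    have hb1 : τ' b = b := hb τ' rfl
    have hb2 : (b : R) ∈ Fx (Set.range P.ρ) := by
      rw [← Bf_eq D P]
      exact b.2
    intro φ hφ
    rcases hφ with hφ | hφ
    · rw [Set.mem_singleton_iff] at hφ
      subst hφ
      show D.τ (b : R) = b
      rw [← hτ', hb1]
    · exact hb2 φ hφ
  · intro hr
    have hr1 : r ∈ Bf D := by
      rw [Bf_eq D P]
      exact fun φ hφ => hr φ (Or.inr hφ)
    refine ⟨⟨r, hr1⟩, ?_, rfl⟩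
    intro φ hφ
    rw [Set.mem_singleton_iff] at hφ
    subst hφ
    apply Subtype.ext
    rw [hτ']
    exact hr D.τ (Or.inl rfl)

end CPZ
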