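import Pool.Agent.CPZ.VD

/-!
# CPZ-Eqv: how `τ` and the symmetric group act on the invariants

`vv_map`, `kk_map`, `ll_map` for the ring homomorphisms `D.τ`, `P.ρ π`, then `D.τu`, `D.τm`, `P.hu`, `P.hm` (as equalities of functions:
`D.τ ∘ D.u i = D.u (i + 1)`, `P.ρ π ∘ D.u i = D.u i ∘ π`), `vv_perm` etc. For `Ei`: `map_prod`, `Equiv.prod_comp`.
-/

namespace CPZ

open IntermediateField

universe u v

variable {F : Type u} {R : Type v} [Field F] [Field R] [Algebra F R] {s : ℕ}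

private theorem τ_fun (D : Datum F R s) (i : ZMod 3) : (D.τ : R →+* R) ∘ D.u i = D.u (i + 1) := by
  funext j; exact D.τu i j

private theorem τ_funm (D : Datum F R s) : (D.τ : R →+* R) ∘ D.m = D.m := by
  funext j; exact D.τm j

private theorem ρ_fun (D : Datum F R s) (P : Rho D) (π : Equiv.Perm (ZMod 3)) (i : ZMod 3) :
    (P.ρ π : R →+* R) ∘ D.u i = D.u i ∘ π := by
  funext j; exact P.hu π i j

private theorem ρ_funm (D : Datum F R s) (P : Rho D) (π : Equiv.Perm (ZMod 3)) :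
    (P.ρ π : R →+* R) ∘ D.m = D.m ∘ π := by
  funext j; exact P.hm π j

theorem τ_Vi (D : Datum F R s) (i : ZMod 3) : D.τ (Vi D i) = Vi D (i + 1) := by
  have h := vv_map (D.τ : R →+* R) (D.u i) D.m
  rw [τ_fun, τ_funm] at h
  exact h

theorem τ_Ki (D : Datum F R s) (i : ZMod 3) : D.τ (Ki D i) = Ki D (i + 1) := by
  have h := kk_map (D.τ : R →+* R) (D.u i) D.m
  rw [τ_fun, τ_funm] at h
  exact h

theorem τ_Li (D : Datum F R s) (i : ZMod 3) : D.τ (Li D i) = Li D (i + 1) := by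
  have h := ll_map (D.τ : R →+* R) (D.u i) D.m
  rw [τ_fun, τ_funm] at h
  exact h

theorem τ_Ei (D : Datum F R s) (i : ZMod 3) : D.τ (Ei D i) = Ei D (i + 1) := by
  unfold Ei
  rw [map_prod]
  exact Finset.prod_congr rfl fun j _ => D.τu i j

theorem ρ_Vi (D : Datum F R s) (P : Rho D) (π : Equiv.Perm (ZMod 3)) (i : ZMod 3) : P.ρ π (Vi D i) = Vi D i := by
  have h := vv_map (P.ρ π : R →+* R) (D.u i) D.m
  rw [ρ_fun, ρ_funm, vv_perm] at h
  exact h

theorem ρ_Ki (D : Datum F R s) (P : Rho D) (π : Equiv.Perm (ZMod 3)) (i : ZMod 3) : P.ρ π (Ki D i) = Ki D i := by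
  have h := kk_map (P.ρ π : R →+* R) (D.u i) D.m
  rw [ρ_fun, ρ_funm, kk_perm] at h
  exact h

theorem ρ_Li (D : Datum F R s) (P : Rho D) (π : Equiv.Perm (ZMod 3)) (i : ZMod 3) : P.ρ π (Li D i) = Li D i := by
  have h := ll_map (P.ρ π : R →+* R) (D.u i) D.m
  rw [ρ_fun, ρ_funm, ll_perm] at h
  exact h

theorem ρ_Ei (D : Datum F R s) (P : Rho D) (π : Equiv.Perm (ZMod 3)) (i : ZMod 3) : P.ρ π (Ei D i) = Ei D i := by
  unfold Ei
  rw [map_prod]
  calc ∏ j, P.ρ π (D.u i j) = ∏ j, D.u i (π j) := Finset.prod_congr rfl fun j _ => P.hu π i j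
    _ = ∏ j, D.u i j := Equiv.prod_comp π (D.u i)

end CPZ
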