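import Pool.Agent.CPZ.Sol
import Pool.Agent.CPZ.Eqv

/-!
# CPZ-Bfix: `Bf D` is the fixed field of the symmetric group

`Bf D ≤ Fx (range ρ)` by `Eqv` (and `P.hw`). `[R : Fx (range ρ)] = 6` by `finrank_Fx` (the range of `ρ` is a subgroup of order
`3! = 6`, `rho_inj`). `[R : Bf D] ≤ 6`: `R = Bf(m_0, m_1, m_2)` as `u_ij = v_i (m_j + l_i)/(m_j + k_i)` (`uvm`, `mk_ne`, `D.gen`);
`m_0` is a root of the monic cubic `X³ - t_1 X² + t_2 X - t_3` over `Bf` (`t_mem`; its value at `X` is `∏ (X - m_j)`), `m_1` is a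
root of the quotient `X² - (t_1 - m_0) X + …` over `Bf(m_0)` and `m_2 = t_1 - m_0 - m_1`. Degrees multiply
(`Module.finrank_mul_finrank`, `IntermediateField.adjoin.finrank`, `minpoly` has degree `≤` that of a polynomial with this root).
Equivalently: the `Bf`-span of the six elements `m_0^a m_1^b`, `a ≤ 2`, `b ≤ 1`, is closed under multiplication by `m_0, m_1, m_2`, so it
is a subring, finite over the field `Bf`, so a field, so all of `R`. Then `Bf D = Fx (range ρ)`: `Bf ≤ Y`, `[R : Bf] ≤ [R : Y]`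
(`IntermediateField.eq_of_le_of_finrank_le'` or `finrank_bot_mul_relfinrank`, `relfinrank`).
-/

namespace CPZ

open IntermediateField

universe u v

variable {F : Type u} {R : Type v} [Field F] [Field R] [Algebra F R] {s : ℕ}

open Polynomial in
private theorem bfix_deg {K : Type*} {L : Type*} [Field K] [Field L] [Algebra K L] (x : L) (p : K[X])
    (hp : p.Monic) (h : aeval x p = 0) :
    Module.Finite K K⟮x⟯ ∧ Module.finrank K K⟮x⟯ ≤ p.natDegree := by
  have hi : IsIntegral K x := ⟨p, hp, by rwa [← aeval_def]⟩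
  refine ⟨IntermediateField.adjoin.finiteDimensional hi, ?_⟩
  rw [IntermediateField.adjoin.finrank hi]
  exact natDegree_le_natDegree (minpoly.min K x hp h)

open Polynomial in
private theorem bfix_two {K : Type*} {L : Type*} [Field K] [Field L] [Algebra K L] (x y : L) (p : K[X])
    (hp : p.Monic) (h : aeval x p = 0) (q : K⟮x⟯[X]) (hq : q.Monic) (h' : aeval y q = 0)
    (htop : (K⟮x⟯⟮y⟯ : IntermediateField K⟮x⟯ L) = ⊤) :
    Module.Finite K L ∧ Module.finrank K L ≤ p.natDegree * q.natDegree := by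
  obtain ⟨f1, d1⟩ := bfix_deg x p hp h
  obtain ⟨f2, d2⟩ := bfix_deg y q hq h'
  rw [htop] at f2 d2
  rw [IntermediateField.finrank_top'] at d2
  have f3 : Module.Finite K⟮x⟯ L := Module.Finite.equiv
    (IntermediateField.topEquiv (F := K⟮x⟯) (E := L)).toLinearEquiv
  refine ⟨Module.Finite.trans K⟮x⟯ L, ?_⟩
  rw [← Module.finrank_mul_finrank K K⟮x⟯ L]
  exact Nat.mul_le_mul d1 d2

private theorem bfix_top (D : Datum F R s) (K : IntermediateField F R) (hB : Bf D ≤ K)
    (h : ∀ j, D.m j ∈ K) : K = ⊤ := by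
  rw [eq_top_iff, ← D.gen, adjoin_le_iff]
  rintro r ((⟨⟨i, j⟩, rfl⟩ | ⟨j, rfl⟩) | ⟨k, rfl⟩)
  · have e : D.u i j = Vi D i * (D.m j + Li D i) / (D.m j + Ki D i) :=
      eq_div_of_mul_eq (mk_ne D i j) (uvm D i j)
    show D.u i j ∈ K
    rw [e]
    have hV : Vi D i ∈ K := hB (subset_adjoin F _ (Or.inl (Or.inl (Or.inl (Or.inl ⟨i, rfl⟩)))))
    have hL : Li D i ∈ K := hB (subset_adjoin F _ (Or.inl (Or.inl (Or.inl (Or.inr ⟨i, rfl⟩)))))
    have hK : Ki D i ∈ K := hB (subset_adjoin F _ (Or.inl (Or.inl (Or.inr ⟨i, rfl⟩))))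
    exact K.div_mem (K.mul_mem hV (K.add_mem (h j) hL)) (K.add_mem (h j) hK)
  · exact h j
  · exact hB (subset_adjoin F _ (Or.inr ⟨k, rfl⟩))

theorem fin_Bf (D : Datum F R s) : Module.Finite (Bf D) R ∧ Module.finrank (Bf D) R ≤ 6 := by
  classical
  obtain ⟨h1, h2, h3⟩ := t_mem D
  set a : Bf D := ⟨t1 D, h1⟩ with ha
  set b : Bf D := ⟨t2 D, h2⟩ with hb
  set c : Bf D := ⟨t3 D, h3⟩ with hc
  let p : Polynomial (Bf D) := Polynomial.X ^ 3 - Polynomial.C a * Polynomial.X ^ 2 +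
    Polynomial.C b * Polynomial.X - Polynomial.C c
  have hp : p.Monic := by
    simp only [p]
    monicity!
  have hpd : p.natDegree = 3 := by
    simp only [p]
    compute_degree!
  have hpr : Polynomial.aeval (D.m 0) p = 0 := by
    simp only [p, map_add, map_sub, map_mul, map_pow, Polynomial.aeval_X, Polynomial.aeval_C]
    show D.m 0 ^ 3 - t1 D * D.m 0 ^ 2 + t2 D * D.m 0 - t3 D = 0
    unfold t1 t2 t3
    ring
  let E1 : IntermediateField (Bf D) R := (Bf D)⟮D.m 0⟯
  let x : E1 := ⟨D.m 0, mem_adjoin_simple_self (Bf D) (D.m 0)⟩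
  let q : Polynomial E1 := Polynomial.X ^ 2 - Polynomial.C (algebraMap (Bf D) E1 a - x) * Polynomial.X +
    Polynomial.C (algebraMap (Bf D) E1 b - x * (algebraMap (Bf D) E1 a - x))
  have hq : q.Monic := by
    simp only [q]
    monicity!
  have hqd : q.natDegree = 2 := by
    simp only [q]
    compute_degree!
  have hqr : Polynomial.aeval (D.m 1) q = 0 := by
    simp only [q, map_add, map_sub, map_mul, map_pow, Polynomial.aeval_X, Polynomial.aeval_C]
    show D.m 1 ^ 2 - (t1 D - D.m 0) * D.m 1 + (t2 D - D.m 0 * (t1 D - D.m 0)) = 0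
    unfold t1 t2
    ring
  have htop : (E1⟮D.m 1⟯ : IntermediateField E1 R) = ⊤ := by
    have hm0 : D.m 0 ∈ E1⟮D.m 1⟯ := E1⟮D.m 1⟯.algebraMap_mem x
    have hm1 : D.m 1 ∈ E1⟮D.m 1⟯ := mem_adjoin_simple_self E1 (D.m 1)
    have ht : t1 D ∈ E1⟮D.m 1⟯ := E1⟮D.m 1⟯.algebraMap_mem (algebraMap (Bf D) E1 a)
    have hm2 : D.m 2 ∈ E1⟮D.m 1⟯ := by
      have e : D.m 2 = t1 D - D.m 0 - D.m 1 := by
        unfold t1
        ring
      rw [e]
      exact sub_mem (sub_mem ht hm0) hm1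
    have hK := bfix_top D ((E1⟮D.m 1⟯.restrictScalars (Bf D)).restrictScalars F)
      (fun r hr => E1⟮D.m 1⟯.algebraMap_mem (algebraMap (Bf D) E1 ⟨r, hr⟩)) (by
        intro j
        fin_cases j
        · exact hm0
        · exact hm1
        · exact hm2)
    rw [eq_top_iff]
    intro r _
    have hr : r ∈ (⊤ : IntermediateField F R) := mem_top
    rw [← hK] at hr
    exact hr
  have key := bfix_two (D.m 0) (D.m 1) p hp hpr q hq hqr htop
  rw [hpd, hqd] at key
  exact key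

theorem Bf_eq (D : Datum F R s) (P : Rho D) : Bf D = Fx (Set.range P.ρ) := by
  obtain ⟨hfin, h6⟩ := fin_Bf D
  have hle : Bf D ≤ Fx (Set.range P.ρ) := by
    unfold Bf
    rw [adjoin_le_iff]
    rintro r ((((⟨i, rfl⟩ | ⟨i, rfl⟩) | ⟨i, rfl⟩) | ⟨i, rfl⟩) | ⟨k, rfl⟩) g ⟨π, rfl⟩
    · exact ρ_Vi D P π i
    · exact ρ_Li D P π i
    · exact ρ_Ki D P π i
    · exact ρ_Ei D P π i
    · exact P.hw π k
  have : Finite P.ρ.range := Finite.of_surjective P.ρ.rangeRestrict P.ρ.rangeRestrict_surjective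
  have hcard : Nat.card P.ρ.range = 6 := by
    rw [← Nat.card_congr (MonoidHom.ofInjective (rho_inj D P)).toEquiv, Nat.card_perm,
      Nat.card_zmod]
    rfl
  have hrank : Module.finrank (Fx (Set.range P.ρ)) R = 6 := by
    have h := finrank_Fx P.ρ.range
    rw [hcard, MonoidHom.coe_range] at h
    exact h
  exact eq_of_le_of_finrank_le' hle (by rw [hrank]; exact h6)

end CPZ
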