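import Mathlib

/-!
# CPZ-Lin: choosing few elements of a spanning set

If `S ⊆ U + span (z_1, …, z_n)` and `0 ∈ S` there are `ω_1, …, ω_n ∈ S` with `S ⊆ U + span (ω_1, …, ω_n)`.

Proof. Pass to the quotient `V ⧸ U`: the span of the image of `S` lies in the span of the `n` images of `z_i`, so has
dimension `≤ n`; choose a maximal linearly independent subset of the image of `S` (`exists_linearIndependent`), it has `≤ n`
elements and the same span; lift its elements to `S` and fill up with `0`.
-/

namespace CPZ

theorem exists_family {K V : Type*} [Field K] [AddCommGroup V] [Module K V] (U : Submodule K V) (S : Set V)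
    (h0 : (0 : V) ∈ S) {n : ℕ} (z : Fin n → V)
    (h : ∀ v ∈ S, v ∈ U ⊔ Submodule.span K (Set.range z)) :
    ∃ ω : Fin n → V, (∀ i, ω i ∈ S) ∧ ∀ v ∈ S, v ∈ U ⊔ Submodule.span K (Set.range ω) := by
  classical
  obtain ⟨b, hbS, hspan, hli⟩ := exists_linearIndependent K (U.mkQ '' S)
  have hle : b ⊆ (Submodule.span K (Set.range (fun i => U.mkQ (z i))) : Set (V ⧸ U)) := by
    intro x hx
    obtain ⟨v, hv, rfl⟩ := hbS hx
    have hv' := h v hv
    rw [Submodule.mem_sup] at hv'
    obtain ⟨u, hu, w, hw, rfl⟩ := hv'
    have h1 : U.mkQ u = 0 := by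
      rw [Submodule.mkQ_apply, Submodule.Quotient.mk_eq_zero]
      exact hu
    rw [map_add, h1, zero_add]
    have h2 : U.mkQ w ∈ Submodule.map U.mkQ (Submodule.span K (Set.range z)) :=
      Submodule.mem_map_of_mem hw
    rw [Submodule.map_span, ← Set.range_comp] at h2
    exact h2
  have hcard : Cardinal.mk b ≤ Fintype.card (Set.range (fun i => U.mkQ (z i))) := by
    apply linearIndependent_le_span' (Subtype.val : b → V ⧸ U) hli
    rw [Subtype.range_coe]
    exact hle
  have hcard2 : Fintype.card (Set.range (fun i => U.mkQ (z i))) ≤ n := by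
    have h1 := Fintype.card_range_le (fun i => U.mkQ (z i))
    rwa [Fintype.card_fin] at h1
  have hfin : Finite b := by
    apply Cardinal.lt_aleph0_iff_finite.1
    exact lt_of_le_of_lt hcard (Cardinal.natCast_lt_aleph0)
  have : Fintype b := Fintype.ofFinite b
  have hcb : Fintype.card b ≤ Fintype.card (Fin n) := by
    rw [Fintype.card_fin]
    have h1 : ((Fintype.card b : ℕ) : Cardinal) ≤ (n : Cardinal) := by
      rw [← Cardinal.mk_fintype]
      exact hcard.trans (by exact_mod_cast hcard2)
    exact_mod_cast h1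
  obtain ⟨e⟩ := Function.Embedding.nonempty_of_card_le hcb
  choose g hgS hg using fun x : b => hbS x.2
  refine ⟨fun i => if hi : ∃ x, e x = i then g hi.choose else 0, fun i => ?_, fun v hv => ?_⟩
  · by_cases hi : ∃ x, e x = i
    · simp only [hi, dite_true]
      exact hgS _
    · simp only [hi, dite_false]
      exact h0
  · set ω : Fin n → V := fun i => if hi : ∃ x, e x = i then g hi.choose else 0 with hω
    have hωe : ∀ x : b, ω (e x) = g x := by
      intro x
      have hi : ∃ y, e y = e x := ⟨x, rfl⟩
      have h1 : hi.choose = x := e.injective hi.choose_spec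
      simp only [hω, hi, dite_true]
      rw [h1]
    have h1 : U.mkQ v ∈ Submodule.span K (U.mkQ '' S) :=
      Submodule.subset_span ⟨v, hv, rfl⟩
    rw [← hspan] at h1
    have h2 : Submodule.span K b ≤ Submodule.map U.mkQ (Submodule.span K (Set.range ω)) := by
      rw [Submodule.span_le]
      intro x hx
      refine ⟨ω (e ⟨x, hx⟩), Submodule.subset_span ⟨_, rfl⟩, ?_⟩
      rw [hωe]
      exact hg ⟨x, hx⟩
    obtain ⟨w, hw, hwv⟩ := h2 h1
    have h3 : v - w ∈ U := by
      rw [← Submodule.Quotient.mk_eq_zero, Submodule.Quotient.mk_sub, sub_eq_zero]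
      exact hwv.symm
    have h4 : v = (v - w) + w := by abel
    rw [h4]
    exact Submodule.add_mem_sup h3 hw

end CPZ
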