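import Pool.Agent.CPZ.FxL

/-!
# CPZ-MobF: the invariants of `F(t)` under `t ↦ -1/(t+1)` (every characteristic)

`K = adjoin F {t}`, `τ t = -1/(t+1)`, `τ (τ t) = -(t+1)/t` (so `τ (τ (τ t)) = t`), the three elements `t, τ t, τ² t` are pairwise distinct
(`τ t ≠ t`; apply `τ`). Put `f = t + τ t + τ (τ t) ∈ K ⊓ Fx {τ}`; then `f * (t² + t) = t³ - 3 t - 1`, i.e.
`t³ = f t² + (f + 3) t + 1`. Hence `adjoin F {t} = A + A t + A t²` with `A = adjoin F {f}`: `t` is integral over the field `A`
with a monic polynomial of degree 3, so the `A`-span of `1, t, t²` is closed under multiplication and is the field `A(t) = K`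
(`IntermediateField.adjoin_simple...`, `PowerBasis`, or: `Algebra.adjoin A {t}` is a field as `t` is algebraic). Let
`r = α + β t + γ t²` (`α, β, γ ∈ A`, so fixed by `τ`) be invariant. Applying `τ`: `β (t - τ t) + γ (t² - (τ t)²) = 0`, so
`β + γ (t + τ t) = 0` and likewise (apply `τ`) `β + γ (τ t + τ² t) = 0`, hence `γ (t - τ² t) = 0`, `γ = 0`, `β = 0`, `r = α ∈ A`.
-/

namespace CPZ

open IntermediateField

universe u v

variable {F : Type u} {R : Type v} [Field F] [Field R] [Algebra F R]

theorem mobius_fix (τ : R ≃ₐ[F] R) (t : R) (h0 : t ≠ 0) (h1 : t + 1 ≠ 0)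
    (ht : τ t = -1 / (t + 1)) (hn : τ t ≠ t) :
    adjoin F {t} ⊓ Fx {τ} = adjoin F {t + τ t + τ (τ t)} := by
  set b := τ t with hb
  set c := τ b with hc
  have hb1 : b + 1 = t / (t + 1) := by rw [ht]; field_simp; ring
  have hb1' : b + 1 ≠ 0 := by rw [hb1]; exact div_ne_zero h0 h1
  have hcv : c = -(t + 1) / t := by
    rw [hc, ht, map_div₀, map_neg, map_one, map_add, map_one, ← hb, hb1]
    field_simp
  have hτc : τ c = t := by
    have hb0 : b ≠ 0 := by
      rw [ht]
      exact div_ne_zero (neg_ne_zero.mpr one_ne_zero) h1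
    rw [hcv, map_div₀, map_neg, map_add, map_one, ← hb, hb1, ht]
    field_simp
  have hτf : τ (t + b + c) = t + b + c := by
    rw [map_add, map_add, hτc, ← hb, ← hc]
    ring
  apply le_antisymm
  · rintro r ⟨hr1, hr2⟩
    have hA : adjoin F {t + b + c} ≤ Fx {τ} := by
      rw [adjoin_le_iff]
      rintro x rfl s hs
      rw [Set.mem_singleton_iff.mp hs]
      exact hτf
    have hfix : ∀ a : adjoin F {t + b + c}, τ (a : R) = a := fun a => hA a.2 τ rfl
    -- the cubic equation
    set f : adjoin F {t + b + c} := ⟨t + b + c, mem_adjoin_simple_self F _⟩ with hf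
    have hcub : t ^ 3 = (t + b + c) * t ^ 2 + ((t + b + c) + 3) * t + 1 := by
      rw [hcv, ht]
      field_simp
      ring
    set g : Polynomial (adjoin F {t + b + c}) :=
      Polynomial.X ^ 3 - (Polynomial.C f * Polynomial.X ^ 2 + Polynomial.C (f + 3) * Polynomial.X + 1)
      with hg
    have hdeg : (Polynomial.C f * Polynomial.X ^ 2 + Polynomial.C (f + 3) * Polynomial.X + 1).degree < 3 := by
      compute_degree
      norm_num
    have hmon : g.Monic := Polynomial.monic_X_pow_sub (by exact_mod_cast hdeg)
    have hroot : Polynomial.aeval t g = 0 := by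
      rw [hg]
      simp only [map_sub, map_add, map_mul, map_pow, map_one, Polynomial.aeval_X, Polynomial.aeval_C]
      have e1 : algebraMap (adjoin F {t + b + c}) R f = t + b + c := rfl
      have e2 : algebraMap (adjoin F {t + b + c}) R 3 = 3 := map_ofNat _ 3
      rw [e1, e2]
      linear_combination hcub
    have hint : IsIntegral (adjoin F {t + b + c}) t := ⟨g, hmon, hroot⟩
    have hr3 : r ∈ (adjoin (adjoin F {t + b + c}) {t}) := by
      have h2 : adjoin F {t} ≤ (adjoin (adjoin F {t + b + c}) {t}).restrictScalars F := by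
        rw [adjoin_le_iff]
        rintro x rfl
        exact mem_adjoin_simple_self _ x
      exact h2 hr1
    have hr4 : r ∈ Algebra.adjoin (adjoin F {t + b + c}) {t} := by
      rw [← adjoin_simple_toSubalgebra_of_isAlgebraic hint.isAlgebraic]
      exact hr3
    rw [Algebra.adjoin_singleton_eq_range_aeval] at hr4
    obtain ⟨p, hp⟩ := hr4
    have hp' : Polynomial.aeval t p = r := hp
    have hmod : Polynomial.aeval t (p %ₘ g) = r := by
      rw [← hp']
      conv_rhs => rw [← Polynomial.modByMonic_add_div p g]
      rw [map_add, map_mul, hroot, zero_mul, add_zero]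
    have hgd : g.natDegree = 3 := by
      apply Polynomial.natDegree_eq_of_degree_eq_some
      rw [hg, Polynomial.degree_sub_eq_left_of_degree_lt (by rw [Polynomial.degree_X_pow]; exact_mod_cast hdeg),
        Polynomial.degree_X_pow]
    have hnd : (p %ₘ g).natDegree < 3 := by
      rw [← hgd]
      apply Polynomial.natDegree_modByMonic_lt p hmon
      intro h
      rw [h, Polynomial.natDegree_one] at hgd
      exact absurd hgd (by norm_num)
    rw [Polynomial.aeval_eq_sum_range' hnd] at hmod
    simp only [Finset.sum_range_succ, Finset.sum_range_zero, zero_add, pow_zero, pow_one,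
      Algebra.smul_def, mul_one] at hmod
    set α := (p %ₘ g).coeff 0
    set β := (p %ₘ g).coeff 1
    set γ := (p %ₘ g).coeff 2
    have ea : ∀ a : adjoin F {t + b + c}, algebraMap (adjoin F {t + b + c}) R a = (a : R) := fun _ => rfl
    rw [ea, ea, ea] at hmod
    have hτr : τ r = r := hr2 τ rfl
    have hτ1 : (α : R) + β * b + γ * b ^ 2 = r := by
      rw [← hτr, ← hmod]
      simp only [map_add, map_mul, map_pow, hfix, ← hb]
    have htb : t - b ≠ 0 := sub_ne_zero.mpr (Ne.symm hn)
    have k1 : (β : R) + γ * (t + b) = 0 := by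
      apply (mul_eq_zero.mp _).resolve_left htb
      linear_combination hmod - hτ1
    have k2 : (β : R) + γ * (b + c) = 0 := by
      have := congrArg τ k1
      simpa only [map_add, map_mul, hfix, ← hb, ← hc, map_zero] using this
    have htc : t - c ≠ 0 := by
      rw [sub_ne_zero]
      intro h
      apply hn
      have := congrArg τ h
      rw [hτc, ← hb] at this
      exact this
    have k3 : (γ : R) = 0 := by
      apply (mul_eq_zero.mp _).resolve_right htc
      linear_combination k1 - k2
    have k4 : (β : R) = 0 := by linear_combination k1 - (t + b) * k3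
    have : r = (α : R) := by rw [← hmod, k3, k4]; ring
    rw [this]
    exact α.2
  · rw [adjoin_le_iff]
    rintro x rfl
    have htm : t ∈ adjoin F {t} := mem_adjoin_simple_self F t
    refine ⟨?_, ?_⟩
    · apply add_mem
      · apply add_mem htm
        rw [ht]
        exact div_mem (neg_mem (one_mem _)) (add_mem htm (one_mem _))
      · rw [hcv]
        exact div_mem (neg_mem (add_mem htm (one_mem _))) htm
    · intro s hs
      rw [Set.mem_singleton_iff.mp hs]
      exact hτf

end CPZ
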