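import Mathlib

/-!
# MP_0e1fc4_al: definitions

`CPZ.Fx S` = elements fixed by a set `S` of automorphisms; `CPZ.Rat F R n` = `R` is purely transcendental of degree `n`
over `F`; `CPZ.Datum` = the abstract situation: a field with two commuting automorphisms of order 3, generated by nine
elements `u i j` with product `1`, three elements `m j` and `s` invariant elements.
-/

namespace CPZ

open IntermediateField

universe u v

/-- the field of elements fixed by all automorphisms in the set `S` -/
def Fx {F : Type u} {R : Type v} [Field F] [Field R] [Algebra F R] (S : Set (R ≃ₐ[F] R)) :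
    IntermediateField F R where
  carrier := {r | ∀ s ∈ S, s r = r}
  mul_mem' := fun {a b} ha hb s hs => by rw [map_mul, ha s hs, hb s hs]
  one_mem' := fun s _ => map_one s
  add_mem' := fun {a b} ha hb s hs => by rw [map_add, ha s hs, hb s hs]
  zero_mem' := fun s _ => map_zero s
  algebraMap_mem' := fun r s _ => s.commutes r
  inv_mem' := fun a ha s hs => by rw [map_inv₀, ha s hs]

lemma mem_Fx {F : Type u} {R : Type v} [Field F] [Field R] [Algebra F R] {S : Set (R ≃ₐ[F] R)} {r : R} :
    r ∈ Fx S ↔ ∀ s ∈ S, s r = r := Iff.rfl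

/-- `R` is purely transcendental of degree `n` over `F` -/
def Rat (F : Type u) (R : Type v) [Field F] [Field R] [Algebra F R] (n : ℕ) : Prop :=
  Nonempty (R ≃ₐ[F] FractionRing (MvPolynomial (Fin n) F))

/-- the abstract situation -/
structure Datum (F : Type u) (R : Type v) [Field F] [Field R] [Algebra F R] (s : ℕ) where
  /-- first automorphism -/
  σ : R ≃ₐ[F] R
  /-- second automorphism -/
  τ : R ≃ₐ[F] R
  /-- nine elements -/
  u : ZMod 3 → ZMod 3 → R
  /-- three elements -/
  m : ZMod 3 → R
  /-- invariant elements -/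
  w : Fin s → R
  hu : ∏ i, ∏ j, u i j = 1
  σu : ∀ i j, σ (u i j) = u i (j + 1)
  τu : ∀ i j, τ (u i j) = u (i + 1) j
  σm : ∀ j, σ (m j) = m (j + 1)
  τm : ∀ j, τ (m j) = m j
  σw : ∀ k, σ (w k) = w k
  τw : ∀ k, τ (w k) = w k
  gen : adjoin F (Set.range (fun p : ZMod 3 × ZMod 3 => u p.1 p.2) ∪ Set.range m ∪ Set.range w) = ⊤
  trd : ((11 + s : ℕ) : Cardinal) ≤ Algebra.trdeg F R

/-! ## the concrete fields -/

/-- the nine points; the group `H = C₃ × C₃` acts on them by translation -/
abbrev H : Type := ZMod 3 × ZMod 3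

/-- the field of rational functions in the variables `x_i` and `y_ij` -/
abbrev KK (F : Type u) [Field F] : Type u := FractionRing (MvPolynomial (H ⊕ H × H) F)

/-- the variable `x_i` -/
noncomputable def x (F : Type u) [Field F] (i : H) : KK F := algebraMap (MvPolynomial (H ⊕ H × H) F) (KK F) (MvPolynomial.X (Sum.inl i))

/-- the variable `y_ij` -/
noncomputable def y (F : Type u) [Field F] (i j : H) : KK F :=
  algebraMap (MvPolynomial (H ⊕ H × H) F) (KK F) (MvPolynomial.X (Sum.inr (i, j)))

/-- translation of the indices by `g` -/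
def shift (g : H) : H ⊕ H × H ≃ H ⊕ H × H :=
  Equiv.sumCongr (Equiv.addLeft g) (Equiv.prodCongr (Equiv.addLeft g) (Equiv.addLeft g))

/-- `g ∈ H` acts by `x_i ↦ x_{g+i}`, `y_ij ↦ y_{g+i,g+j}` -/
noncomputable def act (F : Type u) [Field F] (g : H) : KK F ≃ₐ[F] KK F :=
  IsFractionRing.fieldEquivOfAlgEquiv F (KK F) (KK F) (MvPolynomial.renameEquiv F (shift g))

/-- the field `F(M)` inside `KK F`: generated by the Laurent monomials `∏ x_i ^ a_i * ∏ y_ij ^ b_ij` with
`∑_j b_ij = ∑_j b_ji` for all `i` -/
noncomputable def FM (F : Type u) [Field F] : IntermediateField F (KK F) :=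
  adjoin F {f | ∃ (a : H → ℤ) (b : H → H → ℤ), (∀ i, ∑ j, b i j = ∑ j, b j i) ∧
    f = (∏ i, x F i ^ a i) * ∏ i, ∏ j, y F i j ^ b i j}

/-- `Z_H(F, 9) = F(M)^H` -/
noncomputable def ZH (F : Type u) [Field F] : IntermediateField F (FM F) where
  carrier := {f | ∀ g, act F g (f : KK F) = f}
  mul_mem' := fun {a b} ha hb g => by rw [MulMemClass.coe_mul, map_mul, ha g, hb g]
  one_mem' := fun g => by simp
  add_mem' := fun {a b} ha hb g => by rw [AddMemClass.coe_add, map_add, ha g, hb g]
  zero_mem' := fun g => by simp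
  algebraMap_mem' := fun r g => by
    have h : ((algebraMap F (FM F) r : FM F) : KK F) = algebraMap F (KK F) r := rfl
    rw [h]; exact (act F g).commutes r
  inv_mem' := fun a ha g => by
    have h : ((a⁻¹ : FM F) : KK F) = (a : KK F)⁻¹ := rfl
    rw [h, map_inv₀, ha g]

lemma act_x (F : Type u) [Field F] (g i : H) : act F g (x F i) = x F (g + i) := by
  simp [act, x, IsFractionRing.fieldEquivOfAlgEquiv_algebraMap, shift]

lemma act_y (F : Type u) [Field F] (g i j : H) : act F g (y F i j) = y F (g + i) (g + j) := by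
  simp [act, y, IsFractionRing.fieldEquivOfAlgEquiv_algebraMap, shift]

end CPZ
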