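import Pool.Agent.CPZ.TR
import Pool.Agent.CPZ.Defs

/-!
# CPZ-TRb: members of an independent family; trdeg of a finite extension

* `trans_adjoin`: a member of an algebraically independent family is transcendental over the field generated by the other ones;
* `trdeg_of_alg`: an algebraic extension has the same transcendence degree;
* `rat_of_gens`: a field generated by as many elements as its transcendence degree is purely transcendental.
-/

namespace CPZ

open IntermediateField

universe u v w

variable {F : Type u} {R : Type v} [Field F] [Field R] [Algebra F R]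

theorem trans_adjoin {ι : Type w} (x : ι → R) (hx : AlgebraicIndependent F x) (i : ι) :
    Transcendental (adjoin F (x '' {i}ᶜ)) (x i) := by
  exact IntermediateField.transcendental_adjoin_iff.2 (hx.transcendental_adjoin (by simp))

theorem notMem_adjoin {ι : Type w} (x : ι → R) (hx : AlgebraicIndependent F x) (i : ι) :
    x i ∉ adjoin F (x '' {i}ᶜ) := by
  intro h
  exact trans_adjoin x hx i (isAlgebraic_algebraMap (⟨x i, h⟩ : adjoin F (x '' {i}ᶜ)))

/-- a finite extension has the same transcendence degree -/
theorem trdeg_of_alg (E : IntermediateField F R) (halg : ∀ r : R, IsAlgebraic E r) :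
    Algebra.trdeg F E = Algebra.trdeg F R := by
  have h1 : Algebra.IsAlgebraic E R := ⟨halg⟩
  have h2 := _root_.trdeg_add_eq F E (A := R)
  rw [_root_.trdeg_eq_zero (R := E) (A := R), add_zero] at h2
  exact h2

theorem rat_of_gens {n : ℕ} (E : IntermediateField F R) (g : Fin n → R) (hE : adjoin F (Set.range g) = E)
    (halg : ∀ r : R, IsAlgebraic E r) (ht : ((n : ℕ) : Cardinal.{v}) ≤ Algebra.trdeg F R) : Rat F E n := by
  subst hE
  have h1 : AlgebraicIndependent F g := ind_of_alg g halg (by rw [Fintype.card_fin]; exact ht)
  exact ⟨h1.aevalEquivField.symm⟩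

end CPZ
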