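import Pool.Agent.CPZ.Desc
import Pool.Agent.CPZ.Lin
import Pool.Agent.CPZ.MobF
import Pool.Agent.CPZ.TRb

/-!
# CPZ-C3G: three generators of the invariants of `F(w_0, w_1, w_2)` under the cyclic permutation (every characteristic)

`G = zpowers τ` (finite by `finite_zpowers`). `t = (w_0 - w_1)/(w_1 - w_2)`, `d = w_1 - w_2` (`≠ 0`). Then
`τ t = -1/(t+1)`, `τ (τ t) = -(t+1)/t`, `τ d = -(t+1) d`, `τ w_1 = w_1 - d`, `t ≠ 0`, `t + 1 ≠ 0` (the `w_i` are distinct).
(1) `K = adjoin F {t}` is stable, `G` acts faithfully on it: `τ t = t` would mean `t² + t + 1 = 0`, i.e.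
`(w_0-w_1)² + (w_0-w_1)(w_1-w_2) + (w_1-w_2)² = 0`, so `w_0` would be algebraic over `F(w_1, w_2)`, against `trans_adjoin`
(if `g ∈ zpowers τ` fixes `K` and `g ≠ 1` then `g = τ` or `g = τ * τ` by `mem_zpowers` and `τ` fixes `K` too).
By `mobius_fix`, `K ⊓ Fx {τ} = adjoin F {f}`, `f = t + τ t + τ (τ t)`.
(2) `W = span_K {1, d, w_1}` is stable; `speiser` gives `W ≤ span_K S`, `S` = invariant elements of `W`; `exists_family` with
`U = span_K {1}`, `z = ![d, w_1]` gives `ω_0, ω_1 ∈ S` with `S ⊆ U + span (ω_0, ω_1)`. So `d, w_1 ∈ K(ω_0, ω_1)`,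
`w_0 = w_1 + t d`, `w_2 = w_1 - d`, i.e. `adjoin F (range w) = adjoin F (K ∪ {ω_0, ω_1})`.
(3) `descent` with `C = {ω_0, ω_1}` (`Fx_zpowers`): the invariants are generated by `K ⊓ Fx {τ} = F(f)` and `ω_0, ω_1`.
Take `g = ![f, ω_0, ω_1]`.
-/

namespace CPZ

open IntermediateField

universe u v

variable {F : Type u} {R : Type v} [Field F] [Field R] [Algebra F R]

private theorem stab (φ : R ≃ₐ[F] R) (S : Set R) (h : ∀ s ∈ S, φ s ∈ adjoin F S) :
    ∀ a ∈ adjoin F S, φ a ∈ adjoin F S := by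
  intro a ha
  have h1 : adjoin F S ≤ (adjoin F S).comap φ.toAlgHom := by
    rw [adjoin_le_iff]
    intro s hs
    exact h s hs
  exact h1 ha

private theorem span_stab (K : IntermediateField F R) (φ : R ≃ₐ[F] R) (hK : ∀ a ∈ K, φ a ∈ K) (S : Set R)
    (h : ∀ s ∈ S, φ s ∈ Submodule.span K S) : ∀ x ∈ Submodule.span K S, φ x ∈ Submodule.span K S := by
  intro x hx
  induction hx using Submodule.span_induction with
  | mem x hx => exact h x hx
  | zero => rw [map_zero]; exact Submodule.zero_mem _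
  | add x y _ _ hx hy => rw [map_add]; exact Submodule.add_mem _ hx hy
  | smul a x _ hx =>
    have h1 : φ (a • x) = (⟨φ a, hK a a.2⟩ : K) • φ x := by
      rw [Algebra.smul_def, Algebra.smul_def, map_mul]
      rfl
    rw [h1]
    exact Submodule.smul_mem _ _ hx

private theorem span_le_field (K L : IntermediateField F R) (hKL : K ≤ L) (S : Set R) (hS : ∀ s ∈ S, s ∈ L) :
    ∀ x ∈ Submodule.span K S, x ∈ L := by
  intro x hx
  induction hx using Submodule.span_induction with
  | mem x hx => exact hS x hx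
  | zero => exact L.zero_mem
  | add x y _ _ hx hy => exact L.add_mem hx hy
  | smul a x _ hx =>
    rw [Algebra.smul_def]
    exact L.mul_mem (hKL a.2) hx

theorem c3_gens (τ : R ≃ₐ[F] R) (h3 : τ * τ * τ = 1) (w : ZMod 3 → R) (hw : ∀ i, τ (w i) = w (i + 1))
    (hi : AlgebraicIndependent F w) :
    ∃ g : Fin 3 → R, adjoin F (Set.range g) = adjoin F (Set.range w) ⊓ Fx {τ} := by
  classical
  have hfin : Finite (Subgroup.zpowers τ) := finite_zpowers τ h3
  have hinj : Function.Injective w := hi.injective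
  have hττ : ∀ x, τ (τ (τ x)) = x := fun x => by
    have h := congrArg (fun φ : R ≃ₐ[F] R => φ x) h3
    simpa using h
  have e0 : τ (w 0) = w 1 := by rw [hw 0]; rfl
  have e1 : τ (w 1) = w 2 := by rw [hw 1]; rfl
  have e2 : τ (w 2) = w 0 := by rw [hw 2]; rfl
  have h01 : w 0 ≠ w 1 := fun h => absurd (hinj h) (by decide)
  have h12 : w 1 ≠ w 2 := fun h => absurd (hinj h) (by decide)
  have h02 : w 0 ≠ w 2 := fun h => absurd (hinj h) (by decide)
  obtain ⟨d, hd⟩ : ∃ d, d = w 1 - w 2 := ⟨_, rfl⟩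
  have hd0 : d ≠ 0 := by rw [hd]; exact sub_ne_zero.2 h12
  obtain ⟨t, ht⟩ : ∃ t, t = (w 0 - w 1) / d := ⟨_, rfl⟩
  have htd : t * d = w 0 - w 1 := by rw [ht]; field_simp
  have ht0 : t ≠ 0 := by rw [ht]; exact div_ne_zero (sub_ne_zero.2 h01) hd0
  have ht1d : (t + 1) * d = w 0 - w 2 := by rw [add_mul, htd, one_mul, hd]; ring
  have ht1 : t + 1 ≠ 0 := by
    intro h
    rw [h, zero_mul] at ht1d
    exact h02 (sub_eq_zero.1 ht1d.symm)
  have hτd : τ d = -((t + 1) * d) := by rw [ht1d, hd, map_sub, e1, e2]; ring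
  have hτt : τ t = -1 / (t + 1) := by
    rw [eq_div_iff ht1]
    have h1 : τ t * τ d = d := by rw [← map_mul, htd, map_sub, e0, e1, hd]
    rw [hτd] at h1
    have h2 : (τ t * (t + 1) + 1) * d = 0 := by linear_combination -h1
    rcases mul_eq_zero.1 h2 with h | h
    · linear_combination h
    · exact absurd h hd0
  have hn : τ t ≠ t := by
    intro h
    rw [h, eq_div_iff ht1] at hτt
    have h1 : (w 0 - w 1) ^ 2 + (w 0 - w 1) * (w 1 - w 2) + (w 1 - w 2) ^ 2 = 0 := by
      rw [← htd, ← hd]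
      linear_combination d ^ 2 * hτt
    have h2 : MvPolynomial.aeval w (((MvPolynomial.X 0 - MvPolynomial.X 1) ^ 2 +
        (MvPolynomial.X 0 - MvPolynomial.X 1) * (MvPolynomial.X 1 - MvPolynomial.X 2) +
        (MvPolynomial.X 1 - MvPolynomial.X 2) ^ 2 : MvPolynomial (ZMod 3) F)) = 0 := by
      simpa using h1
    have h3 := hi.eq_zero_of_aeval_eq_zero _ h2
    have h4 := congrArg (MvPolynomial.eval (fun i : ZMod 3 => if i = 0 then (1 : F) else 0)) h3
    have h10 : (1 : ZMod 3) ≠ 0 := by decide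
    have h20 : (2 : ZMod 3) ≠ 0 := by decide
    simp [h10, h20] at h4
  set K : IntermediateField F R := adjoin F {t} with hKdef
  have htK : t ∈ K := mem_adjoin_simple_self F t
  have ht1K : t + 1 ∈ K := K.add_mem htK K.one_mem
  have hτtK : τ t ∈ K := by
    rw [hτt]
    exact K.div_mem (K.neg_mem K.one_mem) ht1K
  have hKτ : ∀ a ∈ K, τ a ∈ K := stab τ {t} (by rintro s rfl; exact hτtK)
  have hK : ∀ g ∈ Subgroup.zpowers τ, ∀ a ∈ K, g a ∈ K := by
    intro g hg a ha
    rcases mem_zpowers τ h3 g hg with rfl | rfl | rfl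
    · exact ha
    · exact hKτ a ha
    · exact hKτ _ (hKτ a ha)
  have hf : ∀ g ∈ Subgroup.zpowers τ, (∀ a ∈ K, g a = a) → g = 1 := by
    intro g hg ha
    rcases mem_zpowers τ h3 g hg with rfl | rfl | rfl
    · rfl
    · exact absurd (ha t htK) hn
    · have h1 : τ (τ t) = t := ha t htK
      have h2 : τ t = t := by
        have h4 := hττ t
        rw [h1] at h4
        exact h4
      exact absurd h2 hn
  have hfix := mobius_fix τ t ht0 ht1 hτt hn
  rw [← hKdef] at hfix
  set f := t + τ t + τ (τ t) with hfdef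
  obtain ⟨W, hWdef⟩ : ∃ W : Submodule K R, W = Submodule.span K {1, d, w 1} := ⟨_, rfl⟩
  have h1W : (1 : R) ∈ W := by rw [hWdef]; exact Submodule.subset_span (by simp)
  have hdW : d ∈ W := by rw [hWdef]; exact Submodule.subset_span (by simp)
  have hw1W : w 1 ∈ W := by rw [hWdef]; exact Submodule.subset_span (by simp)
  have hWτ : ∀ x ∈ W, τ x ∈ W := by
    rw [hWdef]
    apply span_stab K τ hKτ
    rw [← hWdef]
    intro s hs
    rcases hs with hs | hs | hs
    · rw [hs, map_one]; exact h1W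
    · rw [hs, hτd]
      have h5 : ((⟨t + 1, ht1K⟩ : K) • d : R) = (t + 1) * d := rfl
      rw [← h5]
      exact W.neg_mem (W.smul_mem _ hdW)
    · have h5 : w 2 = w 1 - d := by rw [hd]; ring
      rw [hs, e1, h5]
      exact W.sub_mem hw1W hdW
  have hW : ∀ g ∈ Subgroup.zpowers τ, ∀ x ∈ W, g x ∈ W := by
    intro g hg x hx
    rcases mem_zpowers τ h3 g hg with rfl | rfl | rfl
    · exact hx
    · exact hWτ x hx
    · exact hWτ _ (hWτ x hx)
  have hsp := speiser (Subgroup.zpowers τ) K hK hf W hW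
  obtain ⟨ω, hωS, hω⟩ := exists_family (Submodule.span K {(1 : R)})
    {w | w ∈ W ∧ ∀ g ∈ Subgroup.zpowers τ, g w = w}
    ⟨W.zero_mem, fun g _ => map_zero g⟩ (n := 2) ![d, w 1] (by
      rintro v ⟨hv, -⟩
      have h6 : W ≤ Submodule.span K {(1 : R)} ⊔ Submodule.span K (Set.range ![d, w 1]) := by
        rw [hWdef, Submodule.span_le]
        rintro s (rfl | rfl | rfl)
        · exact Submodule.mem_sup_left (Submodule.mem_span_singleton_self _)
        · exact Submodule.mem_sup_right (Submodule.subset_span ⟨0, rfl⟩)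
        · exact Submodule.mem_sup_right (Submodule.subset_span ⟨1, rfl⟩)
      exact h6 hv)
  -- the two fields agree
  obtain ⟨C, hC⟩ : ∃ C : Set R, C = Set.range ω := ⟨_, rfl⟩
  have hKC : K ≤ adjoin F ((K : Set R) ∪ C) := fun x hx => subset_adjoin F _ (Or.inl hx)
  have hWL : ∀ x ∈ W, x ∈ adjoin F ((K : Set R) ∪ C) := by
    intro x hx
    have h7 := hsp hx
    have h8 : Submodule.span K {w | w ∈ W ∧ ∀ g ∈ Subgroup.zpowers τ, g w = w} ≤
        Submodule.span K {(1 : R)} ⊔ Submodule.span K (Set.range ω) := by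
      rw [Submodule.span_le]
      exact fun v hv => hω v hv
    have h9 := h8 h7
    rw [← Submodule.span_union] at h9
    refine span_le_field K _ hKC _ ?_ x h9
    rintro s (rfl | hs)
    · exact one_mem _
    · exact subset_adjoin F _ (Or.inr (by rw [hC]; exact hs))
  have hrw : adjoin F (Set.range w) = adjoin F ((K : Set R) ∪ C) := by
    apply le_antisymm
    · rw [adjoin_le_iff]
      have h1 := hWL _ hw1W
      have h2 := hWL _ hdW
      have h4 : t ∈ adjoin F ((K : Set R) ∪ C) := hKC htK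
      rintro x ⟨i, rfl⟩
      have hi3 : i = 0 ∨ i = 1 ∨ i = 2 := by
        revert i; decide
      rcases hi3 with rfl | rfl | rfl
      · have h5 : w 0 = w 1 + t * d := by rw [htd]; ring
        rw [h5]
        exact add_mem h1 (mul_mem h4 h2)
      · exact h1
      · have h5 : w 2 = w 1 - d := by rw [hd]; ring
        rw [h5]
        exact sub_mem h1 h2
    · rw [adjoin_le_iff]
      have hwm : ∀ i, w i ∈ adjoin F (Set.range w) := fun i => subset_adjoin F _ ⟨i, rfl⟩
      have hdm : d ∈ adjoin F (Set.range w) := by rw [hd]; exact sub_mem (hwm 1) (hwm 2)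
      have htm : t ∈ adjoin F (Set.range w) := by rw [ht]; exact div_mem (sub_mem (hwm 0) (hwm 1)) hdm
      have hKm : K ≤ adjoin F (Set.range w) := by
        rw [hKdef, adjoin_le_iff]
        rintro s rfl
        exact htm
      rintro x (hx | hx)
      · exact hKm hx
      · rw [hC] at hx
        obtain ⟨i, rfl⟩ := hx
        have h5 := (hωS i).1
        rw [hWdef] at h5
        refine span_le_field K _ hKm _ ?_ _ h5
        rintro s (rfl | rfl | rfl)
        · exact one_mem _
        · exact hdm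
        · exact hwm 1
  have hCi : ∀ g ∈ Subgroup.zpowers τ, ∀ c ∈ C, g c = c := by
    intro g hg c hc
    rw [hC] at hc
    obtain ⟨i, rfl⟩ := hc
    exact (hωS i).2 g hg
  have hdes := descent (Subgroup.zpowers τ) K hK hf C hCi
  rw [Fx_zpowers, hfix, ← hrw] at hdes
  refine ⟨![f, ω 0, ω 1], ?_⟩
  rw [hdes]
  apply le_antisymm
  · rw [adjoin_le_iff]
    rintro x ⟨i, rfl⟩
    fin_cases i
    · exact subset_adjoin F _ (Or.inl (mem_adjoin_simple_self F f))
    · exact subset_adjoin F _ (Or.inr (by rw [hC]; exact ⟨0, rfl⟩))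
    · exact subset_adjoin F _ (Or.inr (by rw [hC]; exact ⟨1, rfl⟩))
  · rw [adjoin_le_iff]
    rintro x (hx | hx)
    · have h5 : adjoin F {f} ≤ adjoin F (Set.range ![f, ω 0, ω 1]) := by
        rw [adjoin_le_iff]
        rintro s rfl
        exact subset_adjoin F _ ⟨0, rfl⟩
      exact h5 hx
    · rw [hC] at hx
      obtain ⟨i, rfl⟩ := hx
      fin_cases i
      · exact subset_adjoin F _ ⟨1, rfl⟩
      · exact subset_adjoin F _ ⟨2, rfl⟩

end CPZ
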