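import Pool.Agent.CPZ.Defs

/-!
# CPZ-Dv: Laurent monomials in the `y_ij` and their divergence

`HasDiv f δ`: `f` is the Laurent monomial `∏ y_ij ^ b_ij` with `∑_j b_ij - ∑_j b_ji = δ_i`; closed under products and
inverses. A monomial of divergence `0` lies in `FM F`, and `FM F` is stable under the action.
-/

namespace CPZ

open IntermediateField

universe u

variable (F : Type u) [Field F]

/-- a Laurent monomial in the `y_ij` with divergence `δ` -/
def HasDiv (f : KK F) (δ : H → ℤ) : Prop :=
  ∃ b : H → H → ℤ, f = ∏ i, ∏ j, y F i j ^ b i j ∧ ∀ i, ∑ j, b i j - ∑ j, b j i = δ i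

theorem x_ne (i : H) : x F i ≠ 0 := by
  intro h
  unfold x at h
  rw [IsFractionRing.to_map_eq_zero_iff] at h
  exact MvPolynomial.X_ne_zero _ h

theorem y_ne (i j : H) : y F i j ≠ 0 := by
  intro h
  unfold y at h
  rw [IsFractionRing.to_map_eq_zero_iff] at h
  exact MvPolynomial.X_ne_zero _ h

theorem div_one : HasDiv F 1 0 := by
  refine ⟨fun _ _ => 0, ?_, fun i => ?_⟩
  · simp
  · simp

theorem div_mul {f g : KK F} {δ ε : H → ℤ} (hf : HasDiv F f δ) (hg : HasDiv F g ε) : HasDiv F (f * g) (δ + ε) := by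
  obtain ⟨b, hb, hb'⟩ := hf
  obtain ⟨c, hc, hc'⟩ := hg
  refine ⟨fun i j => b i j + c i j, ?_, fun i => ?_⟩
  · rw [hb, hc, ← Finset.prod_mul_distrib]
    apply Finset.prod_congr rfl
    intro i _
    rw [← Finset.prod_mul_distrib]
    apply Finset.prod_congr rfl
    intro j _
    rw [zpow_add₀ (y_ne F i j)]
  · rw [Pi.add_apply, ← hb' i, ← hc' i, Finset.sum_add_distrib, Finset.sum_add_distrib]
    ring

theorem div_inv {f : KK F} {δ : H → ℤ} (hf : HasDiv F f δ) : HasDiv F f⁻¹ (-δ) := by
  obtain ⟨b, hb, hb'⟩ := hf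
  refine ⟨fun i j => - b i j, ?_, fun i => ?_⟩
  · rw [hb, ← Finset.prod_inv_distrib]
    apply Finset.prod_congr rfl
    intro i _
    rw [← Finset.prod_inv_distrib]
    apply Finset.prod_congr rfl
    intro j _
    rw [zpow_neg]
  · rw [Pi.neg_apply, ← hb' i, Finset.sum_neg_distrib, Finset.sum_neg_distrib]
    ring

theorem div_div {f g : KK F} {δ ε : H → ℤ} (hf : HasDiv F f δ) (hg : HasDiv F g ε) : HasDiv F (f / g) (δ - ε) := by
  rw [div_eq_mul_inv, sub_eq_add_neg]
  exact div_mul F hf (div_inv F hg)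

theorem div_y (i j : H) : HasDiv F (y F i j) (Pi.single i 1 - Pi.single j 1) := by
  refine ⟨fun a c => if a = i then (if c = j then 1 else 0) else 0, ?_, fun a => ?_⟩
  · rw [Finset.prod_eq_single_of_mem i (Finset.mem_univ i), Finset.prod_eq_single_of_mem j (Finset.mem_univ j)]
    · simp
    · intro c _ hc
      simp [hc]
    · intro a _ ha
      apply Finset.prod_eq_one
      intro c _
      simp [ha]
  · rw [Pi.sub_apply, Pi.single_apply, Pi.single_apply]
    congr 1
    · by_cases ha : a = i
      · simp [ha]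
      · simp [ha]
    · simp

theorem div_mem {f : KK F} (hf : HasDiv F f 0) : f ∈ FM F := by
  obtain ⟨b, hb, hb'⟩ := hf
  apply subset_adjoin
  refine ⟨fun _ => 0, b, fun i => ?_, ?_⟩
  · have := hb' i
    rw [Pi.zero_apply] at this
    linarith
  · rw [hb]
    simp

theorem x_mem (i : H) : x F i ∈ FM F := by
  apply subset_adjoin
  refine ⟨Pi.single i 1, fun _ _ => 0, fun _ => rfl, ?_⟩
  rw [Finset.prod_eq_single_of_mem i (Finset.mem_univ i)]
  · simp
  · intro j _ hj
    rw [Pi.single_eq_of_ne hj, zpow_zero]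

private theorem act_alg (g : H) (p : MvPolynomial (H ⊕ H × H) F) :
    act F g (algebraMap (MvPolynomial (H ⊕ H × H) F) (KK F) p) =
      algebraMap (MvPolynomial (H ⊕ H × H) F) (KK F) (MvPolynomial.rename (shift g) p) := by
  unfold act
  rw [IsFractionRing.fieldEquivOfAlgEquiv_algebraMap]
  rfl

private theorem shift_add (g h : H) : (shift (g + h) : H ⊕ H × H → H ⊕ H × H) = shift g ∘ shift h := by
  funext z
  rcases z with i | ⟨i, j⟩
  · simp [shift, add_assoc]
  · simp [shift, add_assoc]

theorem act_add (g h : H) : act F (g + h) = act F g * act F h := by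
  apply AlgEquiv.ext
  intro z
  obtain ⟨p, q, _, rfl⟩ := IsFractionRing.div_surjective (A := MvPolynomial (H ⊕ H × H) F) z
  rw [AlgEquiv.mul_apply, map_div₀, map_div₀, map_div₀, act_alg, act_alg, act_alg, act_alg, act_alg,
    act_alg, shift_add, MvPolynomial.rename_rename, MvPolynomial.rename_rename]

theorem act_symm (g : H) : (act F g).symm = act F (-g) := by
  have h0 : act F 0 = 1 := by
    have h := act_add F 0 0
    rw [add_zero] at h
    exact (mul_eq_left.1 h.symm)
  have h1 : act F g * act F (-g) = 1 := by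
    rw [← act_add, add_neg_cancel, h0]
  have h2 : act F (-g) = (act F g)⁻¹ := (inv_eq_of_mul_eq_one_right h1).symm
  rw [h2]
  rfl

theorem FM_stable (g : H) (f : KK F) (hf : f ∈ FM F) : act F g f ∈ FM F := by
  have h1 : FM F ≤ (FM F).comap (act F g : KK F →ₐ[F] KK F) := by
    unfold FM
    rw [adjoin_le_iff]
    rintro _ ⟨a, b, hab, rfl⟩
    show act F g _ ∈ adjoin F _
    apply subset_adjoin
    refine ⟨fun i => a (-g + i), fun i j => b (-g + i) (-g + j), fun i => ?_, ?_⟩
    · have h2 := hab (-g + i)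
      have h3 : ∑ j, b (-g + i) (-g + j) = ∑ j, b (-g + i) j :=
        Fintype.sum_equiv (Equiv.addLeft (-g)) _ _ (fun j => rfl)
      have h4 : ∑ j, b (-g + j) (-g + i) = ∑ j, b j (-g + i) :=
        Fintype.sum_equiv (Equiv.addLeft (-g)) _ _ (fun j => rfl)
      rw [h3, h4, h2]
    · rw [map_mul, map_prod, map_prod]
      congr 1
      · apply Fintype.prod_equiv (Equiv.addLeft g)
        intro i
        rw [map_zpow₀, act_x, Equiv.coe_addLeft]
        beta_reduce
        rw [neg_add_cancel_left]
      · apply Fintype.prod_equiv (Equiv.addLeft g)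
        intro i
        rw [map_prod]
        apply Fintype.prod_equiv (Equiv.addLeft g)
        intro j
        rw [map_zpow₀, act_y, Equiv.coe_addLeft]
        beta_reduce
        rw [neg_add_cancel_left, neg_add_cancel_left]
  exact h1 hf

end CPZ
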