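import Pool.Agent.CPZ.CDefs
import Pool.Agent.CPZ.Dv

/-!
# CPZ-CAct: the action on the explicit elements

`act_ya, act_yc` from `act_y` and `add_assoc`; `uK, pathK, wK` from these (`map_mul`, `map_div₀`, `map_prod`; `g + (h + z) = (g + h) + z`).
`prod_uK`: the product over all `h` of `uK h` is `∏ ya · ∏ yc / (∏ yc · ∏ ya) = 1` (reindex `h ↦ h + sg`, `h ↦ h + tg`: `Equiv.prod_comp (Equiv.addRight _)`;
`y_ne`). `act_bK`: for `g = (i, j)`: `act g bK = ∏_k ya (i, k)` (the shift by `j` permutes the three factors), and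
`ya (i+1, 0) ya (i+1, 1) ya (i+1, 2) = ya (i,0) ya (i,1) ya (i,2) / (uK (i,0) uK (i,1) uK (i,2))`, so the quotient by `bK` lies in `adjoin F (range uK)`;
`act_gK` is symmetric (`yc (0, j+1) yc (1, j+1) yc (2, j+1) = yc (0,j) yc (1,j) yc (2,j) * uK (0,j) uK (1,j) uK (2,j)`).
-/

namespace CPZ

open IntermediateField

universe u

variable (F : Type u) [Field F]

theorem act_ya (g h : H) : act F g (ya F h) = ya F (g + h) := by
  unfold ya
  rw [act_y, add_assoc]

theorem act_yc (g h : H) : act F g (yc F h) = yc F (g + h) := by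
  unfold yc
  rw [act_y, add_assoc]

theorem act_uK (g h : H) : act F g (uK F h) = uK F (g + h) := by
  unfold uK
  rw [map_div₀, map_mul, map_mul, act_ya, act_yc, act_yc, act_ya, ← add_assoc, ← add_assoc]

private theorem act_pathK (g h : H) (p q : ℕ) : act F g (pathK F h p q) = pathK F (g + h) p q := by
  unfold pathK
  rw [map_mul, map_prod, map_prod]
  congr 1
  · apply Finset.prod_congr rfl
    intro k _
    rw [act_yc, ← add_assoc]
  · apply Finset.prod_congr rfl
    intro k _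
    rw [act_ya, ← add_assoc]

theorem act_wK (g : H) (t : Fin 7) (h : H) : act F g (wK F t h) = wK F t (g + h) := by
  unfold wK
  rw [map_div₀, act_y, act_pathK, ← add_assoc]

private theorem ya_ne (h : H) : ya F h ≠ 0 := y_ne F _ _

private theorem yc_ne (h : H) : yc F h ≠ 0 := y_ne F _ _

theorem prod_uK : ∏ h, uK F h = 1 := by
  unfold uK
  rw [Finset.prod_div_distrib, Finset.prod_mul_distrib, Finset.prod_mul_distrib]
  have h1 : ∏ h, yc F (h + sg) = ∏ h, yc F h := Equiv.prod_comp (Equiv.addRight sg) (yc F)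
  have h2 : ∏ h, ya F (h + tg) = ∏ h, ya F h := Equiv.prod_comp (Equiv.addRight tg) (ya F)
  rw [h1, h2, mul_comm (∏ h, yc F h)]
  apply div_self
  exact mul_ne_zero (Finset.prod_ne_zero_iff.2 fun h _ => ya_ne F h)
    (Finset.prod_ne_zero_iff.2 fun h _ => yc_ne F h)

private theorem three (i : ZMod 3) : i = 0 ∨ i = 1 ∨ i = 2 := by
  revert i
  decide

private theorem row (i j : ZMod 3) : act F (i, j) (bK F) = ya F (i, 0) * ya F (i, 1) * ya F (i, 2) := by
  unfold bK
  rw [map_mul, map_mul, act_ya, act_ya, act_ya]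
  simp only [Prod.mk_add_mk, add_zero]
  rcases three j with rfl | rfl | rfl
  · simp only [zero_add]
  · rw [show (1 : ZMod 3) + 1 = 2 by decide, show (1 : ZMod 3) + 2 = 0 by decide]
    ring
  · rw [show (2 : ZMod 3) + 1 = 0 by decide, show (2 : ZMod 3) + 2 = 1 by decide]
    ring

private theorem col (i j : ZMod 3) : act F (i, j) (gK F) = yc F (0, j) * yc F (1, j) * yc F (2, j) := by
  unfold gK
  rw [map_mul, map_mul, act_yc, act_yc, act_yc]
  simp only [Prod.mk_add_mk, add_zero]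
  rcases three i with rfl | rfl | rfl
  · simp only [zero_add]
  · rw [show (1 : ZMod 3) + 1 = 2 by decide, show (1 : ZMod 3) + 2 = 0 by decide]
    ring
  · rw [show (2 : ZMod 3) + 1 = 0 by decide, show (2 : ZMod 3) + 2 = 1 by decide]
    ring

private theorem u_mem (h : H) : uK F h ∈ adjoin F (Set.range (uK F)) :=
  subset_adjoin F _ ⟨h, rfl⟩

private theorem u3 (a b c : H) : uK F a * uK F b * uK F c ∈ adjoin F (Set.range (uK F)) :=
  mul_mem (mul_mem (u_mem F a) (u_mem F b)) (u_mem F c)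

private theorem stepB (i : ZMod 3) :
    ya F (i + 1, 0) * ya F (i + 1, 1) * ya F (i + 1, 2) =
      (uK F (i, 0) * uK F (i, 1) * uK F (i, 2))⁻¹ * (ya F (i, 0) * ya F (i, 1) * ya F (i, 2)) := by
  have e : ∀ k : ZMod 3, uK F (i, k) = ya F (i, k) * yc F (i, k + 1) / (yc F (i, k) * ya F (i + 1, k)) := by
    intro k
    unfold uK sg tg
    simp only [Prod.mk_add_mk, add_zero]
  rw [e, e, e, show (0 : ZMod 3) + 1 = 1 by decide, show (1 : ZMod 3) + 1 = 2 by decide,
    show (2 : ZMod 3) + 1 = 0 by decide]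
  have a0 := ya_ne F (i, 0)
  have a1 := ya_ne F (i, 1)
  have a2 := ya_ne F (i, 2)
  have b0 := ya_ne F (i + 1, 0)
  have b1 := ya_ne F (i + 1, 1)
  have b2 := ya_ne F (i + 1, 2)
  have c0 := yc_ne F (i, 0)
  have c1 := yc_ne F (i, 1)
  have c2 := yc_ne F (i, 2)
  field_simp

private theorem stepG (j : ZMod 3) :
    yc F (0, j + 1) * yc F (1, j + 1) * yc F (2, j + 1) =
      (uK F (0, j) * uK F (1, j) * uK F (2, j)) * (yc F (0, j) * yc F (1, j) * yc F (2, j)) := by
  have e : ∀ k : ZMod 3, uK F (k, j) = ya F (k, j) * yc F (k, j + 1) / (yc F (k, j) * ya F (k + 1, j)) := by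
    intro k
    unfold uK sg tg
    simp only [Prod.mk_add_mk, add_zero]
  rw [e, e, e, show (0 : ZMod 3) + 1 = 1 by decide, show (1 : ZMod 3) + 1 = 2 by decide,
    show (2 : ZMod 3) + 1 = 0 by decide]
  have a0 := ya_ne F (0, j)
  have a1 := ya_ne F (1, j)
  have a2 := ya_ne F (2, j)
  have c0 := yc_ne F (0, j)
  have c1 := yc_ne F (1, j)
  have c2 := yc_ne F (2, j)
  field_simp

theorem act_bK (g : H) : ∃ c ∈ adjoin F (Set.range (uK F)), act F g (bK F) = c * bK F := by
  obtain ⟨i, j⟩ := g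
  rw [row]
  have e1 := stepB F 0
  have e2 := stepB F 1
  rw [show (0 : ZMod 3) + 1 = 1 by decide] at e1
  rw [show (1 : ZMod 3) + 1 = 2 by decide] at e2
  rcases three i with rfl | rfl | rfl
  · exact ⟨1, one_mem _, by rw [one_mul]; rfl⟩
  · exact ⟨_, inv_mem (u3 F _ _ _), e1⟩
  · refine ⟨_, mul_mem (inv_mem (u3 F (1, 0) (1, 1) (1, 2))) (inv_mem (u3 F (0, 0) (0, 1) (0, 2))), ?_⟩
    rw [e2, e1, ← mul_assoc]
    rfl

theorem act_gK (g : H) : ∃ c ∈ adjoin F (Set.range (uK F)), act F g (gK F) = c * gK F := by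
  obtain ⟨i, j⟩ := g
  rw [col]
  have e1 := stepG F 0
  have e2 := stepG F 1
  rw [show (0 : ZMod 3) + 1 = 1 by decide] at e1
  rw [show (1 : ZMod 3) + 1 = 2 by decide] at e2
  rcases three j with rfl | rfl | rfl
  · exact ⟨1, one_mem _, by rw [one_mul]; rfl⟩
  · exact ⟨_, u3 F _ _ _, e1⟩
  · refine ⟨_, mul_mem (u3 F (0, 1) (1, 1) (2, 1)) (u3 F (0, 0) (1, 0) (2, 0)), ?_⟩
    rw [e2, e1, ← mul_assoc]
    rfl

end CPZ
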