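import Pool.Agent.CPZ.Defs

/-!
# CPZ-CDefs: the explicit elements of `KK F` (no proofs)

`ya h = y_{h, h + sg}`, `yc h = y_{h, h + tg}`; `uK h` = commutator square; `bK, gK` = loops in the two directions; `wK t h` = another edge divided by the
standard path with the same end points.
-/

namespace CPZ

open IntermediateField

universe u

/-- first generator of `H` -/
def sg : H := (0, 1)

/-- second generator of `H` -/
def tg : H := (1, 0)

variable (F : Type u) [Field F]

/-- edge in direction `sg` -/
noncomputable def ya (h : H) : KK F := y F h (h + sg)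

/-- edge in direction `tg` -/
noncomputable def yc (h : H) : KK F := y F h (h + tg)

/-- commutator square -/
noncomputable def uK (h : H) : KK F := ya F h * yc F (h + sg) / (yc F h * ya F (h + tg))

/-- loop in direction `sg` -/
noncomputable def bK : KK F := ya F (0, 0) * ya F (0, 1) * ya F (0, 2)

/-- loop in direction `tg` -/
noncomputable def gK : KK F := yc F (0, 0) * yc F (1, 0) * yc F (2, 0)

/-- the path from `h` to `h + (p, q)`: first `p` steps `tg`, then `q` steps `sg` -/
noncomputable def pathK (h : H) (p q : ℕ) : KK F :=
  (∏ k ∈ Finset.range p, yc F (h + ((k : ZMod 3), 0))) * ∏ k ∈ Finset.range q, ya F (h + ((p : ZMod 3), (k : ZMod 3)))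

/-- the seven displacements other than `sg, tg`, as pairs of natural numbers -/
def dv : Fin 7 → ℕ × ℕ := ![(0, 0), (0, 2), (1, 1), (1, 2), (2, 0), (2, 1), (2, 2)]

/-- the displacement as an element of `H` -/
def dH (t : Fin 7) : H := (((dv t).1 : ZMod 3), ((dv t).2 : ZMod 3))

/-- the other edges, normalized -/
noncomputable def wK (t : Fin 7) (h : H) : KK F := y F h (h + dH t) / pathK F h (dv t).1 (dv t).2

/-- the set of all these elements together with the `x`'s -/
def genK : Set (KK F) :=
  Set.range (uK F) ∪ Set.range (x F) ∪ Set.range (fun p : Fin 7 × H => wK F p.1 p.2) ∪ {bK F, gK F}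

end CPZ
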