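import Pool.Agent.CPZ.CDefs
import Pool.Agent.CPZ.Dv

/-!
# CPZ-CMem: the explicit elements lie in `FM F`

Compute the divergence with `div_mul`, `div_div`, `div_y` and use `div_mem`: `uK h`: `(δ_h - δ_{h+sg}) + (δ_{h+sg} - δ_{h+sg+tg}) - (δ_h - δ_{h+tg}) - (δ_{h+tg} - δ_{h+tg+sg}) = 0`.
`path_div`: the path has divergence `δ_h - δ_{h+(p,q)}` (two inductions, on `p` with `q = 0` and then on `q`; `Finset.prod_range_succ`).
-/

namespace CPZ

open IntermediateField

universe u

variable (F : Type u) [Field F]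

private theorem hasDiv_congr {f : KK F} {δ ε : H → ℤ} (hf : HasDiv F f δ) (h : δ = ε) :
    HasDiv F f ε := h ▸ hf

private theorem c_div (h : H) (p : ℕ) :
    HasDiv F (∏ k ∈ Finset.range p, yc F (h + ((k : ZMod 3), 0)))
      (Pi.single h 1 - Pi.single (h + ((p : ZMod 3), 0)) 1) := by
  induction p with
  | zero =>
    rw [Finset.prod_range_zero]
    refine hasDiv_congr F (div_one F) ?_
    have h0 : h + (((0 : ℕ) : ZMod 3), (0 : ZMod 3)) = h := by
      rw [Nat.cast_zero]
      exact add_zero h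
    rw [h0, sub_self]
  | succ p ih =>
    rw [Finset.prod_range_succ]
    refine hasDiv_congr F (div_mul F ih (div_y F _ _)) ?_
    have h1 : h + ((p : ZMod 3), (0 : ZMod 3)) + tg = h + (((p + 1 : ℕ) : ZMod 3), (0 : ZMod 3)) := by
      unfold tg
      rw [add_assoc]
      congr 1
      simp
    rw [h1]
    abel

private theorem a_div (h : H) (p q : ℕ) :
    HasDiv F (∏ k ∈ Finset.range q, ya F (h + ((p : ZMod 3), (k : ZMod 3))))
      (Pi.single (h + ((p : ZMod 3), 0)) 1 - Pi.single (h + ((p : ZMod 3), (q : ZMod 3))) 1) := by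
  induction q with
  | zero =>
    rw [Finset.prod_range_zero]
    refine hasDiv_congr F (div_one F) ?_
    rw [Nat.cast_zero, sub_self]
  | succ q ih =>
    rw [Finset.prod_range_succ]
    refine hasDiv_congr F (div_mul F ih (div_y F _ _)) ?_
    have h1 : h + ((p : ZMod 3), (q : ZMod 3)) + sg = h + ((p : ZMod 3), ((q + 1 : ℕ) : ZMod 3)) := by
      unfold sg
      rw [add_assoc]
      congr 1
      simp
    rw [h1]
    abel

theorem path_div (h : H) (p q : ℕ) :
    HasDiv F (pathK F h p q) (Pi.single h 1 - Pi.single (h + ((p : ZMod 3), (q : ZMod 3))) 1) := by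
  unfold pathK
  refine hasDiv_congr F (div_mul F (c_div F h p) (a_div F h p q)) ?_
  abel

theorem uK_mem (h : H) : uK F h ∈ FM F := by
  refine div_mem F (hasDiv_congr F (div_div F (div_mul F (div_y F h (h + sg))
    (div_y F (h + sg) (h + sg + tg))) (div_mul F (div_y F h (h + tg))
    (div_y F (h + tg) (h + tg + sg)))) ?_)
  rw [add_right_comm h sg tg]
  abel

theorem bK_mem : bK F ∈ FM F := by
  refine div_mem F (hasDiv_congr F (div_mul F (div_mul F (div_y F (0, 0) ((0, 0) + sg))
    (div_y F (0, 1) ((0, 1) + sg))) (div_y F (0, 2) ((0, 2) + sg))) ?_)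
  have h1 : ((0, 0) : H) + sg = (0, 1) := by decide
  have h2 : ((0, 1) : H) + sg = (0, 2) := by decide
  have h3 : ((0, 2) : H) + sg = (0, 0) := by decide
  rw [h1, h2, h3]
  abel

theorem gK_mem : gK F ∈ FM F := by
  refine div_mem F (hasDiv_congr F (div_mul F (div_mul F (div_y F (0, 0) ((0, 0) + tg))
    (div_y F (1, 0) ((1, 0) + tg))) (div_y F (2, 0) ((2, 0) + tg))) ?_)
  have h1 : ((0, 0) : H) + tg = (1, 0) := by decide
  have h2 : ((1, 0) : H) + tg = (2, 0) := by decide
  have h3 : ((2, 0) : H) + tg = (0, 0) := by decide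
  rw [h1, h2, h3]
  abel

theorem wK_mem (t : Fin 7) (h : H) : wK F t h ∈ FM F := by
  refine div_mem F (hasDiv_congr F (div_div F (div_y F h (h + dH t))
    (path_div F h (dv t).1 (dv t).2)) ?_)
  have h1 : ((((dv t).1 : ℕ) : ZMod 3), (((dv t).2 : ℕ) : ZMod 3)) = dH t := rfl
  rw [h1, sub_self]

end CPZ
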