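import Pool.Agent.CPZ.Defs

/-!
# CPZ-FxL: fixed fields of sets of automorphisms

Needs only Mathlib and `Defs`.
* `Fx_closure`: an element fixed by all `s ∈ S` is fixed by the subgroup generated by `S` (`Subgroup.closure_induction`).
* `finite_Fx`, `finrank_Fx` (Artin): a finite group `G` of automorphisms of `R` acts faithfully on `R`
  (`AlgEquiv` application action, restricted to the subgroup); use `FixedPoints.finrank_eq_card` for the action of `G` on
  `R` and identify `FixedPoints.subfield G R` with `Fx G` (same carrier), e.g. with a linear equivalence of `R` over the two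
  fields or `LinearEquiv.finrank_eq`/`Algebra` transport along the ring isomorphism of the two (equal) subfields;
  `IntermediateField.fixedField`, `IntermediateField.finrank_fixedField_eq_card`-like lemmas may also help.
* `res`: restriction of an automorphism to a stable subfield.
-/

namespace CPZ

open IntermediateField

universe u v

variable {F : Type u} {R : Type v} [Field F] [Field R] [Algebra F R]

theorem Fx_closure (S : Set (R ≃ₐ[F] R)) :
    Fx ((Subgroup.closure S : Subgroup (R ≃ₐ[F] R)) : Set (R ≃ₐ[F] R)) = Fx S := by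
  ext r
  rw [mem_Fx, mem_Fx]
  constructor
  · intro h s hs
    exact h s (Subgroup.subset_closure hs)
  · intro h s hs
    have hs' : s ∈ Subgroup.closure S := hs
    induction hs' using Subgroup.closure_induction with
    | mem x hx => exact h x hx
    | one => rfl
    | mul x y _ _ hx hy =>
      rw [AlgEquiv.mul_apply, hy (by assumption), hx (by assumption)]
    | inv x _ hx =>
      have h1 := hx (by assumption)
      have h2 : x⁻¹ (x r) = r := by
        rw [← AlgEquiv.mul_apply, inv_mul_cancel]; rfl
      rw [h1] at h2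
      exact h2

theorem Fx_zpowers (τ : R ≃ₐ[F] R) :
    Fx ((Subgroup.zpowers τ : Subgroup (R ≃ₐ[F] R)) : Set (R ≃ₐ[F] R)) = Fx {τ} := by
  rw [Subgroup.zpowers_eq_closure, Fx_closure]

private theorem Fx_eq_fixedField (G : Subgroup (R ≃ₐ[F] R)) :
    Fx (G : Set (R ≃ₐ[F] R)) = IntermediateField.fixedField G := by
  ext r
  rw [mem_Fx]
  constructor
  · intro h g
    exact h g.1 g.2
  · intro h s hs
    exact h ⟨s, hs⟩

private theorem finite_fixedField (G : Subgroup (R ≃ₐ[F] R)) [Finite G] :
    Module.Finite (IntermediateField.fixedField G) R := by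
  have := Fintype.ofFinite G
  exact (inferInstance : FiniteDimensional (FixedPoints.subfield G R) R)

private theorem finrank_fixedField (G : Subgroup (R ≃ₐ[F] R)) [Finite G] :
    Module.finrank (IntermediateField.fixedField G) R = Nat.card G := by
  have := Fintype.ofFinite G
  rw [Nat.card_eq_fintype_card]
  exact FixedPoints.finrank_eq_card G R

theorem finite_Fx (G : Subgroup (R ≃ₐ[F] R)) [Finite G] :
    Module.Finite (Fx (G : Set (R ≃ₐ[F] R))) R := by
  rw [Fx_eq_fixedField]
  exact finite_fixedField G

theorem finrank_Fx (G : Subgroup (R ≃ₐ[F] R)) [Finite G] :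
    Module.finrank (Fx (G : Set (R ≃ₐ[F] R))) R = Nat.card G := by
  rw [Fx_eq_fixedField]
  exact finrank_fixedField G

/-- an element of order three generates a finite group -/
theorem finite_zpowers (τ : R ≃ₐ[F] R) (h3 : τ * τ * τ = 1) : Finite (Subgroup.zpowers τ) := by
  have h : IsOfFinOrder τ :=
    isOfFinOrder_iff_pow_eq_one.2 ⟨3, by norm_num, by rw [pow_succ, pow_two]; exact h3⟩
  exact (_root_.finite_zpowers.2 h).to_subtype

theorem card_zpowers (τ : R ≃ₐ[F] R) (h3 : τ * τ * τ = 1) (h1 : τ ≠ 1) : Nat.card (Subgroup.zpowers τ) = 3 := by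
  rw [Nat.card_zpowers]
  exact orderOf_eq_prime (by rw [pow_succ, pow_two]; exact h3) h1

/-- every element of the cyclic group of order 3 is `1`, `τ` or `τ * τ` -/
theorem mem_zpowers (τ : R ≃ₐ[F] R) (h3 : τ * τ * τ = 1) (g : R ≃ₐ[F] R) (hg : g ∈ Subgroup.zpowers τ) :
    g = 1 ∨ g = τ ∨ g = τ * τ := by
  obtain ⟨k, rfl⟩ := Subgroup.mem_zpowers_iff.1 hg
  have hp : τ ^ (3 : ℤ) = 1 := by
    rw [show (3 : ℤ) = ((3 : ℕ) : ℤ) from rfl, zpow_natCast, pow_succ, pow_two]; exact h3
  have hk : τ ^ k = τ ^ (k % 3) := by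
    conv_lhs => rw [← Int.emod_add_mul_ediv k 3, zpow_add, zpow_mul, hp, one_zpow, mul_one]
  rw [hk]
  have h0 : 0 ≤ k % 3 := Int.emod_nonneg k (by norm_num)
  have h2 : k % 3 < 3 := Int.emod_lt_of_pos k (by norm_num)
  generalize k % 3 = m at h0 h2
  interval_cases m
  · left; simp
  · right; left; simp
  · right; right
    rw [show (2 : ℤ) = ((2 : ℕ) : ℤ) from rfl, zpow_natCast, pow_two]

/-- automorphisms which agree on generators are equal -/
theorem aut_ext (S : Set R) (hS : adjoin F S = ⊤) (φ ψ : R ≃ₐ[F] R) (h : ∀ r ∈ S, φ r = ψ r) : φ = ψ := by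
  ext r
  have hr : r ∈ adjoin F S := by rw [hS]; exact IntermediateField.mem_top
  induction hr using IntermediateField.adjoin_induction with
  | mem x hx => exact h x hx
  | algebraMap x => rw [φ.commutes, ψ.commutes]
  | add x y _ _ hx hy => rw [map_add, map_add, hx, hy]
  | inv x _ hx => rw [map_inv₀, map_inv₀, hx]
  | mul x y _ _ hx hy => rw [map_mul, map_mul, hx, hy]

/-- restriction of an automorphism to a stable subfield -/
noncomputable def res (K : IntermediateField F R) (φ : R ≃ₐ[F] R) (h1 : ∀ a ∈ K, φ a ∈ K)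
    (h2 : ∀ a ∈ K, φ.symm a ∈ K) : K ≃ₐ[F] K :=
  AlgEquiv.ofAlgHom
    { toFun := fun a => ⟨φ a, h1 a a.2⟩
      map_one' := Subtype.ext (map_one φ)
      map_mul' := fun a b => Subtype.ext (map_mul φ _ _)
      map_zero' := Subtype.ext (map_zero φ)
      map_add' := fun a b => Subtype.ext (map_add φ _ _)
      commutes' := fun r => Subtype.ext (φ.commutes r) }
    { toFun := fun a => ⟨φ.symm a, h2 a a.2⟩
      map_one' := Subtype.ext (map_one φ.symm)
      map_mul' := fun a b => Subtype.ext (map_mul φ.symm _ _)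
      map_zero' := Subtype.ext (map_zero φ.symm)
      map_add' := fun a b => Subtype.ext (map_add φ.symm _ _)
      commutes' := fun r => Subtype.ext (φ.symm.commutes r) }
    (by ext a; simp) (by ext a; simp)

@[simp] theorem coe_res (K : IntermediateField F R) (φ : R ≃ₐ[F] R) (h1 : ∀ a ∈ K, φ a ∈ K)
    (h2 : ∀ a ∈ K, φ.symm a ∈ K) (a : K) : ((res K φ h1 h2 a : K) : R) = φ a := rfl

end CPZ
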