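import Pool.Agent.CPZ.TRb
import Pool.Agent.CPZ.FxL

/-!
# CPZ-DatL: first properties of a datum

* relations `σ³ = τ³ = 1`, `στ = τσ`: `aut_ext` with the generators (`D.gen`).
* `fam D p0`: the `u`'s except `u_{p0}`, the `m`'s and the `w`'s: `11 + s` elements which generate `R` (`u_{p0}` is the inverse of the
  product of the other ones by `D.hu`), so they are algebraically independent by `ind_of_gens` and `D.trd`
  (`Fintype.card (Idx s p0) = 11 + s`).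
* consequences: all nine `u i j` are pairwise distinct (leave out a third one), non-zero, the `m j` are distinct,
  `m j` is not in the field generated by the `u`'s and the other `m`'s (`notMem_adjoin`).
-/

namespace CPZ

open IntermediateField

universe u v

variable {F : Type u} {R : Type v} [Field F] [Field R] [Algebra F R] {s : ℕ}

private theorem add3 (j : ZMod 3) : j + 1 + 1 + 1 = j := by
  revert j; decide

theorem dat_σ3 (D : Datum F R s) : D.σ * D.σ * D.σ = 1 := by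
  refine aut_ext _ D.gen _ _ ?_
  rintro r ((⟨⟨i, j⟩, rfl⟩ | ⟨j, rfl⟩) | ⟨k, rfl⟩)
  · change D.σ (D.σ (D.σ (D.u i j))) = D.u i j
    rw [D.σu, D.σu, D.σu, add3]
  · change D.σ (D.σ (D.σ (D.m j))) = D.m j
    rw [D.σm, D.σm, D.σm, add3]
  · change D.σ (D.σ (D.σ (D.w k))) = D.w k
    rw [D.σw, D.σw, D.σw]

theorem dat_τ3 (D : Datum F R s) : D.τ * D.τ * D.τ = 1 := by
  refine aut_ext _ D.gen _ _ ?_
  rintro r ((⟨⟨i, j⟩, rfl⟩ | ⟨j, rfl⟩) | ⟨k, rfl⟩)
  · change D.τ (D.τ (D.τ (D.u i j))) = D.u i j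
    rw [D.τu, D.τu, D.τu, add3]
  · change D.τ (D.τ (D.τ (D.m j))) = D.m j
    rw [D.τm, D.τm, D.τm]
  · change D.τ (D.τ (D.τ (D.w k))) = D.w k
    rw [D.τw, D.τw, D.τw]

theorem dat_comm (D : Datum F R s) : D.σ * D.τ = D.τ * D.σ := by
  refine aut_ext _ D.gen _ _ ?_
  rintro r ((⟨⟨i, j⟩, rfl⟩ | ⟨j, rfl⟩) | ⟨k, rfl⟩)
  · change D.σ (D.τ (D.u i j)) = D.τ (D.σ (D.u i j))
    rw [D.σu, D.τu, D.τu, D.σu]
  · change D.σ (D.τ (D.m j)) = D.τ (D.σ (D.m j))
    rw [D.σm, D.τm, D.τm, D.σm]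
  · change D.σ (D.τ (D.w k)) = D.τ (D.σ (D.w k))
    rw [D.σw, D.τw, D.σw]

/-- the indices of the independent family obtained by leaving out `u_{p0}` -/
abbrev Idx (s : ℕ) (p0 : ZMod 3 × ZMod 3) : Type := {p : ZMod 3 × ZMod 3 // p ≠ p0} ⊕ ZMod 3 ⊕ Fin s

/-- the independent family obtained by leaving out `u_{p0}` -/
def fam (D : Datum F R s) (p0 : ZMod 3 × ZMod 3) : Idx s p0 → R :=
  Sum.elim (fun p => D.u p.1.1 p.1.2) (Sum.elim D.m D.w)

theorem card_Idx (s : ℕ) (p0 : ZMod 3 × ZMod 3) : Fintype.card (Idx s p0) = 11 + s := by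
  have h1 : Fintype.card {p : ZMod 3 × ZMod 3 // p ≠ p0} = 8 := by
    revert p0; decide
  rw [Fintype.card_sum, Fintype.card_sum, h1, ZMod.card, Fintype.card_fin]
  ring

private theorem u_mem (D : Datum F R s) (p0 : ZMod 3 × ZMod 3) (K : IntermediateField F R)
    (h : ∀ p : ZMod 3 × ZMod 3, p ≠ p0 → D.u p.1 p.2 ∈ K) (p : ZMod 3 × ZMod 3) :
    D.u p.1 p.2 ∈ K := by
  by_cases hp : p = p0
  · subst hp
    have h1 : ∏ p : ZMod 3 × ZMod 3, D.u p.1 p.2 = 1 := by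
      rw [Fintype.prod_prod_type]
      exact D.hu
    rw [← Finset.mul_prod_erase Finset.univ _ (Finset.mem_univ p)] at h1
    rw [eq_inv_of_mul_eq_one_left h1]
    exact K.inv_mem (prod_mem fun q hq => h q (Finset.ne_of_mem_erase hq))
  · exact h p hp

theorem fam_gen (D : Datum F R s) (p0 : ZMod 3 × ZMod 3) : adjoin F (Set.range (fam D p0)) = ⊤ := by
  rw [eq_top_iff, ← D.gen, adjoin_le_iff]
  rintro r ((⟨q, rfl⟩ | ⟨j, rfl⟩) | ⟨k, rfl⟩)
  · exact u_mem D p0 (adjoin F (Set.range (fam D p0)))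
      (fun p hp => subset_adjoin F _ ⟨Sum.inl ⟨p, hp⟩, rfl⟩) q
  · exact subset_adjoin F _ ⟨Sum.inr (Sum.inl j), rfl⟩
  · exact subset_adjoin F _ ⟨Sum.inr (Sum.inr k), rfl⟩

theorem fam_ind (D : Datum F R s) (p0 : ZMod 3 × ZMod 3) : AlgebraicIndependent F (fam D p0) := by
  refine ind_of_gens _ (fam_gen D p0) ?_
  rw [card_Idx]
  exact D.trd

theorem u_inj (D : Datum F R s) : Function.Injective (fun p : ZMod 3 × ZMod 3 => D.u p.1 p.2) := by
  intro p q h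
  obtain ⟨p0, h1, h2⟩ : ∃ p0 : ZMod 3 × ZMod 3, p ≠ p0 ∧ q ≠ p0 := by
    clear h
    revert p q
    decide
  have h3 := (fam_ind D p0).injective (a₁ := Sum.inl ⟨p, h1⟩) (a₂ := Sum.inl ⟨q, h2⟩) h
  exact congrArg Subtype.val (Sum.inl.inj h3)

theorem u_ne_zero (D : Datum F R s) (i j : ZMod 3) : D.u i j ≠ 0 := by
  have h1 : ∏ i, ∏ j, D.u i j ≠ 0 := by
    rw [D.hu]
    exact one_ne_zero
  exact Finset.prod_ne_zero_iff.1 (Finset.prod_ne_zero_iff.1 h1 i (Finset.mem_univ i)) j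
    (Finset.mem_univ j)

theorem m_inj (D : Datum F R s) : Function.Injective D.m := by
  intro i j h
  have h3 := (fam_ind D (0, 0)).injective (a₁ := Sum.inr (Sum.inl i)) (a₂ := Sum.inr (Sum.inl j)) h
  exact Sum.inl.inj (Sum.inr.inj h3)

theorem m_notMem (D : Datum F R s) (j : ZMod 3) :
    D.m j ∉ adjoin F (Set.range (fun p : ZMod 3 × ZMod 3 => D.u p.1 p.2) ∪ D.m '' {j}ᶜ) := by
  intro h
  refine notMem_adjoin (fam D (0, 0)) (fam_ind D (0, 0)) (Sum.inr (Sum.inl j)) ?_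
  change D.m j ∈ _
  revert h
  apply SetLike.le_def.1
  rw [adjoin_le_iff]
  rintro r (⟨q, rfl⟩ | ⟨i, hi, rfl⟩)
  · refine u_mem D (0, 0) (adjoin F (fam D (0, 0) '' {Sum.inr (Sum.inl j)}ᶜ))
      (fun p hp => subset_adjoin F _ ⟨Sum.inl ⟨p, hp⟩, ?_, rfl⟩) q
    intro h
    cases h
  · refine subset_adjoin F _ ⟨Sum.inr (Sum.inl i), ?_, rfl⟩
    intro h
    exact hi (Sum.inl.inj (Sum.inr.inj h))

end CPZ
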