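import Pool.Agent.CPZ.Spe
import Pool.Agent.CPZ.FxL

/-!
# CPZ-Desc: invariants of `K(C)` when `C` consists of invariants

`G` a finite group of automorphisms of `R`, `K` a `G`-stable subfield on which `G` is faithful, `C` a set of `G`-invariant
elements. Then `K(C)^G = K^G(C)`.

Proof. `≥` is clear. Put `A = K^G(C)` (right hand side), `A ≤ Fx G`. Choose `a_k, c_k ∈ K` as in `exists_sep`.
(1) For `x ∈ K`: `x = ∑_k c_k * t_k` with `t_k = ∑_{g ∈ G} g (a_k x) ∈ K ⊓ Fx G`. Hence the `A`-span `V` of the finite set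
`{c_k} ∪ {1}`... (or simply the `A`-span `V` of `K`) is a finite-dimensional `A`-vector space containing `A` and `K` and closed under
multiplication; so it is a ring, a domain finite over the field `A`, hence a field, and contains `adjoin F (K ∪ C)`.
(2) Let `f ∈ adjoin F (K ∪ C)` be invariant: `f = ∑_l α_l x_l` with `α_l ∈ A`, `x_l ∈ K`. Then, with the elements `a_k, c_k`,
`∑_k c_k ∑_g g (a_k f) = f`, and `∑_g g (a_k f) = f * ∑_g g a_k` as `f` is invariant; also
`∑_g g (a_k f) = ∑_l α_l ∑_g g (a_k x_l) ∈ A` as `α_l` is invariant. If for some `k` the trace `T = ∑_g g a_k ∈ K ⊓ Fx G` is not `0`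
we get `f = (∑_l α_l ∑_g g (a_k x_l)) / T ∈ A`. Some trace is not `0`, because `1 = ∑_k c_k a_k = ∑_k c_k ∑_g g (a_k)`
(by `exists_sep` the terms with `g ≠ 1` vanish).
-/

namespace CPZ

open IntermediateField

universe u v

variable {F : Type u} {R : Type v} [Field F] [Field R] [Algebra F R]

theorem descent (G : Subgroup (R ≃ₐ[F] R)) [Finite G] (K : IntermediateField F R)
    (hK : ∀ g ∈ G, ∀ a ∈ K, g a ∈ K) (hf : ∀ g ∈ G, (∀ a ∈ K, g a = a) → g = 1)
    (C : Set R) (hC : ∀ g ∈ G, ∀ c ∈ C, g c = c) :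
    adjoin F ((K : Set R) ∪ C) ⊓ Fx (G : Set (R ≃ₐ[F] R)) =
      adjoin F (((K ⊓ Fx (G : Set (R ≃ₐ[F] R)) : IntermediateField F R) : Set R) ∪ C) := by
  classical
  have : Fintype G := Fintype.ofFinite G
  obtain ⟨r, a, c, ha, hc, hone, hzero⟩ := exists_sep G K hK hf
  obtain ⟨K0, hK0⟩ : ∃ K0 : IntermediateField F R, K0 = K ⊓ Fx (G : Set (R ≃ₐ[F] R)) := ⟨_, rfl⟩
  rw [← hK0]
  obtain ⟨A, hA⟩ : ∃ A : IntermediateField F R, A = adjoin F ((K0 : Set R) ∪ C) := ⟨_, rfl⟩
  rw [← hA]
  have hK0m : ∀ x, x ∈ K0 ↔ x ∈ K ∧ x ∈ Fx (G : Set (R ≃ₐ[F] R)) := by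
    intro x
    rw [hK0]
    exact IntermediateField.mem_inf
  have hAle : A ≤ Fx (G : Set (R ≃ₐ[F] R)) := by
    rw [hA, adjoin_le_iff]
    rintro x (hx | hx)
    · exact ((hK0m x).1 hx).2
    · exact fun g hg => hC g hg x hx
  have hK0A : ∀ x ∈ K0, x ∈ A := fun x hx => by
    rw [hA]
    exact subset_adjoin F _ (Or.inl hx)
  have hCA : ∀ x ∈ C, x ∈ A := fun x hx => by
    rw [hA]
    exact subset_adjoin F _ (Or.inr hx)
  apply le_antisymm
  swap
  · rw [hA]
    refine le_inf ?_ (hA ▸ hAle)
    rw [adjoin_le_iff]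
    rintro x (hx | hx)
    · exact subset_adjoin F _ (Or.inl ((hK0m x).1 hx).1)
    · exact subset_adjoin F _ (Or.inr hx)
  -- traces
  obtain ⟨tr, htr⟩ : ∃ tr : R → R, ∀ y, tr y = ∑ g : G, (g : R ≃ₐ[F] R) y := ⟨_, fun _ => rfl⟩
  have trK : ∀ y ∈ K, tr y ∈ K := fun y hy => by
    rw [htr]
    exact sum_mem fun g _ => hK g g.2 y hy
  have trI : ∀ y, tr y ∈ Fx (G : Set (R ≃ₐ[F] R)) := by
    intro y h hh
    rw [htr, map_sum]
    exact Fintype.sum_equiv (Equiv.mulLeft (⟨h, hh⟩ : G)) _ _ (fun g => rfl)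
  have trA : ∀ y ∈ K, tr y ∈ A := fun y hy => hK0A _ ((hK0m _).2 ⟨trK y hy, trI y⟩)
  have tradd : ∀ y z, tr (y + z) = tr y + tr z := fun y z => by
    simp only [htr, map_add, Finset.sum_add_distrib]
  have trmul : ∀ y z, y ∈ Fx (G : Set (R ≃ₐ[F] R)) → tr (z * y) = tr z * y := fun y z hy => by
    simp only [htr, map_mul, Finset.sum_mul]
    exact Finset.sum_congr rfl fun g _ => by rw [hy g g.2]
  -- key identity
  have key : ∀ x : R, ∑ k, c k * tr (a k * x) = x := by
    intro x
    have h1 : ∀ k, c k * tr (a k * x) =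
        ∑ g : G, c k * ((g : R ≃ₐ[F] R) (a k) * (g : R ≃ₐ[F] R) x) := fun k => by
      rw [htr, Finset.mul_sum]
      exact Finset.sum_congr rfl fun g _ => by rw [map_mul]
    rw [Finset.sum_congr rfl fun k _ => h1 k, Finset.sum_comm]
    have h2 : ∀ g : G, ∑ k, c k * ((g : R ≃ₐ[F] R) (a k) * (g : R ≃ₐ[F] R) x) =
        if g = 1 then x else 0 := by
      intro g
      have h3 : ∑ k, c k * ((g : R ≃ₐ[F] R) (a k) * (g : R ≃ₐ[F] R) x) =
          (∑ k, c k * (g : R ≃ₐ[F] R) (a k)) * (g : R ≃ₐ[F] R) x := by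
        rw [Finset.sum_mul]
        exact Finset.sum_congr rfl fun k _ => by ring
      rw [h3]
      split_ifs with hg
      · subst hg
        have h4 : ∀ y : R, ((1 : G) : R ≃ₐ[F] R) y = y := fun y => rfl
        simp only [h4]
        rw [hone, one_mul]
      · rw [hzero g g.2 (fun h => hg (Subtype.ext h)), zero_mul]
    rw [Finset.sum_congr rfl fun g _ => h2 g, Finset.sum_ite_eq' Finset.univ (1 : G) fun _ => x,
      if_pos (Finset.mem_univ _)]
  -- the ring generated by `K` over `A`
  obtain ⟨S, hS⟩ : ∃ S : Subalgebra A R, S = Algebra.adjoin A (K : Set R) := ⟨_, rfl⟩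
  have hclos : ((Submonoid.closure (K : Set R) : Submonoid R) : Set R) = K := by
    apply Set.Subset.antisymm
    · intro x hx
      refine Submonoid.closure_induction (motive := fun x _ => x ∈ (K : Set R)) ?_ ?_ ?_ hx
      · exact fun x hx => hx
      · exact one_mem K
      · exact fun x y _ _ hx hy => mul_mem (S := IntermediateField F R) hx hy
    · exact Submonoid.subset_closure
  have hspan : Subalgebra.toSubmodule S = Submodule.span A (K : Set R) := by
    rw [hS, Algebra.adjoin_eq_span, hclos]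
  have hspan2 : Submodule.span A (K : Set R) = Submodule.span A (Set.range c) := by
    apply le_antisymm
    · rw [Submodule.span_le]
      intro x hx
      have h1 := key x
      rw [← h1]
      refine sum_mem fun k _ => ?_
      have h2 : c k * tr (a k * x) = (⟨tr (a k * x), trA _ (mul_mem (ha k) hx)⟩ : A) • c k := by
        rw [mul_comm]
        rfl
      rw [h2]
      exact Submodule.smul_mem _ _ (Submodule.subset_span ⟨k, rfl⟩)
    · rw [Submodule.span_le]
      rintro _ ⟨k, rfl⟩
      exact Submodule.subset_span (hc k)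
  have hfg : (Subalgebra.toSubmodule S).FG := by
    rw [hspan, hspan2]
    exact Submodule.fg_span (Set.finite_range c)
  have hinv : ∀ x ∈ S, x⁻¹ ∈ S := fun x hx =>
    Subalgebra.inv_mem_of_algebraic S (x := ⟨x, hx⟩) (IsIntegral.of_mem_of_fg S hfg x hx).isAlgebraic
  let S' : IntermediateField F R :=
    { carrier := S
      mul_mem' := fun ha hb => mul_mem ha hb
      one_mem' := one_mem S
      add_mem' := fun ha hb => add_mem ha hb
      zero_mem' := zero_mem S
      algebraMap_mem' := fun x => by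
        have h1 : algebraMap F R x = algebraMap A R (algebraMap F A x) := rfl
        change algebraMap F R x ∈ S
        rw [h1]
        exact S.algebraMap_mem _
      inv_mem' := hinv }
  have hS' : adjoin F ((K : Set R) ∪ C) ≤ S' := by
    rw [adjoin_le_iff]
    rintro x (hx | hx)
    · change x ∈ S
      rw [hS]
      exact Algebra.subset_adjoin hx
    · change x ∈ S
      have h1 : x = algebraMap A R ⟨x, hCA x hx⟩ := rfl
      rw [h1]
      exact S.algebraMap_mem _
  rintro f ⟨hf1, hf2⟩
  have hfS : f ∈ Submodule.span A (K : Set R) := by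
    rw [← hspan]
    exact hS' hf1
  have hmem : ∀ k, tr (a k * f) ∈ A := by
    intro k
    refine Submodule.span_induction (p := fun f _ => tr (a k * f) ∈ A) ?_ ?_ ?_ ?_ hfS
    · exact fun x hx => trA _ (mul_mem (ha k) hx)
    · rw [mul_zero, htr]
      simp only [map_zero, Finset.sum_const_zero]
      exact zero_mem A
    · intro x y _ _ hx hy
      rw [mul_add, tradd]
      exact add_mem hx hy
    · intro α x _ hx
      have h1 : a k * (α • x) = a k * x * (α : R) := by
        rw [show α • x = (α : R) * x from rfl]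
        ring
      rw [h1, trmul _ _ (hAle α.2)]
      exact mul_mem hx α.2
  -- some trace is not zero
  have hex : ∃ k, tr (a k) ≠ 0 := by
    by_contra hcon
    push Not at hcon
    have h1 := key 1
    simp only [mul_one, hcon, mul_zero, Finset.sum_const_zero] at h1
    exact zero_ne_one h1
  obtain ⟨k, hk⟩ := hex
  have h1 := hmem k
  rw [trmul f (a k) hf2] at h1
  have h2 : f = (tr (a k) * f) / tr (a k) := by
    field_simp
  rw [h2]
  exact div_mem h1 (trA _ (ha k))

end CPZ
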