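import Pool.Agent.CPZ.TRb

/-!
# CPZ-Det: the determinant of the linear system for the coefficients of `M` is not zero

`M(X) = (X + m_0)(X + m_1)(X + m_2)`; row `i` is `M(k_i) (l_i², l_i, 1) - M(l_i) (k_i², k_i, 1)`.  `D3` is linear in each
row.  If it vanishes then, as `k_i` is transcendental over the field generated by the other variables, the
coefficient of `k_i³` vanishes (`step`), three times; there remains a Vandermonde determinant.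
-/

namespace CPZ

open IntermediateField

universe u v

/-- the determinant of the 3×3 matrix with rows `a, b, c` -/
def D3 {R : Type v} [Field R] (a1 a2 a3 b1 b2 b3 c1 c2 c3 : R) : R :=
  a1 * (b2 * c3 - b3 * c2) - a2 * (b1 * c3 - b3 * c1) + a3 * (b1 * c2 - b2 * c1)

/-- `M(X)` -/
def Mm {R : Type v} [Field R] (m : ZMod 3 → R) (X : R) : R := (X + m 0) * (X + m 1) * (X + m 2)

variable {F : Type u} {R : Type v} [Field F] [Field R] [Algebra F R]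

theorem lead_zero (L : IntermediateField F R) (x a b c d : R) (hx : Transcendental L x) (ha : a ∈ L) (hb : b ∈ L)
    (hc : c ∈ L) (hd : d ∈ L) (h : a * x ^ 3 + b * x ^ 2 + c * x + d = 0) : a = 0 := by
  rw [transcendental_iff] at hx
  have h1 := hx (Polynomial.C ⟨a, ha⟩ * Polynomial.X ^ 3 + Polynomial.C ⟨b, hb⟩ * Polynomial.X ^ 2 +
    Polynomial.C ⟨c, hc⟩ * Polynomial.X + Polynomial.C ⟨d, hd⟩) (by
      simp only [map_add, map_mul, map_pow, Polynomial.aeval_C, Polynomial.aeval_X]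
      exact h)
  have h2 := congrArg (fun p => Polynomial.coeff p 3) h1
  simp only [Polynomial.coeff_add, Polynomial.coeff_C_mul, Polynomial.coeff_X_pow,
    Polynomial.coeff_X, Polynomial.coeff_C, Polynomial.coeff_zero] at h2
  norm_num at h2
  exact congrArg Subtype.val h2

private theorem Mm_mem {L : IntermediateField F R} {m : ZMod 3 → R} {X : R} (hm : ∀ i, m i ∈ L)
    (hX : X ∈ L) : Mm m X ∈ L :=
  mul_mem (mul_mem (add_mem hX (hm 0)) (add_mem hX (hm 1))) (add_mem hX (hm 2))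

private theorem step (L : IntermediateField F R) (m : ZMod 3 → R) (x l b1 b2 b3 c1 c2 c3 : R)
    (hx : Transcendental L x) (hm : ∀ i, m i ∈ L) (hl : l ∈ L) (hb1 : b1 ∈ L) (hb2 : b2 ∈ L)
    (hb3 : b3 ∈ L) (hc1 : c1 ∈ L) (hc2 : c2 ∈ L) (hc3 : c3 ∈ L)
    (h : D3 (l ^ 2 * Mm m x - x ^ 2 * Mm m l) (l * Mm m x - x * Mm m l) (Mm m x - Mm m l)
      b1 b2 b3 c1 c2 c3 = 0) : D3 (l ^ 2) l 1 b1 b2 b3 c1 c2 c3 = 0 := by
  have hM := Mm_mem hm hl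
  have hD : D3 (l ^ 2) l 1 b1 b2 b3 c1 c2 c3 ∈ L := by
    unfold D3
    exact add_mem (sub_mem (mul_mem (pow_mem hl 2) (sub_mem (mul_mem hb2 hc3) (mul_mem hb3 hc2)))
      (mul_mem hl (sub_mem (mul_mem hb1 hc3) (mul_mem hb3 hc1))))
      (mul_mem (one_mem L) (sub_mem (mul_mem hb1 hc2) (mul_mem hb2 hc1)))
  refine lead_zero L x _ ((m 0 + m 1 + m 2) * D3 (l ^ 2) l 1 b1 b2 b3 c1 c2 c3 -
      Mm m l * (b2 * c3 - b3 * c2))
    ((m 0 * m 1 + m 0 * m 2 + m 1 * m 2) * D3 (l ^ 2) l 1 b1 b2 b3 c1 c2 c3 +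
      Mm m l * (b1 * c3 - b3 * c1))
    (m 0 * m 1 * m 2 * D3 (l ^ 2) l 1 b1 b2 b3 c1 c2 c3 - Mm m l * (b1 * c2 - b2 * c1)) hx hD ?_ ?_ ?_ ?_
  · exact sub_mem (mul_mem (add_mem (add_mem (hm 0) (hm 1)) (hm 2)) hD)
      (mul_mem hM (sub_mem (mul_mem hb2 hc3) (mul_mem hb3 hc2)))
  · exact add_mem (mul_mem (add_mem (add_mem (mul_mem (hm 0) (hm 1)) (mul_mem (hm 0) (hm 2)))
      (mul_mem (hm 1) (hm 2))) hD) (mul_mem hM (sub_mem (mul_mem hb1 hc3) (mul_mem hb3 hc1)))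
  · exact sub_mem (mul_mem (mul_mem (mul_mem (hm 0) (hm 1)) (hm 2)) hD)
      (mul_mem hM (sub_mem (mul_mem hb1 hc2) (mul_mem hb2 hc1)))
  · rw [← h]
    unfold D3 Mm
    ring

private theorem rot (a1 a2 a3 b1 b2 b3 c1 c2 c3 : R) :
    D3 b1 b2 b3 c1 c2 c3 a1 a2 a3 = D3 a1 a2 a3 b1 b2 b3 c1 c2 c3 := by
  unfold D3
  ring

theorem det_ne (l k m : ZMod 3 → R) (h : AlgebraicIndependent F (Sum.elim (Sum.elim l k) m)) :
    D3 (l 0 ^ 2 * Mm m (k 0) - k 0 ^ 2 * Mm m (l 0)) (l 0 * Mm m (k 0) - k 0 * Mm m (l 0)) (Mm m (k 0) - Mm m (l 0))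
      (l 1 ^ 2 * Mm m (k 1) - k 1 ^ 2 * Mm m (l 1)) (l 1 * Mm m (k 1) - k 1 * Mm m (l 1)) (Mm m (k 1) - Mm m (l 1))
      (l 2 ^ 2 * Mm m (k 2) - k 2 ^ 2 * Mm m (l 2)) (l 2 * Mm m (k 2) - k 2 * Mm m (l 2)) (Mm m (k 2) - Mm m (l 2)) ≠ 0 := by
  intro hD
  obtain ⟨L, hL⟩ : ∃ L : ZMod 3 → IntermediateField F R, L = fun j =>
      adjoin F ((Sum.elim (Sum.elim l k) m) '' {Sum.inl (Sum.inr j)}ᶜ) := ⟨_, rfl⟩
  have hk : ∀ j, Transcendental (L j) (k j) := by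
    intro j
    rw [hL]
    exact trans_adjoin _ h (Sum.inl (Sum.inr j))
  have hlm : ∀ j i, l i ∈ L j := by
    intro j i
    rw [hL]
    refine subset_adjoin F _ ⟨Sum.inl (Sum.inl i), ?_, rfl⟩
    intro h1
    have h2 : (Sum.inl (Sum.inl i) : (ZMod 3 ⊕ ZMod 3) ⊕ ZMod 3) = Sum.inl (Sum.inr j) := h1
    exact absurd (Sum.inl.inj h2) (by simp)
  have hmm : ∀ j i, m i ∈ L j := by
    intro j i
    rw [hL]
    refine subset_adjoin F _ ⟨Sum.inr i, ?_, rfl⟩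
    intro h1
    have h2 : (Sum.inr i : (ZMod 3 ⊕ ZMod 3) ⊕ ZMod 3) = Sum.inl (Sum.inr j) := h1
    exact absurd h2 (by simp)
  have hkm : ∀ j i, i ≠ j → k i ∈ L j := by
    intro j i hij
    rw [hL]
    refine subset_adjoin F _ ⟨Sum.inl (Sum.inr i), ?_, rfl⟩
    intro h1
    have h2 : (Sum.inl (Sum.inr i) : (ZMod 3 ⊕ ZMod 3) ⊕ ZMod 3) = Sum.inl (Sum.inr j) := h1
    exact hij (Sum.inr.inj (Sum.inl.inj h2))
  -- the entries of the rows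
  have hr1 : ∀ j i, i ≠ j → l i ^ 2 * Mm m (k i) - k i ^ 2 * Mm m (l i) ∈ L j := fun j i hij =>
    sub_mem (mul_mem (pow_mem (hlm j i) 2) (Mm_mem (hmm j) (hkm j i hij)))
      (mul_mem (pow_mem (hkm j i hij) 2) (Mm_mem (hmm j) (hlm j i)))
  have hr2 : ∀ j i, i ≠ j → l i * Mm m (k i) - k i * Mm m (l i) ∈ L j := fun j i hij =>
    sub_mem (mul_mem (hlm j i) (Mm_mem (hmm j) (hkm j i hij)))
      (mul_mem (hkm j i hij) (Mm_mem (hmm j) (hlm j i)))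
  have hr3 : ∀ j i, i ≠ j → Mm m (k i) - Mm m (l i) ∈ L j := fun j i hij =>
    sub_mem (Mm_mem (hmm j) (hkm j i hij)) (Mm_mem (hmm j) (hlm j i))
  have n10 : (1 : ZMod 3) ≠ 0 := by decide
  have n20 : (2 : ZMod 3) ≠ 0 := by decide
  have n21 : (2 : ZMod 3) ≠ 1 := by decide
  have h0 := step (L 0) m _ _ _ _ _ _ _ _ (hk 0) (hmm 0) (hlm 0 0) (hr1 0 1 n10) (hr2 0 1 n10)
    (hr3 0 1 n10) (hr1 0 2 n20) (hr2 0 2 n20) (hr3 0 2 n20) hD
  rw [← rot] at h0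
  have h1 := step (L 1) m _ _ _ _ _ _ _ _ (hk 1) (hmm 1) (hlm 1 1) (hr1 1 2 n21) (hr2 1 2 n21)
    (hr3 1 2 n21) (pow_mem (hlm 1 0) 2) (hlm 1 0) (one_mem _) h0
  rw [← rot] at h1
  have h2 := step (L 2) m _ _ _ _ _ _ _ _ (hk 2) (hmm 2) (hlm 2 2) (pow_mem (hlm 2 0) 2) (hlm 2 0)
    (one_mem _) (pow_mem (hlm 2 1) 2) (hlm 2 1) (one_mem _) h1
  have hinj : Function.Injective l := by
    intro i j hij
    have h3 : (Sum.inl (Sum.inl i) : (ZMod 3 ⊕ ZMod 3) ⊕ ZMod 3) = Sum.inl (Sum.inl j) :=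
      h.injective hij
    exact Sum.inl.inj (Sum.inl.inj h3)
  have h3 : (l 0 - l 1) * (l 0 - l 2) * (l 1 - l 2) = 0 := by
    rw [← h2]
    unfold D3
    ring
  have d1 : l 0 - l 1 ≠ 0 := sub_ne_zero.2 fun h4 => n10 (hinj h4).symm
  have d2 : l 0 - l 2 ≠ 0 := sub_ne_zero.2 fun h4 => n20 (hinj h4).symm
  have d3 : l 1 - l 2 ≠ 0 := sub_ne_zero.2 fun h4 => n21 (hinj h4).symm
  exact mul_ne_zero (mul_ne_zero d1 d2) d3 h3

end CPZ
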