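import Pool.Agent.CPZ.Pot
import Pool.Agent.CPZ.CMem

/-!
# CPZ-Gen: `FM F` is generated by the explicit elements

`≥`: `CMem`, `x_mem`. `≤` (`adjoin_le_iff`): for a balanced exponent matrix `b`,
`∏ y_ij ^ b_ij = ∏ (y_ij pot_i / pot_j) ^ b_ij * ∏_i pot_i ^ (∑_j b_ji - ∑_j b_ij)` and the last product is `1`; the first one lies in `adjoin F (genK F)` by
`pot_y` (`prod_mem`, `zpow_mem`). The `x_i ^ a_i` are in it too. Write it as an identity:
`∏_i ∏_j (y_ij pot_i / pot_j) ^ b_ij = (∏_i ∏_j y_ij ^ b_ij) * (∏_i ∏_j pot_i ^ b_ij) / (∏_i ∏_j pot_j ^ b_ij)`, and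
`∏_i ∏_j pot_i ^ b_ij = ∏_i pot_i ^ (∑_j b_ij)`, `∏_i ∏_j pot_j ^ b_ij = ∏_j pot_j ^ (∑_i b_ij)` (`Finset.prod_comm`, `Finset.prod_zpow`-type: `zpow_sum`-like lemma by
induction, `pot_ne`).
-/

namespace CPZ

open IntermediateField

universe u

variable (F : Type u) [Field F]

private lemma prod_zpow_sum {K : Type u} [Field K] {ι : Type} (s : Finset ι) (c : K) (hc : c ≠ 0) (b : ι → ℤ) :
    ∏ j ∈ s, c ^ b j = c ^ ∑ j ∈ s, b j := by
  classical
  induction s using Finset.induction_on with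
  | empty => simp
  | insert a s ha ih => rw [Finset.prod_insert ha, Finset.sum_insert ha, ih, zpow_add₀ hc]

private lemma key (b : H → H → ℤ) (hb : ∀ i, ∑ j, b i j = ∑ j, b j i) :
    ∏ i, ∏ j, y F i j ^ b i j = ∏ i, ∏ j, (y F i j * pot F i / pot F j) ^ b i j := by
  have h1 : ∏ i, ∏ j, (y F i j * pot F i / pot F j) ^ b i j =
      (∏ i, ∏ j, y F i j ^ b i j) * (∏ i, ∏ j, pot F i ^ b i j) / (∏ i, ∏ j, pot F j ^ b i j) := by
    simp only [div_zpow, mul_zpow, Finset.prod_mul_distrib, Finset.prod_div_distrib]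
  have h2 : (∏ i, ∏ j, pot F i ^ b i j) = ∏ i, ∏ j, pot F j ^ b i j := by
    rw [Finset.prod_comm (f := fun i j => pot F j ^ b i j)]
    refine Finset.prod_congr rfl fun i _ => ?_
    rw [prod_zpow_sum _ _ (pot_ne F i), prod_zpow_sum _ _ (pot_ne F i), hb i]
  have h3 : (∏ i, ∏ j, pot F j ^ b i j) ≠ 0 :=
    Finset.prod_ne_zero_iff.2 fun i _ => Finset.prod_ne_zero_iff.2 fun j _ => zpow_ne_zero _ (pot_ne F j)
  rw [h1, h2, mul_div_assoc, div_self h3, mul_one]

theorem FM_eq : FM F = adjoin F (genK F) := by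
  apply le_antisymm
  · unfold FM
    rw [adjoin_le_iff]
    rintro f ⟨a, b, hb, rfl⟩
    rw [key F b hb]
    refine mul_mem (prod_mem fun i _ => zpow_mem ?_ _) (prod_mem fun i _ => prod_mem fun j _ => zpow_mem (pot_y F i j) _)
    exact subset_adjoin _ _ (Or.inl (Or.inl (Or.inr ⟨i, rfl⟩)))
  · rw [adjoin_le_iff]
    rintro f (((⟨h, rfl⟩ | ⟨h, rfl⟩) | ⟨p, rfl⟩) | hf)
    · exact uK_mem F h
    · exact x_mem F h
    · exact wK_mem F p.1 p.2
    · rcases hf with rfl | hf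
      · exact bK_mem F
      · rw [Set.mem_singleton_iff] at hf
        subst hf
        exact gK_mem F

end CPZ
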