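import Pool.Agent.CPZ.Non

/-!
# CPZ-Ind: the elements `l_i, k_i` (six), `v_0, v_1`, `m_j` (three), `w` are algebraically independent
-/

namespace CPZ

open IntermediateField

universe u v

variable {F : Type u} {R : Type v} [Field F] [Field R] [Algebra F R] {s : ℕ}

/-- the family -/
def famB (D : Datum F R s) : (ZMod 3 ⊕ ZMod 3) ⊕ Fin 2 ⊕ ZMod 3 ⊕ Fin s → R :=
  Sum.elim (Sum.elim (Li D) (Ki D)) (Sum.elim ![Vi D 0, Vi D 1] (Sum.elim D.m D.w))

theorem famB_alg (D : Datum F R s) (r : R) : IsAlgebraic (adjoin F (Set.range (famB D))) r := by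
  obtain ⟨B, hB⟩ : ∃ B : IntermediateField F R, B = adjoin F (Set.range (famB D)) := ⟨_, rfl⟩
  rw [← hB]
  have hsub : ∀ k, famB D k ∈ B := by
    intro k
    rw [hB]
    exact subset_adjoin F _ ⟨k, rfl⟩
  have hl : ∀ i, Li D i ∈ B := fun i => hsub (Sum.inl (Sum.inl i))
  have hk : ∀ i, Ki D i ∈ B := fun i => hsub (Sum.inl (Sum.inr i))
  have hv0 : Vi D 0 ∈ B := hsub (Sum.inr (Sum.inl 0))
  have hv1 : Vi D 1 ∈ B := hsub (Sum.inr (Sum.inl 1))
  have hm : ∀ j, D.m j ∈ B := fun j => hsub (Sum.inr (Sum.inr (Sum.inl j)))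
  have hw : ∀ k, D.w k ∈ B := fun k => hsub (Sum.inr (Sum.inr (Sum.inr k)))
  have hu : ∀ i j, D.u i j = Vi D i * (D.m j + Li D i) / (D.m j + Ki D i) := by
    intro i j
    rw [eq_div_iff (mk_ne D i j)]
    exact uvm D i j
  have hu0 : ∀ j, D.u 0 j ∈ B := by
    intro j
    rw [hu]
    exact div_mem (mul_mem hv0 (add_mem (hm j) (hl 0))) (add_mem (hm j) (hk 0))
  have hu1 : ∀ j, D.u 1 j ∈ B := by
    intro j
    rw [hu]
    exact div_mem (mul_mem hv1 (add_mem (hm j) (hl 1))) (add_mem (hm j) (hk 1))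
  have he0 : Ei D 0 ∈ B := prod_mem fun j _ => hu0 j
  have he1 : Ei D 1 ∈ B := prod_mem fun j _ => hu1 j
  have he2 : Ei D 2 ∈ B := by
    have h1 : Ei D 2 = (Ei D 0 * Ei D 1)⁻¹ := by
      refine eq_inv_of_mul_eq_one_left ?_
      rw [mul_comm]
      exact Ei_prod D
    rw [h1]
    exact inv_mem (mul_mem he0 he1)
  have hMM : ∀ X ∈ B, MM D X ∈ B := fun X hX => prod_mem fun j _ => add_mem hX (hm j)
  have hv23 : Vi D 2 ^ 3 ∈ B := by
    have h1 : Vi D 2 ^ 3 = Ei D 2 * MM D (Ki D 2) / MM D (Li D 2) := by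
      rw [eq_div_iff (MMl_ne D 2)]
      exact (rel_i D 2).symm
    rw [h1]
    exact div_mem (mul_mem he2 (hMM _ (hk 2))) (hMM _ (hl 2))
  obtain ⟨A, hA⟩ : ∃ A : IntermediateField F R, A = (algebraicClosure B R).restrictScalars F :=
    ⟨_, rfl⟩
  have hAm : ∀ a, a ∈ A ↔ IsAlgebraic B a := by
    intro a
    rw [hA, mem_restrictScalars]
    exact mem_algebraicClosure_iff
  have hBA : ∀ a ∈ B, a ∈ A := by
    intro a ha
    rw [hAm]
    exact isAlgebraic_algebraMap (⟨a, ha⟩ : B)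
  have hv2 : Vi D 2 ∈ A := by
    rw [hAm]
    exact IsAlgebraic.of_pow (by norm_num : 0 < 3) ((hAm _).1 (hBA _ hv23))
  have hu2 : ∀ j, D.u 2 j ∈ A := by
    intro j
    rw [hu]
    exact div_mem (mul_mem hv2 (hBA _ (add_mem (hm j) (hl 2)))) (hBA _ (add_mem (hm j) (hk 2)))
  have htop : (⊤ : IntermediateField F R) ≤ A := by
    rw [← D.gen, adjoin_le_iff]
    rintro a ((⟨⟨i, j⟩, rfl⟩ | ⟨j, rfl⟩) | ⟨k, rfl⟩)
    · have hi : i = 0 ∨ i = 1 ∨ i = 2 := by
        revert i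
        decide
      rcases hi with rfl | rfl | rfl
      · exact hBA _ (hu0 j)
      · exact hBA _ (hu1 j)
      · exact hu2 j
    · exact hBA _ (hm j)
    · exact hBA _ (hw k)
  exact (hAm r).1 (htop mem_top)

theorem famB_ind (D : Datum F R s) : AlgebraicIndependent F (famB D) := by
  refine ind_of_alg (famB D) (famB_alg D) ?_
  have h : Fintype.card ((ZMod 3 ⊕ ZMod 3) ⊕ Fin 2 ⊕ ZMod 3 ⊕ Fin s) = 11 + s := by
    simp only [Fintype.card_sum, ZMod.card, Fintype.card_fin]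
    omega
  rw [h]
  exact D.trd

theorem lkm_ind (D : Datum F R s) : AlgebraicIndependent F (Sum.elim (Sum.elim (Li D) (Ki D)) D.m) := by
  have h1 : (Sum.elim (Sum.elim (Li D) (Ki D)) D.m) =
      famB D ∘ (Sum.map id fun j : ZMod 3 => (Sum.inr (Sum.inl j) : Fin 2 ⊕ ZMod 3 ⊕ Fin s)) := by
    funext k
    rcases k with k | k
    · rfl
    · rfl
  rw [h1]
  refine (famB_ind D).comp _ ?_
  refine Function.Injective.sumMap Function.injective_id ?_
  intro a b hab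
  exact Sum.inl_injective (Sum.inr_injective hab)

end CPZ
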