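import Pool.Agent.CPZ.Trn

/-!
# CPZ-Iso: every model of the field of rational functions is isomorphic to `KK F`
-/

namespace CPZ

namespace St

open IntermediateField

universe u v

variable {F : Type u} {Ω : Type v} [Field F] [Field Ω] [Algebra F Ω]

theorem exists_iso (x : P9 → Ω) (y : P9 → P9 → Ω) (act : P9 → (Ω ≃ₐ[F] Ω)) (h : IsModel F Ω x y act) :
    ∃ φ : KK F ≃ₐ[F] Ω, (∀ i, φ (CPZ.x F i) = x i) ∧ (∀ i j, φ (CPZ.y F i j) = y i j) ∧
      ∀ g a, φ (CPZ.act F g a) = act g (φ a) := by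
  let e1 : KK F ≃ₐ[F] adjoin F (Set.range (Sum.elim x (fun p : P9 × P9 => y p.1 p.2))) := h.ind.aevalEquivField
  let e2 : adjoin F (Set.range (Sum.elim x (fun p : P9 × P9 => y p.1 p.2))) ≃ₐ[F] Ω :=
    (IntermediateField.equivOfEq h.gen).trans IntermediateField.topEquiv
  have hx : ∀ i, (e1.trans e2) (CPZ.x F i) = x i := by
    intro i
    show ((e1 (CPZ.x F i) : adjoin F _) : Ω) = x i
    exact (h.ind.aevalEquivField_algebraMap_apply_coe (MvPolynomial.X (Sum.inl i))).trans (by simp)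
  have hy : ∀ i j, (e1.trans e2) (CPZ.y F i j) = y i j := by
    intro i j
    show ((e1 (CPZ.y F i j) : adjoin F _) : Ω) = y i j
    exact (h.ind.aevalEquivField_algebraMap_apply_coe (MvPolynomial.X (Sum.inr (i, j)))).trans (by simp)
  refine ⟨e1.trans e2, hx, hy, fun g a => ?_⟩
  have hc : (e1.trans e2).symm.trans ((CPZ.act F g).trans (e1.trans e2)) = act g := by
    refine aut_ext _ h.gen _ _ ?_
    rintro r ⟨(i | p), rfl⟩
    · show (e1.trans e2) (CPZ.act F g ((e1.trans e2).symm (x i))) = act g (x i)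
      rw [← hx i, AlgEquiv.symm_apply_apply, CPZ.act_x, hx, hx, h.act_x]
    · show (e1.trans e2) (CPZ.act F g ((e1.trans e2).symm (y p.1 p.2))) = act g (y p.1 p.2)
      rw [← hy, AlgEquiv.symm_apply_apply, CPZ.act_y, hy, hy, h.act_y]
  have h1 : (e1.trans e2) (CPZ.act F g ((e1.trans e2).symm ((e1.trans e2) a))) = act g ((e1.trans e2) a) :=
    congrArg (fun f : Ω ≃ₐ[F] Ω => f ((e1.trans e2) a)) hc
  rwa [AlgEquiv.symm_apply_apply] at h1

theorem map_FM (φ : KK F ≃ₐ[F] Ω) (x : P9 → Ω) (y : P9 → P9 → Ω) (hx : ∀ i, φ (CPZ.x F i) = x i)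
    (hy : ∀ i j, φ (CPZ.y F i j) = y i j) : (CPZ.FM F).map φ.toAlgHom = FM F x y := by
  unfold CPZ.FM FM
  rw [adjoin_map]
  congr 1
  ext f
  constructor
  · rintro ⟨g, ⟨a, b, hab, rfl⟩, rfl⟩
    refine ⟨a, b, hab, ?_⟩
    show φ _ = _
    simp only [map_mul, map_prod, map_zpow₀, hx, hy]
  · rintro ⟨a, b, hab, rfl⟩
    refine ⟨_, ⟨a, b, hab, rfl⟩, ?_⟩
    show φ _ = _
    simp only [map_mul, map_prod, map_zpow₀, hx, hy]

theorem main (x : P9 → Ω) (y : P9 → P9 → Ω) (act : P9 → (Ω ≃ₐ[F] Ω)) (h : IsModel F Ω x y act) :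
    ∃ E : IntermediateField F Ω,
      Tower E (FixIn (FM F x y) (Set.range act)) (FixIn (FM F x y) {act (1, 0)}) 82 := by
  obtain ⟨φ, hx, hy, hact⟩ := exists_iso x y act h
  obtain ⟨E, L, hL, hrest⟩ := con_main F
  let ψ : CPZ.FM F →ₐ[F] Ω := φ.toAlgHom.comp (CPZ.FM F).val
  have hψ : ∀ a : CPZ.FM F, ψ a = φ (a : KK F) := fun a => rfl
  have hT := tower_map ψ E (ZH F) L 82 hrest
  have hM : ∀ r : Ω, r ∈ FM F x y ↔ ∃ a : CPZ.FM F, ψ a = r := by
    intro r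
    rw [← map_FM φ x y hx hy]
    constructor
    · rintro ⟨a, ha, rfl⟩
      exact ⟨⟨a, ha⟩, rfl⟩
    · rintro ⟨a, rfl⟩
      exact ⟨a, a.2, rfl⟩
  have hZ : (ZH F).map ψ = FixIn (FM F x y) (Set.range act) := by
    ext r
    constructor
    · rintro ⟨a, ha, rfl⟩
      refine ⟨(hM _).2 ⟨a, rfl⟩, ?_⟩
      rintro _ ⟨g, rfl⟩
      show act g (φ a) = φ a
      rw [← hact, ha g]
    · rintro ⟨h1, h2⟩
      obtain ⟨a, rfl⟩ := (hM r).1 h1
      refine ⟨a, fun g => ?_, rfl⟩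
      have h3 := h2 (act g) ⟨g, rfl⟩
      rw [hψ, ← hact] at h3
      exact φ.injective h3
  have hL' : L.map ψ = FixIn (FM F x y) {act (1, 0)} := by
    ext r
    constructor
    · rintro ⟨a, ha, rfl⟩
      refine ⟨(hM _).2 ⟨a, rfl⟩, ?_⟩
      rintro _ rfl
      show act (1, 0) (φ a) = φ a
      rw [← hact, (hL a).1 ha]
    · rintro ⟨h1, h2⟩
      obtain ⟨a, rfl⟩ := (hM r).1 h1
      refine ⟨a, (hL a).2 ?_, rfl⟩
      have h3 := h2 (act (1, 0)) rfl
      rw [hψ, ← hact] at h3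
      exact φ.injective h3
  rw [hZ, hL'] at hT
  exact ⟨_, hT⟩

end St

end CPZ
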