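import Pool.Agent.CPZ.Omg

/-!
# CPZ-PreD: from `Pre` to `Datum`

`σ = act (0, 1)`, `τ = act (1, 0)`, `u i j = P.u (i, j)`, `m j = ∑ i, P.x (i, j)`, `w = ω` of `exists_omega`. `hu`: `Fintype.prod_prod_type`. `σu, τu`: `act_u` and
`(0, 1) + (i, j) = (i, j + 1)` (`add_comm`). `σm`: `map_sum`, `act_x`. `τm`: `map_sum`, `act_x`, the sum over `i` of `x (i + 1, j)` is the sum over `i` of
`x (i, j)` (`Equiv.sum_comp (Equiv.addRight 1)`). `trd`: `11 + 71 = 82`.
-/

namespace CPZ

open IntermediateField

universe u v

variable {F : Type u} {R : Type v} [Field F] [Field R] [Algebra F R]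

theorem pre_datum (P : Pre F R) : ∃ D : Datum F R 71, D.σ = P.act (0, 1) ∧ D.τ = P.act (1, 0) := by
  obtain ⟨ω, hω, hgen⟩ := exists_omega P
  refine ⟨{ σ := P.act (0, 1)
            τ := P.act (1, 0)
            u := fun i j => P.u (i, j)
            m := fun j => ∑ i : ZMod 3, P.x (i, j)
            w := ω
            hu := ?_
            σu := ?_
            τu := ?_
            σm := ?_
            τm := ?_
            σw := fun k => hω _ k
            τw := fun k => hω _ k
            gen := hgen
            trd := P.trd }, rfl, rfl⟩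
  · have h := P.prod_u
    rw [Fintype.prod_prod_type] at h
    exact h
  · intro i j
    rw [P.act_u, Prod.mk_add_mk, zero_add, add_comm]
  · intro i j
    rw [P.act_u, Prod.mk_add_mk, zero_add, add_comm]
  · intro j
    rw [map_sum]
    refine Finset.sum_congr rfl fun i _ => ?_
    rw [P.act_x, Prod.mk_add_mk, zero_add, add_comm]
  · intro j
    rw [map_sum]
    have h1 : ∀ i : ZMod 3, P.act (1, 0) (P.x (i, j)) = P.x (i + 1, j) := by
      intro i
      rw [P.act_x, Prod.mk_add_mk, zero_add, add_comm]
    rw [Finset.sum_congr rfl fun i _ => h1 i]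
    exact Equiv.sum_comp (Equiv.addRight (1 : ZMod 3)) fun i => P.x (i, j)

end CPZ
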