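import Pool.Agent.CPZ.PreC
import Pool.Agent.CPZ.PreD
import Pool.Agent.CPZ.Abs

/-!
# CPZ-Mn: the concrete theorem (assembly)
-/

namespace CPZ

open IntermediateField

universe u

variable (F : Type u) [Field F]

lemma act_nsmul {R : Type u} [Field R] [Algebra F R] (P : Pre F R) (g : H) (a : R) (h : P.act g a = a) (n : ℕ) :
    P.act (n • g) a = a := by
  have h0 : P.act 0 = 1 := by
    have := P.act_add 0 0
    rw [add_zero] at this
    exact (mul_eq_left.1 this.symm)
  induction n with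
  | zero => rw [zero_smul, h0]; rfl
  | succ n ih => rw [succ_nsmul, P.act_add, AlgEquiv.mul_apply, h, ih]

theorem con_datum : ∃ D : Datum F (FM F) 71, Fx {D.σ, D.τ} = ZH F ∧
    ∀ a : FM F, a ∈ Fx {D.τ} ↔ act F (1, 0) (a : KK F) = a := by
  obtain ⟨P, hP⟩ := exists_pre F
  obtain ⟨D, hσ, hτ⟩ := pre_datum P
  refine ⟨D, ?_, fun a => ?_⟩
  swap
  · constructor
    · intro ha
      rw [← hP, ← hτ]
      exact congrArg Subtype.val (ha _ rfl)
    · intro ha t ht
      rw [Set.mem_singleton_iff] at ht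
      subst ht
      rw [hτ]; exact Subtype.ext (by rw [hP]; exact ha)
  ext a
  constructor
  · intro ha g
    have h1 : P.act (0, 1) a = a := by rw [← hσ]; exact ha _ (Or.inl rfl)
    have h2 : P.act (1, 0) a = a := by rw [← hτ]; exact ha _ (Or.inr rfl)
    have h3 : P.act g a = a := by
      have hg : g = g.2.val • ((0, 1) : H) + g.1.val • ((1, 0) : H) := by
        revert g; decide
      rw [hg, P.act_add, AlgEquiv.mul_apply, act_nsmul F P _ a h2, act_nsmul F P _ a h1]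
    rw [← hP, h3]
  · intro ha t ht
    rcases ht with rfl | ht
    · rw [hσ]; exact Subtype.ext (by rw [hP]; exact ha _)
    · rw [Set.mem_singleton_iff] at ht
      subst ht
      rw [hτ]; exact Subtype.ext (by rw [hP]; exact ha _)

theorem con_main : ∃ E L : IntermediateField F (FM F), (∀ a : FM F, a ∈ L ↔ act F (1, 0) (a : KK F) = a) ∧
    E ≤ ZH F ∧ ZH F ≤ L ∧ Rat F E 82 ∧ Rat F L 82 ∧
    E.relfinrank (ZH F) = 2 ∧ (ZH F).relfinrank L = 3 ∧
    ∃ ρ : Equiv.Perm (Fin 3) →* (L ≃ₐ[F] L), Function.Injective ρ ∧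
      (∀ a : L, (a : FM F) ∈ ZH F ↔ ∀ π ∈ alternatingGroup (Fin 3), ρ π a = a) ∧
      (∀ a : L, (a : FM F) ∈ E ↔ ∀ π, ρ π a = a) := by
  obtain ⟨D, hD, hL⟩ := con_datum F
  rw [← hD]
  obtain ⟨E, L, rfl, h⟩ := abs_main D
  exact ⟨E, _, hL, h⟩

end CPZ
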