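import Mathlib

/-!
# CPZ-Mob: explicit Möbius transformations with `φ(m_j) = u_j` and their invariance under permutations

For `u, m : ZMod 3 → R`: `dd, nv, nk, np` are the four cofactors of the linear system `u_j m_j dd + u_j nk = nv m_j + np` (`j = 0, 1, 2`),
`v = nv/dd`, `k = nk/dd`, `l = np/nv`, so `u_j (m_j + k) = v (m_j + l)`. All identities are proved by `ring` (case distinction on `j`,
`fin_cases j`). Permutations: `dd, nv, nk, np` are multiplied by the sign of the permutation (a permutation of `ZMod 3` is one of six: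
case distinction on `π 0, π 1, π 2`), so the quotients are invariant.
-/

namespace CPZ

universe u v

variable {R : Type v} [Field R]

def dd (u m : ZMod 3 → R) : R := m 0 * (u 1 - u 2) + m 1 * (u 2 - u 0) + m 2 * (u 0 - u 1)

def nv (u m : ZMod 3 → R) : R := u 0 * m 0 * (u 1 - u 2) + u 1 * m 1 * (u 2 - u 0) + u 2 * m 2 * (u 0 - u 1)

def nk (u m : ZMod 3 → R) : R := u 0 * m 0 * (m 1 - m 2) + u 1 * m 1 * (m 2 - m 0) + u 2 * m 2 * (m 0 - m 1)

def np (u m : ZMod 3 → R) : R :=
  u 1 * u 2 * m 0 * (m 2 - m 1) + u 2 * u 0 * m 1 * (m 0 - m 2) + u 0 * u 1 * m 2 * (m 1 - m 0)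

def vv (u m : ZMod 3 → R) : R := nv u m / dd u m

def kk (u m : ZMod 3 → R) : R := nk u m / dd u m

def ll (u m : ZMod 3 → R) : R := np u m / nv u m

private theorem z3 : ∀ j : ZMod 3, j = 0 ∨ j = 1 ∨ j = 2 := by decide

private theorem z11 : (1 : ZMod 3) + 1 = 2 := by decide
private theorem z12 : (1 : ZMod 3) + 2 = 0 := by decide
private theorem z21 : (2 : ZMod 3) + 1 = 0 := by decide
private theorem z22 : (2 : ZMod 3) + 2 = 1 := by decide

private theorem perm_sgn (u m : ZMod 3 → R) (π : Equiv.Perm (ZMod 3)) :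
    ∃ e : R, e ≠ 0 ∧ dd (u ∘ π) (m ∘ π) = e * dd u m ∧ nv (u ∘ π) (m ∘ π) = e * nv u m ∧
      nk (u ∘ π) (m ∘ π) = e * nk u m ∧ np (u ∘ π) (m ∘ π) = e * np u m := by
  have h01 : π 0 ≠ π 1 := fun h => absurd (π.injective h) (by decide)
  have h02 : π 0 ≠ π 2 := fun h => absurd (π.injective h) (by decide)
  have h12 : π 1 ≠ π 2 := fun h => absurd (π.injective h) (by decide)
  rcases z3 (π 0) with h0 | h0 | h0 <;> rcases z3 (π 1) with h1 | h1 | h1 <;>
    rcases z3 (π 2) with h2 | h2 | h2 <;>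
    first
    | exact absurd (h0.trans h1.symm) h01
    | exact absurd (h0.trans h2.symm) h02
    | exact absurd (h1.trans h2.symm) h12
    | (refine ⟨1, one_ne_zero, ?_, ?_, ?_, ?_⟩ <;>
        simp only [dd, nv, nk, np, Function.comp, h0, h1, h2] <;> ring1)
    | (refine ⟨-1, neg_ne_zero.2 one_ne_zero, ?_, ?_, ?_, ?_⟩ <;>
        simp only [dd, nv, nk, np, Function.comp, h0, h1, h2] <;> ring1)

theorem mob_id (u m : ZMod 3 → R) (j : ZMod 3) : u j * (m j * dd u m + nk u m) = nv u m * m j + np u m := by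
  rcases z3 j with rfl | rfl | rfl <;>
    simp only [dd, nv, nk, np, zero_add, z11, z12, z21, z22] <;> ring

theorem mob_fac (u m : ZMod 3 → R) (j : ZMod 3) :
    m j * dd u m + nk u m = (u (j + 1) - u (j + 2)) * (m j - m (j + 1)) * (m j - m (j + 2)) := by
  rcases z3 j with rfl | rfl | rfl <;>
    simp only [dd, nv, nk, np, zero_add, z11, z12, z21, z22] <;> ring

/-- the expansion of `dd` along `m j` -/
theorem dd_exp (u m : ZMod 3 → R) (j : ZMod 3) :
    dd u m = m j * (u (j + 1) - u (j + 2)) + m (j + 1) * (u (j + 2) - u j) + m (j + 2) * (u j - u (j + 1)) := by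
  rcases z3 j with rfl | rfl | rfl <;>
    simp only [dd, nv, nk, np, zero_add, z11, z12, z21, z22] <;> ring

/-- the expansion of `nv` along `m j` -/
theorem nv_exp (u m : ZMod 3 → R) (j : ZMod 3) :
    nv u m = u j * m j * (u (j + 1) - u (j + 2)) + u (j + 1) * m (j + 1) * (u (j + 2) - u j) +
      u (j + 2) * m (j + 2) * (u j - u (j + 1)) := by
  rcases z3 j with rfl | rfl | rfl <;>
    simp only [dd, nv, nk, np, zero_add, z11, z12, z21, z22] <;> ring

theorem vv_perm (u m : ZMod 3 → R) (π : Equiv.Perm (ZMod 3)) : vv (u ∘ π) (m ∘ π) = vv u m := by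
  obtain ⟨e, he, h1, h2, -, -⟩ := perm_sgn u m π
  rw [vv, vv, h1, h2, mul_div_mul_left _ _ he]

theorem kk_perm (u m : ZMod 3 → R) (π : Equiv.Perm (ZMod 3)) : kk (u ∘ π) (m ∘ π) = kk u m := by
  obtain ⟨e, he, h1, -, h3, -⟩ := perm_sgn u m π
  rw [kk, kk, h1, h3, mul_div_mul_left _ _ he]

theorem ll_perm (u m : ZMod 3 → R) (π : Equiv.Perm (ZMod 3)) : ll (u ∘ π) (m ∘ π) = ll u m := by
  obtain ⟨e, he, -, h2, -, h4⟩ := perm_sgn u m π
  rw [ll, ll, h2, h4, mul_div_mul_left _ _ he]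

/-- compatibility with ring homomorphisms -/
theorem vv_map {S : Type v} [Field S] (φ : R →+* S) (u m : ZMod 3 → R) : φ (vv u m) = vv (φ ∘ u) (φ ∘ m) := by
  simp only [vv, nv, dd, map_div₀, map_mul, map_add, map_sub, Function.comp]

theorem kk_map {S : Type v} [Field S] (φ : R →+* S) (u m : ZMod 3 → R) : φ (kk u m) = kk (φ ∘ u) (φ ∘ m) := by
  simp only [kk, nk, dd, map_div₀, map_mul, map_add, map_sub, Function.comp]

theorem ll_map {S : Type v} [Field S] (φ : R →+* S) (u m : ZMod 3 → R) : φ (ll u m) = ll (φ ∘ u) (φ ∘ m) := by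
  simp only [ll, np, nv, map_div₀, map_mul, map_add, map_sub, Function.comp]

end CPZ
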