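import Pool.Agent.CPZ.Iso

/-!
# CPZ-Mod: the field of rational functions is a model
-/

namespace CPZ

namespace St

open IntermediateField

universe u

theorem exists_model (F : Type u) [Field F] : IsModel F (KK F) (CPZ.x F) (CPZ.y F) (CPZ.act F) := by
  have hfam : (Sum.elim (CPZ.x F) (fun p : P9 × P9 => CPZ.y F p.1 p.2) : P9 ⊕ P9 × P9 → KK F) =
      fun i => algebraMap (MvPolynomial (H ⊕ H × H) F) (KK F) (MvPolynomial.X i) := by
    ext i
    rcases i with i | p <;> rfl
  refine ⟨?_, ?_, CPZ.act_x F, CPZ.act_y F⟩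
  · rw [hfam]
    have h1 := MvPolynomial.algebraicIndependent_X (H ⊕ H × H) F
    exact h1.map' (f := IsScalarTower.toAlgHom F (MvPolynomial (H ⊕ H × H) F) (KK F))
      (IsFractionRing.injective (MvPolynomial (H ⊕ H × H) F) (KK F))
  · rw [hfam]
    set L := adjoin F (Set.range fun i => algebraMap (MvPolynomial (H ⊕ H × H) F) (KK F) (MvPolynomial.X i))
    have hpol : ∀ a : MvPolynomial (H ⊕ H × H) F, algebraMap (MvPolynomial (H ⊕ H × H) F) (KK F) a ∈ L := by
      intro a
      induction a using MvPolynomial.induction_on with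
      | C c =>
        have e : algebraMap (MvPolynomial (H ⊕ H × H) F) (KK F) (MvPolynomial.C c) = algebraMap F (KK F) c := by
          rw [IsScalarTower.algebraMap_apply F (MvPolynomial (H ⊕ H × H) F) (KK F)]
          rfl
        rw [e]
        exact L.algebraMap_mem c
      | add p q hp hq =>
        rw [map_add]
        exact add_mem hp hq
      | mul_X p i hp =>
        rw [map_mul]
        exact mul_mem hp (subset_adjoin _ _ ⟨i, rfl⟩)
    refine eq_top_iff.mpr fun r _ => ?_
    obtain ⟨a, b, _, rfl⟩ := IsFractionRing.div_surjective (A := MvPolynomial (H ⊕ H × H) F) r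
    exact L.div_mem (hpol a) (hpol b)

end St

end CPZ
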