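import Pool.Agent.CPZ.VD

/-!
# CPZ-Non: non-vanishing and the basic relations

The denominators `dd`, `nv` and the numbers `v_i`, `m_j + k_i`, `m_j + l_i` do not vanish, the relations
`u_ij (m_j + k_i) = v_i (m_j + l_i)`, and their product over `j`.
-/

namespace CPZ

open IntermediateField

universe u v

variable {F : Type u} {R : Type v} [Field F] [Field R] [Algebra F R] {s : ℕ}

private theorem non_u12 (D : Datum F R s) (i j k : ZMod 3) (h : j ≠ k) : D.u i j - D.u i k ≠ 0 := by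
  intro h0
  have h1 := D |> u_inj
  have h2 : ((i, j) : ZMod 3 × ZMod 3) = (i, k) := h1 (sub_eq_zero.mp h0)
  exact h (Prod.mk.inj h2).2

private theorem non_memu (D : Datum F R s) (i j : ZMod 3) :
    D.u i j ∈ adjoin F (Set.range (fun p : ZMod 3 × ZMod 3 => D.u p.1 p.2) ∪ D.m '' {0}ᶜ) :=
  subset_adjoin _ _ (Or.inl ⟨(i, j), rfl⟩)

private theorem non_memm (D : Datum F R s) (j : ZMod 3) (hj : j ≠ 0) :
    D.m j ∈ adjoin F (Set.range (fun p : ZMod 3 × ZMod 3 => D.u p.1 p.2) ∪ D.m '' {0}ᶜ) :=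
  subset_adjoin _ _ (Or.inr ⟨j, hj, rfl⟩)

theorem dd_ne (D : Datum F R s) (i : ZMod 3) : dd (D.u i) D.m ≠ 0 := by
  intro h
  have h12 : D.u i 1 - D.u i 2 ≠ 0 := non_u12 D i 1 2 (by decide)
  have h1 : D.m 0 = -(D.m 1 * (D.u i 2 - D.u i 0) + D.m 2 * (D.u i 0 - D.u i 1)) /
      (D.u i 1 - D.u i 2) := by
    rw [eq_div_iff h12]
    unfold dd at h
    linear_combination h
  apply m_notMem D 0
  rw [h1]
  exact div_mem (neg_mem (add_mem (mul_mem (non_memm D 1 (by decide))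
    (sub_mem (non_memu D i 2) (non_memu D i 0))) (mul_mem (non_memm D 2 (by decide))
    (sub_mem (non_memu D i 0) (non_memu D i 1))))) (sub_mem (non_memu D i 1) (non_memu D i 2))

theorem nv_ne (D : Datum F R s) (i : ZMod 3) : nv (D.u i) D.m ≠ 0 := by
  intro h
  have h12 : D.u i 0 * (D.u i 1 - D.u i 2) ≠ 0 :=
    mul_ne_zero (u_ne_zero D i 0) (non_u12 D i 1 2 (by decide))
  have h1 : D.m 0 = -(D.u i 1 * D.m 1 * (D.u i 2 - D.u i 0) +
      D.u i 2 * D.m 2 * (D.u i 0 - D.u i 1)) / (D.u i 0 * (D.u i 1 - D.u i 2)) := by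
    rw [eq_div_iff h12]
    unfold nv at h
    linear_combination h
  apply m_notMem D 0
  rw [h1]
  exact div_mem (neg_mem (add_mem (mul_mem (mul_mem (non_memu D i 1) (non_memm D 1 (by decide)))
    (sub_mem (non_memu D i 2) (non_memu D i 0))) (mul_mem (mul_mem (non_memu D i 2)
    (non_memm D 2 (by decide))) (sub_mem (non_memu D i 0) (non_memu D i 1)))))
    (mul_mem (non_memu D i 0) (sub_mem (non_memu D i 1) (non_memu D i 2)))

theorem Vi_ne (D : Datum F R s) (i : ZMod 3) : Vi D i ≠ 0 := div_ne_zero (nv_ne D i) (dd_ne D i)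

theorem mk_ne (D : Datum F R s) (i j : ZMod 3) : D.m j + Ki D i ≠ 0 := by
  have hd := dd_ne D i
  have h1 : (D.m j + Ki D i) * dd (D.u i) D.m =
      (D.u i (j + 1) - D.u i (j + 2)) * (D.m j - D.m (j + 1)) * (D.m j - D.m (j + 2)) := by
    rw [← mob_fac]
    unfold Ki kk
    rw [add_mul, div_mul_cancel₀ _ hd]
  have hj : ∀ j : ZMod 3, j + 1 ≠ j + 2 ∧ j ≠ j + 1 ∧ j ≠ j + 2 := by decide
  have h2 : (D.u i (j + 1) - D.u i (j + 2)) * (D.m j - D.m (j + 1)) * (D.m j - D.m (j + 2)) ≠ 0 :=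
    mul_ne_zero (mul_ne_zero (non_u12 D i _ _ (hj j).1)
      (fun h => (hj j).2.1 (m_inj D (sub_eq_zero.mp h))))
      (fun h => (hj j).2.2 (m_inj D (sub_eq_zero.mp h)))
  intro h3
  rw [h3, zero_mul] at h1
  exact h2 h1.symm

theorem uvm (D : Datum F R s) (i j : ZMod 3) : D.u i j * (D.m j + Ki D i) = Vi D i * (D.m j + Li D i) := by
  have hd := dd_ne D i
  have hn := nv_ne D i
  have h := mob_id (D.u i) D.m j
  unfold Ki Vi Li kk vv ll
  have h1 : D.m j + nk (D.u i) D.m / dd (D.u i) D.m =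
      (D.m j * dd (D.u i) D.m + nk (D.u i) D.m) / dd (D.u i) D.m := by
    rw [add_div, mul_div_cancel_right₀ _ hd]
  have h2 : nv (D.u i) D.m / dd (D.u i) D.m * (D.m j + np (D.u i) D.m / nv (D.u i) D.m) =
      (nv (D.u i) D.m * D.m j + np (D.u i) D.m) / dd (D.u i) D.m := by
    rw [div_mul_eq_mul_div, mul_add, mul_div_cancel₀ _ hn]
  rw [h1, h2, ← h, mul_div_assoc]

theorem ml_ne (D : Datum F R s) (i j : ZMod 3) : D.m j + Li D i ≠ 0 := by
  intro h
  have h1 := uvm D i j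
  rw [h, mul_zero] at h1
  exact mul_ne_zero (u_ne_zero D i j) (mk_ne D i j) h1

theorem MMk_ne (D : Datum F R s) (i : ZMod 3) : MM D (Ki D i) ≠ 0 := by
  unfold MM
  refine Finset.prod_ne_zero_iff.mpr fun j _ => ?_
  rw [add_comm]
  exact mk_ne D i j

theorem MMl_ne (D : Datum F R s) (i : ZMod 3) : MM D (Li D i) ≠ 0 := by
  unfold MM
  refine Finset.prod_ne_zero_iff.mpr fun j _ => ?_
  rw [add_comm]
  exact ml_ne D i j

theorem rel_i (D : Datum F R s) (i : ZMod 3) : Ei D i * MM D (Ki D i) = Vi D i ^ 3 * MM D (Li D i) := by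
  unfold Ei MM
  rw [← Finset.prod_mul_distrib]
  have h1 : ∀ j : ZMod 3, D.u i j * (Ki D i + D.m j) = Vi D i * (Li D i + D.m j) := by
    intro j
    rw [add_comm (Ki D i), add_comm (Li D i)]
    exact uvm D i j
  rw [Finset.prod_congr rfl (fun j _ => h1 j), Finset.prod_mul_distrib, Finset.prod_const,
    Finset.card_univ, ZMod.card]

theorem Ei_prod (D : Datum F R s) : Ei D 0 * Ei D 1 * Ei D 2 = 1 := by
  have h := D.hu
  have h2 : ∏ i, ∏ j, D.u i j = (∏ j, D.u 0 j) * (∏ j, D.u 1 j) * (∏ j, D.u 2 j) :=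
    Fin.prod_univ_three _
  rw [h2] at h
  exact h

theorem Ei_ne (D : Datum F R s) (i : ZMod 3) : Ei D i ≠ 0 :=
  Finset.prod_ne_zero_iff.mpr fun j _ => u_ne_zero D i j

end CPZ
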