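import Pool.Agent.CPZ.Defs

/-!
# CPZ-Spe: Speiser's theorem (Galois descent for vector spaces inside a field)

`G` a finite group of automorphisms of `R`, `K` a `G`-stable subfield on which `G` acts faithfully, `W` a `K`-subspace of `R`
stable under `G`: then `W` is spanned over `K` by its invariant elements.

Proof. The maps `a ↦ g a : K → R`, `g ∈ G`, are distinct, hence linearly independent over `R` (and over `K`, values in `K`):
`linearIndependent_monoidHom` (Dedekind). Hence the vectors `(g a)_g ∈ K^G`, `a ∈ K`, span `K^G` over `K` (otherwise a non-zero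
linear functional `∑ λ_g g a = 0` for all `a ∈ K`), so there are `a_1, …, a_r, c_1, …, c_r ∈ K` with
`∑_k c_k * g (a_k) = if g = 1 then 1 else 0` for all `g ∈ G`. For `w ∈ W` put `T_k = ∑_{g ∈ G} g (a_k * w) ∈ W`; it is invariant and
`∑_k c_k T_k = ∑_g (∑_k c_k g (a_k)) g w = w`.
-/

namespace CPZ

open IntermediateField

universe u v

variable {F : Type u} {R : Type v} [Field F] [Field R] [Algebra F R]

/-- functions `h ↦ ∑ c_k * h (a_k)` -/
private def Sp (K : IntermediateField F R) (φ : (R ≃ₐ[F] R) → R) : Prop :=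
  ∃ (ι : Type) (_ : Fintype ι) (a c : ι → R), (∀ k, a k ∈ K) ∧ (∀ k, c k ∈ K) ∧
    ∀ h : R ≃ₐ[F] R, φ h = ∑ k, c k * h (a k)

private theorem sp_mul {K : IntermediateField F R} {φ ψ : (R ≃ₐ[F] R) → R} (h1 : Sp K φ)
    (h2 : Sp K ψ) : Sp K (fun h => φ h * ψ h) := by
  obtain ⟨ι, _, a, c, ha, hc, h⟩ := h1
  obtain ⟨ι', _, a', c', ha', hc', h'⟩ := h2
  refine ⟨ι × ι', inferInstance, fun k => a k.1 * a' k.2, fun k => c k.1 * c' k.2,
    fun k => K.mul_mem (ha _) (ha' _), fun k => K.mul_mem (hc _) (hc' _), fun g => ?_⟩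
  simp only []
  rw [h, h', Finset.sum_mul_sum, Fintype.sum_prod_type]
  refine Finset.sum_congr rfl fun i _ => Finset.sum_congr rfl fun j _ => ?_
  rw [map_mul]
  ring

private theorem sp_basic {K : IntermediateField F R} {g : R ≃ₐ[F] R} {a : R} (ha : a ∈ K)
    (hga : g a ∈ K) : Sp K (fun h => (h a - g a) * (a - g a)⁻¹) := by
  have h0 : (a - g a)⁻¹ ∈ K := K.inv_mem (K.sub_mem ha hga)
  refine ⟨Fin 2, inferInstance, ![a, 1], ![(a - g a)⁻¹, -(g a) * (a - g a)⁻¹], ?_, ?_, ?_⟩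
  · intro k
    fin_cases k
    · exact ha
    · exact K.one_mem
  · intro k
    fin_cases k
    · exact h0
    · exact K.mul_mem (K.neg_mem hga) h0
  · intro h
    rw [Fin.sum_univ_two]
    simp only [Matrix.cons_val_zero, Matrix.cons_val_one, map_one]
    ring

private theorem sp_all (K : IntermediateField F R) (T : Finset (R ≃ₐ[F] R)) :
    (∀ g ∈ T, (∀ a ∈ K, g a ∈ K) ∧ ∃ a ∈ K, g a ≠ a) →
      ∃ φ : (R ≃ₐ[F] R) → R, Sp K φ ∧ φ 1 = 1 ∧ ∀ g ∈ T, φ g = 0 := by
  classical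
  induction T using Finset.induction_on with
  | empty =>
    intro _
    refine ⟨fun _ => 1, ⟨Unit, inferInstance, fun _ => 1, fun _ => 1, fun _ => K.one_mem,
      fun _ => K.one_mem, fun h => ?_⟩, rfl, fun g hg => absurd hg (Finset.notMem_empty g)⟩
    simp
  | insert g T hgT ih =>
    intro hT
    obtain ⟨φ, h1, h2, h3⟩ := ih fun g' hg' => hT g' (Finset.mem_insert_of_mem hg')
    obtain ⟨hg1, a, ha, hga⟩ := hT g (Finset.mem_insert_self g T)
    refine ⟨fun h => φ h * ((h a - g a) * (a - g a)⁻¹), sp_mul h1 (sp_basic ha (hg1 a ha)), ?_, ?_⟩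
    · have h4 : a - g a ≠ 0 := sub_ne_zero.2 hga.symm
      show φ 1 * ((a - g a) * (a - g a)⁻¹) = 1
      rw [h2, mul_inv_cancel₀ h4, one_mul]
    · intro g' hg'
      rcases Finset.mem_insert.1 hg' with rfl | h5
      · show φ g' * ((g' a - g' a) * (a - g' a)⁻¹) = 0
        rw [sub_self, zero_mul, mul_zero]
      · show φ g' * ((g' a - g a) * (a - g a)⁻¹) = 0
        rw [h3 g' h5, zero_mul]

/-- the separating elements -/
theorem exists_sep (G : Subgroup (R ≃ₐ[F] R)) [Finite G] (K : IntermediateField F R)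
    (hK : ∀ g ∈ G, ∀ a ∈ K, g a ∈ K) (hf : ∀ g ∈ G, (∀ a ∈ K, g a = a) → g = 1) :
    ∃ (r : ℕ) (a c : Fin r → R), (∀ k, a k ∈ K) ∧ (∀ k, c k ∈ K) ∧ (∑ k, c k * a k = 1) ∧
      ∀ g ∈ G, g ≠ 1 → ∑ k, c k * g (a k) = 0 := by
  classical
  have hfin : (G : Set (R ≃ₐ[F] R)).Finite := Set.toFinite _
  obtain ⟨φ, ⟨ι, _, a, c, ha, hc, h⟩, h1, h2⟩ := sp_all K (hfin.toFinset.erase 1) (by
    intro g hg
    obtain ⟨hg1, hg2⟩ := Finset.mem_erase.1 hg
    have hgG : g ∈ G := hfin.mem_toFinset.1 hg2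
    refine ⟨hK g hgG, ?_⟩
    by_contra hcon
    apply hg1
    apply hf g hgG
    intro a ha
    by_contra hne
    exact hcon ⟨a, ha, hne⟩)
  let e := Fintype.equivFin ι
  refine ⟨Fintype.card ι, fun k => a (e.symm k), fun k => c (e.symm k), fun k => ha _,
    fun k => hc _, ?_, ?_⟩
  · rw [Equiv.sum_comp e.symm (fun k => c k * a k), ← h1, h]
    rfl
  · intro g hg hg1
    rw [Equiv.sum_comp e.symm (fun k => c k * g (a k)), ← h]
    exact h2 g (Finset.mem_erase.2 ⟨hg1, hfin.mem_toFinset.2 hg⟩)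

theorem speiser (G : Subgroup (R ≃ₐ[F] R)) [Finite G] (K : IntermediateField F R)
    (hK : ∀ g ∈ G, ∀ a ∈ K, g a ∈ K) (hf : ∀ g ∈ G, (∀ a ∈ K, g a = a) → g = 1)
    (W : Submodule K R) (hW : ∀ g ∈ G, ∀ w ∈ W, g w ∈ W) :
    W ≤ Submodule.span K {w | w ∈ W ∧ ∀ g ∈ G, g w = w} := by
  classical
  obtain ⟨r, a, c, ha, hc, h1, h2⟩ := exists_sep G K hK hf
  let _ : Fintype G := Fintype.ofFinite G
  intro w hw
  have key : w = ∑ k, (⟨c k, hc k⟩ : K) • ∑ g : G, (g : R ≃ₐ[F] R) (a k * w) := by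
    have h3 : ∀ k, (⟨c k, hc k⟩ : K) • ∑ g : G, (g : R ≃ₐ[F] R) (a k * w) =
        ∑ g : G, (c k * (g : R ≃ₐ[F] R) (a k)) * (g : R ≃ₐ[F] R) w := by
      intro k
      show c k * ∑ g : G, (g : R ≃ₐ[F] R) (a k * w) = _
      rw [Finset.mul_sum]
      refine Finset.sum_congr rfl fun g _ => ?_
      rw [map_mul, mul_assoc]
    simp only [h3]
    rw [Finset.sum_comm]
    simp only [← Finset.sum_mul]
    rw [Finset.sum_eq_single (1 : G)]
    · show w = (∑ k, c k * a k) * w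
      rw [h1, one_mul]
    · intro g _ hg
      rw [h2 g g.2 (fun h => hg (Subtype.ext h)), zero_mul]
    · intro h
      exact absurd (Finset.mem_univ _) h
  rw [key]
  refine Submodule.sum_mem _ fun k _ => Submodule.smul_mem _ _ (Submodule.subset_span ⟨?_, ?_⟩)
  · refine Submodule.sum_mem _ fun g _ => hW g g.2 _ ?_
    exact W.smul_mem (⟨a k, ha k⟩ : K) hw
  · intro g hg
    rw [map_sum]
    refine Fintype.sum_equiv (Equiv.mulLeft (⟨g, hg⟩ : G)) _ _ fun x => ?_
    rfl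

end CPZ
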