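import Mathlib

/-!
# CPZ-TR: counting generators against the transcendence degree

Mathlib: `Algebra.trdeg`, `Algebra.IsAlgebraic.isTranscendenceBasis_of_lift_le_trdeg_of_finite`,
`Algebra.IsAlgebraic.trdeg_le_cardinalMk`, `Algebra.IsAlgebraic.lift_trdeg_le_cardinalMk`.
`ind_of_alg`: a finite family over which `R` is algebraic and which has at most `trdeg F R` members is algebraically
independent (pass from the subfield `adjoin F (range x)` to the subring `Algebra.adjoin F (range x)`, of which it is the
fraction field: `IntermediateField.adjoin` / `IsFractionRing.isAlgebraic_iff'` / `IsAlgebraic` lemmas on fraction rings).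
`trdeg_le_of_alg` is similar. `ind_of_gens` is the case `adjoin F (range x) = ⊤`.
-/

namespace CPZ

open IntermediateField

universe u v w

variable {F : Type u} {R : Type v} [Field F] [Field R] [Algebra F R]

open IntermediateField.algebraAdjoinAdjoin in
private theorem alg_ring {ι : Type w} (x : ι → R)
    (hx : ∀ r : R, IsAlgebraic (adjoin F (Set.range x)) r) :
    Algebra.IsAlgebraic (Algebra.adjoin F (Set.range x)) R := by
  have h1 : Algebra.IsAlgebraic (adjoin F (Set.range x)) R := ⟨hx⟩
  exact (IsFractionRing.comap_isAlgebraic_iff (A := Algebra.adjoin F (Set.range x))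
    (K := adjoin F (Set.range x)) (C := R)).2 h1

theorem trdeg_le_of_alg {ι : Type w} [Fintype ι] (x : ι → R)
    (hx : ∀ r : R, IsAlgebraic (adjoin F (Set.range x)) r) :
    Algebra.trdeg F R ≤ ((Fintype.card ι : ℕ) : Cardinal.{v}) := by
  have h1 := alg_ring x hx
  have h2 := Algebra.IsAlgebraic.trdeg_le_cardinalMk F (Set.range x)
  refine h2.trans ?_
  have h3 : Cardinal.lift.{w} (Cardinal.mk (Set.range x)) ≤ Cardinal.lift.{v} (Cardinal.mk ι) :=
    Cardinal.mk_range_le_lift
  rw [Cardinal.mk_fintype ι, Cardinal.lift_natCast] at h3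
  have h4 : Cardinal.lift.{w} (Cardinal.mk (Set.range x)) ≤
      Cardinal.lift.{w} ((Fintype.card ι : ℕ) : Cardinal.{v}) := by
    rw [Cardinal.lift_natCast]
    exact h3
  exact Cardinal.lift_le.1 h4

theorem ind_of_alg {ι : Type w} [Fintype ι] (x : ι → R)
    (hx : ∀ r : R, IsAlgebraic (adjoin F (Set.range x)) r)
    (ht : ((Fintype.card ι : ℕ) : Cardinal.{v}) ≤ Algebra.trdeg F R) : AlgebraicIndependent F x := by
  have h1 := alg_ring x hx
  have h2 := Algebra.IsAlgebraic.isTranscendenceBasis_of_lift_le_trdeg_of_finite F x (by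
    rw [Cardinal.mk_fintype, Cardinal.lift_natCast]
    have h3 := Cardinal.lift_le.{w}.2 ht
    rwa [Cardinal.lift_natCast] at h3)
  exact h2.1

theorem ind_of_gens {ι : Type w} [Fintype ι] (x : ι → R) (hx : adjoin F (Set.range x) = ⊤)
    (ht : ((Fintype.card ι : ℕ) : Cardinal.{v}) ≤ Algebra.trdeg F R) : AlgebraicIndependent F x := by
  refine ind_of_alg x (fun r => ?_) ht
  have h1 : r ∈ adjoin F (Set.range x) := by
    rw [hx]
    exact IntermediateField.mem_top
  exact isAlgebraic_algebraMap (⟨r, h1⟩ : adjoin F (Set.range x))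

end CPZ
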