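import Pool.Agent.CPZ.Pre
import Pool.Agent.CPZ.TR
import Pool.Agent.CPZ.Spe
import Pool.Agent.CPZ.Lin

/-!
# CPZ-Omg: 71 invariant elements

`pre_u_inj`: leave out `u_{h0}` (the inverse of the product of the other ones, `prod_u`): the `8 + 9 + 63 + 2 = 82` other generators generate `R`,
so they are algebraically independent (`ind_of_gens`, `P.trd`); for `h ≠ h'` leave out a third index, so `u h ≠ u h'`.

`exists_omega`: `K = adjoin F (range u)`; `G` = the range of `act` (a finite subgroup: `act_add`, `act 0 = 1`); `G` acts on `K`; if `act g` fixes `K`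
then `u (g + 0) = u 0`, `g = 0`, `act g = 1`. `W = span_K (range x ∪ range w ∪ range b)` is stable under `G` (`act_x, act_w, act_b`, semilinear).
`speiser`: `W ≤ span_K S`, `S = {w ∈ W | invariant}`. `m j = ∑ i, x (i, j)`, `U = span_K (range m)`; the 71 elements
`z`: `x (1, j), x (2, j)` (six), the 63 `w t h` and `b 0, b 1`: `W ≤ U ⊔ span_K (range z)` since `x (0, j) = m j - x (1, j) - x (2, j)`.
`exists_family` gives `ω : Fin 71 → S` with `S ⊆ U ⊔ span_K (range ω)`, so `W ≤ U ⊔ span_K (range ω)` (a submodule) and all `x, w, b` lie in the field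
generated by `K`, `m`, `ω`; conclude with `P.gen`. (Index the 71 elements by `(Fin 2 × ZMod 3) ⊕ (Fin 7 × H) ⊕ Fin 2` and transport along
`Fintype.equivFinOfCardEq`.)
-/

namespace CPZ

open IntermediateField

universe u v

variable {F : Type u} {R : Type v} [Field F] [Field R] [Algebra F R]

private abbrev OmgIdx (h0 : H) : Type := {h : H // h ≠ h0} ⊕ H ⊕ (Fin 7 × H) ⊕ Fin 2

private def omgFam (P : Pre F R) (h0 : H) : OmgIdx h0 → R :=
  Sum.elim (fun h => P.u h.1) (Sum.elim P.x (Sum.elim (fun p => P.w p.1 p.2) P.b))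

private theorem omg_card (h0 : H) : Fintype.card (OmgIdx h0) = 82 := by
  have h1 : Fintype.card {h : H // h ≠ h0} = 8 := by
    rw [Fintype.card_subtype_compl]
    simp [H]
  simp only [OmgIdx, Fintype.card_sum, Fintype.card_prod, Fintype.card_fin, ZMod.card, h1]

private theorem omg_gen (P : Pre F R) (h0 : H) : adjoin F (Set.range (omgFam P h0)) = ⊤ := by
  rw [eq_top_iff, ← P.gen, adjoin_le_iff]
  have hu : ∀ h, h ≠ h0 → P.u h ∈ adjoin F (Set.range (omgFam P h0)) := fun h hh =>
    subset_adjoin F _ ⟨Sum.inl ⟨h, hh⟩, rfl⟩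
  rintro r (((⟨h, rfl⟩ | ⟨h, rfl⟩) | ⟨p, rfl⟩) | ⟨k, rfl⟩)
  · by_cases hh : h = h0
    · subst hh
      have h1 : P.u h * ∏ g ∈ Finset.univ.erase h, P.u g = 1 := by
        rw [Finset.mul_prod_erase _ _ (Finset.mem_univ h)]
        exact P.prod_u
      have h2 : P.u h = (∏ g ∈ Finset.univ.erase h, P.u g)⁻¹ := eq_inv_of_mul_eq_one_left h1
      rw [SetLike.mem_coe, h2]
      apply inv_mem
      apply prod_mem
      intro g hg
      exact hu g (Finset.ne_of_mem_erase hg)
    · exact hu h hh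
  · exact subset_adjoin F _ ⟨Sum.inr (Sum.inl h), rfl⟩
  · exact subset_adjoin F _ ⟨Sum.inr (Sum.inr (Sum.inl p)), rfl⟩
  · exact subset_adjoin F _ ⟨Sum.inr (Sum.inr (Sum.inr k)), rfl⟩

private theorem omg_third (h h' : H) : ∃ h0 : H, h ≠ h0 ∧ h' ≠ h0 := by
  revert h h'
  decide

theorem pre_u_inj (P : Pre F R) : Function.Injective P.u := by
  intro h h' he
  by_contra hne
  obtain ⟨h0, h1, h2⟩ := omg_third h h'
  have hi := ind_of_gens (omgFam P h0) (omg_gen P h0) (by rw [omg_card]; exact P.trd)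
  have h3 := hi.injective (a₁ := Sum.inl ⟨h, h1⟩) (a₂ := Sum.inl ⟨h', h2⟩) he
  have h4 : h = h' := by
    have := Sum.inl.inj h3
    exact congrArg Subtype.val this
  exact hne h4

private theorem omg_act_zero (P : Pre F R) : P.act 0 = 1 := by
  have h := P.act_add 0 0
  rw [add_zero] at h
  exact (left_eq_mul.mp h)

private def omgHom (P : Pre F R) : Multiplicative H →* (R ≃ₐ[F] R) where
  toFun g := P.act g.toAdd
  map_one' := omg_act_zero P
  map_mul' a b := P.act_add a.toAdd b.toAdd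

private theorem omg_K (P : Pre F R) (g : H) (a : R) (ha : a ∈ adjoin F (Set.range P.u)) :
    P.act g a ∈ adjoin F (Set.range P.u) := by
  have h1 : P.act g a ∈ (adjoin F (Set.range P.u)).map (P.act g : R →ₐ[F] R) := ⟨a, ha, rfl⟩
  rw [adjoin_map] at h1
  refine adjoin.mono F _ _ ?_ h1
  rintro _ ⟨_, ⟨h, rfl⟩, rfl⟩
  exact ⟨g + h, (P.act_u g h).symm⟩

/-- the vector space `W` -/
private def omgW (P : Pre F R) : Submodule (adjoin F (Set.range P.u)) R :=
  Submodule.span _ (Set.range P.x ∪ Set.range (fun p : Fin 7 × H => P.w p.1 p.2) ∪ Set.range P.b)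

private theorem omg_W (P : Pre F R) (g : H) (w : R) (hw : w ∈ omgW P) : P.act g w ∈ omgW P := by
  unfold omgW at hw
  induction hw using Submodule.span_induction with
  | mem r hr =>
    rcases hr with (⟨h, rfl⟩ | ⟨p, rfl⟩) | ⟨k, rfl⟩
    · rw [P.act_x]
      exact Submodule.subset_span (Or.inl (Or.inl ⟨_, rfl⟩))
    · show P.act g (P.w p.1 p.2) ∈ _
      rw [P.act_w]
      exact Submodule.subset_span (Or.inl (Or.inr ⟨(p.1, g + p.2), rfl⟩))
    · obtain ⟨c, hc, he⟩ := P.act_b g k
      rw [he]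
      exact Submodule.smul_mem _ (⟨c, hc⟩ : adjoin F (Set.range P.u))
        (Submodule.subset_span (Or.inr ⟨k, rfl⟩))
  | zero => rw [map_zero]; exact Submodule.zero_mem _
  | add x y _ _ hx hy => rw [map_add]; exact Submodule.add_mem _ hx hy
  | smul a x _ hx =>
    have h1 : P.act g (a • x) = (⟨P.act g a, omg_K P g a a.2⟩ : adjoin F (Set.range P.u)) • P.act g x := by
      rw [IntermediateField.smul_def, IntermediateField.smul_def, smul_eq_mul, smul_eq_mul, map_mul]
    rw [h1]
    exact Submodule.smul_mem _ _ hx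

private abbrev OmgZ : Type := (Fin 2 × ZMod 3) ⊕ (Fin 7 × H) ⊕ Fin 2

private theorem omgZ_card : Fintype.card OmgZ = 71 := by
  simp [OmgZ]

private def omgz (P : Pre F R) : OmgZ → R :=
  Sum.elim (fun p => P.x ((p.1 : ℕ) + 1, p.2)) (Sum.elim (fun p => P.w p.1 p.2) P.b)

private theorem omg_W_le (P : Pre F R) : omgW P ≤
    Submodule.span _ (Set.range (fun j : ZMod 3 => ∑ i : ZMod 3, P.x (i, j))) ⊔
      Submodule.span _ (Set.range (omgz P)) := by
  unfold omgW
  rw [Submodule.span_le]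
  have hz : ∀ k, omgz P k ∈ (Submodule.span (adjoin F (Set.range P.u))
      (Set.range (fun j : ZMod 3 => ∑ i : ZMod 3, P.x (i, j))) ⊔
      Submodule.span (adjoin F (Set.range P.u)) (Set.range (omgz P))) := fun k =>
    Submodule.mem_sup_right (Submodule.subset_span ⟨k, rfl⟩)
  have hm : ∀ j, (∑ i : ZMod 3, P.x (i, j)) ∈ (Submodule.span (adjoin F (Set.range P.u))
      (Set.range (fun j : ZMod 3 => ∑ i : ZMod 3, P.x (i, j))) ⊔
      Submodule.span (adjoin F (Set.range P.u)) (Set.range (omgz P))) := fun j =>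
    Submodule.mem_sup_left (Submodule.subset_span ⟨j, rfl⟩)
  rintro r ((⟨⟨i, j⟩, rfl⟩ | ⟨p, rfl⟩) | ⟨k, rfl⟩)
  · have h1 : P.x (1, j) = omgz P (Sum.inl (0, j)) := by
      simp [omgz]
    have h2 : P.x (2, j) = omgz P (Sum.inl (1, j)) := by
      simp only [omgz, Sum.elim_inl]
      congr 1
    have h3 : (∑ i : ZMod 3, P.x (i, j)) = P.x (0, j) + P.x (1, j) + P.x (2, j) :=
      Fin.sum_univ_three (fun i : Fin 3 => P.x (i, j))
    have hi : i = 0 ∨ i = 1 ∨ i = 2 := by
      revert i; decide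
    rcases hi with rfl | rfl | rfl
    · have h0 : P.x (0, j) = (∑ i : ZMod 3, P.x (i, j)) - omgz P (Sum.inl (0, j)) -
          omgz P (Sum.inl (1, j)) := by
        rw [h3, ← h1, ← h2]; ring
      rw [SetLike.mem_coe, h0]
      exact Submodule.sub_mem _ (Submodule.sub_mem _ (hm j) (hz _)) (hz _)
    · rw [SetLike.mem_coe, h1]; exact hz _
    · rw [SetLike.mem_coe, h2]; exact hz _
  · exact hz (Sum.inr (Sum.inl p))
  · exact hz (Sum.inr (Sum.inr k))

private theorem omg_span_mem {K L : IntermediateField F R} (hKL : K ≤ L) (T : Set R)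
    (hT : ∀ t ∈ T, t ∈ L) (r : R) (hr : r ∈ Submodule.span K T) : r ∈ L := by
  induction hr using Submodule.span_induction with
  | mem t ht => exact hT t ht
  | zero => exact zero_mem _
  | add x y _ _ hx hy => exact add_mem hx hy
  | smul a x _ hx =>
    rw [IntermediateField.smul_def, smul_eq_mul]
    exact mul_mem (hKL a.2) hx

theorem exists_omega (P : Pre F R) : ∃ ω : Fin 71 → R, (∀ g k, P.act g (ω k) = ω k) ∧
    adjoin F (Set.range P.u ∪ Set.range (fun j : ZMod 3 => ∑ i : ZMod 3, P.x (i, j)) ∪ Set.range ω) = ⊤ := by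
  classical
  set G : Subgroup (R ≃ₐ[F] R) := (omgHom P).range with hG
  haveI : Finite G := by
    have : (G : Set (R ≃ₐ[F] R)).Finite := by
      rw [hG, MonoidHom.coe_range]
      exact Set.finite_range _
    exact this.to_subtype
  have hGm : ∀ g : H, P.act g ∈ G := fun g => ⟨Multiplicative.ofAdd g, rfl⟩
  have hKst : ∀ g ∈ G, ∀ a ∈ adjoin F (Set.range P.u), g a ∈ adjoin F (Set.range P.u) := by
    rintro _ ⟨g, rfl⟩ a ha
    exact omg_K P g.toAdd a ha
  have hfa : ∀ g ∈ G, (∀ a ∈ adjoin F (Set.range P.u), g a = a) → g = 1 := by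
    rintro _ ⟨g, rfl⟩ hg
    have h1 : P.act g.toAdd (P.u 0) = P.u 0 := hg (P.u 0) (subset_adjoin F _ ⟨0, rfl⟩)
    rw [P.act_u, add_zero] at h1
    have h2 := pre_u_inj P h1
    show P.act g.toAdd = 1
    rw [h2]
    exact omg_act_zero P
  have hWst : ∀ g ∈ G, ∀ w ∈ omgW P, g w ∈ omgW P := by
    rintro _ ⟨g, rfl⟩ w hw
    exact omg_W P g.toAdd w hw
  have hsp := speiser G (adjoin F (Set.range P.u)) hKst hfa (omgW P) hWst
  let e : Fin 71 ≃ OmgZ := (Fintype.equivFinOfCardEq omgZ_card).symm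
  have hre : Set.range (omgz P ∘ e) = Set.range (omgz P) := by
    rw [Set.range_comp, e.surjective.range_eq, Set.image_univ]
  obtain ⟨ω, hω1, hω2⟩ := exists_family
    (Submodule.span (adjoin F (Set.range P.u)) (Set.range (fun j : ZMod 3 => ∑ i : ZMod 3, P.x (i, j))))
    {w | w ∈ omgW P ∧ ∀ g ∈ G, g w = w}
    ⟨Submodule.zero_mem _, fun g _ => map_zero g⟩ (omgz P ∘ e)
    (by
      rintro v ⟨hv, _⟩
      rw [hre]
      exact omg_W_le P hv)
  refine ⟨ω, fun g k => (hω1 k).2 _ (hGm g), ?_⟩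
  rw [eq_top_iff, ← P.gen, adjoin_le_iff]
  set L := adjoin F (Set.range P.u ∪ Set.range (fun j : ZMod 3 => ∑ i : ZMod 3, P.x (i, j)) ∪
    Set.range ω) with hL
  have hKL : adjoin F (Set.range P.u) ≤ L := by
    apply adjoin.mono
    exact Set.subset_union_left.trans Set.subset_union_left
  have hWL : ∀ r ∈ omgW P, r ∈ L := by
    intro r hr
    have h1 := hsp hr
    have h2 : Submodule.span (adjoin F (Set.range P.u)) {w | w ∈ omgW P ∧ ∀ g ∈ G, g w = w} ≤
        Submodule.span (adjoin F (Set.range P.u)) (Set.range (fun j : ZMod 3 => ∑ i : ZMod 3, P.x (i, j))) ⊔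
        Submodule.span (adjoin F (Set.range P.u)) (Set.range ω) := by
      rw [Submodule.span_le]
      exact hω2
    have h3 := h2 h1
    rw [← Submodule.span_union] at h3
    refine omg_span_mem hKL _ ?_ r h3
    rintro t (ht | ht)
    · exact subset_adjoin F _ (Or.inl (Or.inr ht))
    · exact subset_adjoin F _ (Or.inr ht)
  rintro r (((⟨h, rfl⟩ | hr) | hr) | hr)
  · exact subset_adjoin F _ (Or.inl (Or.inl ⟨h, rfl⟩))
  · exact hWL r (Submodule.subset_span (Or.inl (Or.inl hr)))
  · exact hWL r (Submodule.subset_span (Or.inl (Or.inr hr)))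
  · exact hWL r (Submodule.subset_span (Or.inr hr))

end CPZ
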