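import Pool.Agent.CPZ.CDefs
import Pool.Agent.CPZ.Dv

/-!
# CPZ-Pot: the potential: all edges normalized by the standard paths from `0` lie in the field `N` generated by the explicit elements

`pot h = pathK 0 (h.1.val) (h.2.val)` (the path from `0` to `h`: first `h.1.val` steps `tg`, then `h.2.val` steps `sg`), non-zero. `N = adjoin F (genK F)`.
(1) `ya h * pot h / pot (h + sg) ∈ N`: for `h = (i, j)` with `j.val < 2` it is `1` (`Finset.prod_range_succ`); for `j = 2` it is the row loop
`ya (i,0) ya (i,1) ya (i,2)`, which is in `N`: for `i = 0` it is `bK`, and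
`ya (i+1,0) ya (i+1,1) ya (i+1,2) = ya (i,0) ya (i,1) ya (i,2) / (uK (i,0) uK (i,1) uK (i,2))`.
(2) `yc h * pot h / pot (h + tg) ∈ N`: for `j = 0`: `1` for `i = 0, 1`, and `gK` for `i = 2`; and (`j.val < 2`)
`yc (i,j+1) pot (i,j+1) / pot (i+1,j+1) = [yc (i,j) pot (i,j) / pot (i+1,j)] * uK (i,j)`, as `pot (i,j+1) = pot (i,j) ya (i,j)`.
(3) every other edge: `y h (h + d) * pot h / pot (h + d) = wK t h * (pathK h p q * pot h / pot (h + (p,q)))` and the last factor is a product of
elements of type (1), (2) (telescoping along the path; induction on `p`, then on `q`). Every `d : H` is `sg`, `tg` or `dH t` (`decide`).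
All case distinctions over the nine points can also be done by `fin_cases`/`decide`-type arguments and `field_simp`.
-/

namespace CPZ

open IntermediateField

universe u

variable (F : Type u) [Field F]

/-- the potential -/
noncomputable def pot (h : H) : KK F := pathK F 0 h.1.val h.2.val

private theorem three (j : ZMod 3) : j = 0 ∨ j = 1 ∨ j = 2 := by
  revert j
  decide

private theorem ya_ne (h : H) : ya F h ≠ 0 := y_ne F _ _

private theorem yc_ne (h : H) : yc F h ≠ 0 := y_ne F _ _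

private theorem path_ne (h : H) (p q : ℕ) : pathK F h p q ≠ 0 :=
  mul_ne_zero (Finset.prod_ne_zero_iff.2 fun _ _ => yc_ne F _)
    (Finset.prod_ne_zero_iff.2 fun _ _ => ya_ne F _)

theorem pot_ne (h : H) : pot F h ≠ 0 := by
  exact path_ne F _ _ _

private theorem pot00 : pot F (0, 0) = 1 := by
  simp [pot, pathK]

private theorem pot10 : pot F (1, 0) = yc F (0, 0) := by
  have h1 : (1 : ZMod 3).val = 1 := rfl
  simp only [pot, pathK, h1, ZMod.val_zero, Finset.prod_range_one, Finset.prod_range_zero, mul_one,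
    zero_add, Nat.cast_zero]

private theorem pot20 : pot F (2, 0) = yc F (0, 0) * yc F (1, 0) := by
  have h1 : (2 : ZMod 3).val = 2 := rfl
  simp only [pot, pathK, h1, ZMod.val_zero, Finset.prod_range_succ, Finset.prod_range_zero, mul_one,
    one_mul, zero_add, Nat.cast_zero, Nat.cast_one]

private theorem potS1 (i : ZMod 3) : pot F (i, 1) = pot F (i, 0) * ya F (i, 0) := by
  have h1 : (1 : ZMod 3).val = 1 := rfl
  simp only [pot, pathK, h1, ZMod.val_zero, Finset.prod_range_succ, Finset.prod_range_zero, mul_one,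
    one_mul, zero_add, Nat.cast_zero, ZMod.natCast_zmod_val]

private theorem potS2 (i : ZMod 3) : pot F (i, 2) = pot F (i, 1) * ya F (i, 1) := by
  have h1 : (1 : ZMod 3).val = 1 := rfl
  have h2 : (2 : ZMod 3).val = 2 := rfl
  simp only [pot, pathK, h1, h2, Finset.prod_range_succ, Finset.prod_range_zero,
    one_mul, zero_add, Nat.cast_zero, Nat.cast_one, ZMod.natCast_zmod_val, mul_assoc]

private theorem uK_mem (h : H) : uK F h ∈ adjoin F (genK F) :=
  subset_adjoin _ _ (Or.inl (Or.inl (Or.inl ⟨h, rfl⟩)))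

private theorem wK_mem (t : Fin 7) (h : H) : wK F t h ∈ adjoin F (genK F) :=
  subset_adjoin _ _ (Or.inl (Or.inr ⟨(t, h), rfl⟩))

private theorem bK_mem : bK F ∈ adjoin F (genK F) :=
  subset_adjoin _ _ (Or.inr (Or.inl rfl))

private theorem gK_mem : gK F ∈ adjoin F (genK F) :=
  subset_adjoin _ _ (Or.inr (Or.inr rfl))

private theorem uK_eq (i j : ZMod 3) :
    uK F (i, j) = ya F (i, j) * yc F (i, j + 1) / (yc F (i, j) * ya F (i + 1, j)) := by
  have e1 : ((i, j) : H) + sg = (i, j + 1) := by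
    simp [sg]
  have e2 : ((i, j) : H) + tg = (i + 1, j) := by
    simp [tg]
  rw [uK, e1, e2]

private theorem row_step (i : ZMod 3) :
    ya F (i + 1, 0) * ya F (i + 1, 1) * ya F (i + 1, 2) =
      ya F (i, 0) * ya F (i, 1) * ya F (i, 2) / (uK F (i, 0) * uK F (i, 1) * uK F (i, 2)) := by
  have h21 : (2 : ZMod 3) + 1 = 0 := rfl
  have h11 : (1 : ZMod 3) + 1 = 2 := rfl
  rw [uK_eq, uK_eq, uK_eq, zero_add, h11, h21]
  have a0 := ya_ne F (i, 0)
  have a1 := ya_ne F (i, 1)
  have a2 := ya_ne F (i, 2)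
  have b0 := ya_ne F (i + 1, 0)
  have b1 := ya_ne F (i + 1, 1)
  have b2 := ya_ne F (i + 1, 2)
  have c0 := yc_ne F (i, 0)
  have c1 := yc_ne F (i, 1)
  have c2 := yc_ne F (i, 2)
  field_simp

private theorem row_mem (i : ZMod 3) :
    ya F (i, 0) * ya F (i, 1) * ya F (i, 2) ∈ adjoin F (genK F) := by
  have h0 : ya F (0, 0) * ya F (0, 1) * ya F (0, 2) ∈ adjoin F (genK F) := bK_mem F
  have hs : ∀ i : ZMod 3, ya F (i, 0) * ya F (i, 1) * ya F (i, 2) ∈ adjoin F (genK F) →
      ya F (i + 1, 0) * ya F (i + 1, 1) * ya F (i + 1, 2) ∈ adjoin F (genK F) := by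
    intro i hi
    rw [row_step]
    exact _root_.div_mem hi (mul_mem (mul_mem (uK_mem F _) (uK_mem F _)) (uK_mem F _))
  have h1 := hs 0 h0
  rw [zero_add] at h1
  have h2 := hs 1 h1
  have e : (1 : ZMod 3) + 1 = 2 := rfl
  rw [e] at h2
  have hi := three i
  rcases hi with rfl | rfl | rfl
  · exact h0
  · exact h1
  · exact h2

theorem pot_ya (h : H) : ya F h * pot F h / pot F (h + sg) ∈ adjoin F (genK F) := by
  obtain ⟨i, j⟩ := h
  have e1 : ((i, j) : H) + sg = (i, j + 1) := by
    simp [sg]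
  rw [e1]
  have hj := three j
  rcases hj with rfl | rfl | rfl
  · rw [zero_add, potS1]
    have := pot_ne F (i, 0)
    have := ya_ne F (i, 0)
    have e2 : ya F (i, 0) * pot F (i, 0) / (pot F (i, 0) * ya F (i, 0)) = 1 := by
      field_simp
    rw [e2]
    exact one_mem _
  · have e : (1 : ZMod 3) + 1 = 2 := rfl
    rw [e, potS2]
    have := pot_ne F (i, 1)
    have := ya_ne F (i, 1)
    have e2 : ya F (i, 1) * pot F (i, 1) / (pot F (i, 1) * ya F (i, 1)) = 1 := by
      field_simp
    rw [e2]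
    exact one_mem _
  · have e : (2 : ZMod 3) + 1 = 0 := rfl
    rw [e, potS2, potS1]
    have := pot_ne F (i, 0)
    have e2 : ya F (i, 2) * (pot F (i, 0) * ya F (i, 0) * ya F (i, 1)) / pot F (i, 0) =
        ya F (i, 0) * ya F (i, 1) * ya F (i, 2) := by
      field_simp
    rw [e2]
    exact row_mem F i

private theorem c0_mem (i : ZMod 3) :
    yc F (i, 0) * pot F (i, 0) / pot F (i + 1, 0) ∈ adjoin F (genK F) := by
  have hi := three i
  have h0 := yc_ne F (0, 0)
  have h1 := yc_ne F (1, 0)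
  have h2 := yc_ne F (2, 0)
  rcases hi with rfl | rfl | rfl
  · rw [zero_add, pot10, pot00, mul_one, div_self h0]
    exact one_mem _
  · have e : (1 : ZMod 3) + 1 = 2 := rfl
    rw [e, pot20, pot10]
    have e2 : yc F (1, 0) * yc F (0, 0) / (yc F (0, 0) * yc F (1, 0)) = 1 := by
      field_simp
    rw [e2]
    exact one_mem _
  · have e : (2 : ZMod 3) + 1 = 0 := rfl
    rw [e, pot20, pot00, _root_.div_one]
    have e2 : yc F (2, 0) * (yc F (0, 0) * yc F (1, 0)) = gK F := by
      rw [gK]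
      ring
    rw [e2]
    exact gK_mem F

private theorem c1_mem (i : ZMod 3) :
    yc F (i, 1) * pot F (i, 1) / pot F (i + 1, 1) ∈ adjoin F (genK F) := by
  have h := mul_mem (c0_mem F i) (uK_mem F (i, 0))
  rw [uK_eq, zero_add] at h
  rw [potS1, potS1]
  have := pot_ne F (i, 0)
  have := pot_ne F (i + 1, 0)
  have := ya_ne F (i, 0)
  have := ya_ne F (i + 1, 0)
  have := yc_ne F (i, 0)
  have e : yc F (i, 1) * (pot F (i, 0) * ya F (i, 0)) / (pot F (i + 1, 0) * ya F (i + 1, 0)) =
      yc F (i, 0) * pot F (i, 0) / pot F (i + 1, 0) *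
        (ya F (i, 0) * yc F (i, 1) / (yc F (i, 0) * ya F (i + 1, 0))) := by
    field_simp
  rw [e]
  exact h

private theorem c2_mem (i : ZMod 3) :
    yc F (i, 2) * pot F (i, 2) / pot F (i + 1, 2) ∈ adjoin F (genK F) := by
  have h := mul_mem (c1_mem F i) (uK_mem F (i, 1))
  have e0 : (1 : ZMod 3) + 1 = 2 := rfl
  rw [uK_eq, e0] at h
  rw [potS2, potS2]
  have := pot_ne F (i, 1)
  have := pot_ne F (i + 1, 1)
  have := ya_ne F (i, 1)
  have := ya_ne F (i + 1, 1)
  have := yc_ne F (i, 1)
  have e : yc F (i, 2) * (pot F (i, 1) * ya F (i, 1)) / (pot F (i + 1, 1) * ya F (i + 1, 1)) =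
      yc F (i, 1) * pot F (i, 1) / pot F (i + 1, 1) *
        (ya F (i, 1) * yc F (i, 2) / (yc F (i, 1) * ya F (i + 1, 1))) := by
    field_simp
  rw [e]
  exact h

theorem pot_yc (h : H) : yc F h * pot F h / pot F (h + tg) ∈ adjoin F (genK F) := by
  obtain ⟨i, j⟩ := h
  have e1 : ((i, j) : H) + tg = (i + 1, j) := by
    simp [tg]
  rw [e1]
  have hj := three j
  rcases hj with rfl | rfl | rfl
  · exact c0_mem F i
  · exact c1_mem F i
  · exact c2_mem F i

theorem pot_path (h : H) (p q : ℕ) :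
    pathK F h p q * pot F h / pot F (h + ((p : ZMod 3), (q : ZMod 3))) ∈ adjoin F (genK F) := by
  induction q with
  | zero =>
    induction p with
    | zero =>
      have e : h + (((0 : ℕ) : ZMod 3), ((0 : ℕ) : ZMod 3)) = h := by
        simp
      rw [e]
      have := pot_ne F h
      have e2 : pathK F h 0 0 * pot F h / pot F h = 1 := by
        simp [pathK, this]
      rw [e2]
      exact one_mem _
    | succ p ih =>
      have h1 := mul_mem ih (pot_yc F (h + ((p : ZMod 3), ((0 : ℕ) : ZMod 3))))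
      have e1 : h + ((p : ZMod 3), ((0 : ℕ) : ZMod 3)) + tg =
          h + (((p + 1 : ℕ) : ZMod 3), ((0 : ℕ) : ZMod 3)) := by
        rw [add_assoc]
        simp [tg]
      rw [e1] at h1
      have e2 : pathK F h (p + 1) 0 = pathK F h p 0 * yc F (h + ((p : ZMod 3), ((0 : ℕ) : ZMod 3))) := by
        simp [pathK, Finset.prod_range_succ]
      rw [e2]
      have := pot_ne F (h + ((p : ZMod 3), ((0 : ℕ) : ZMod 3)))
      have := pot_ne F (h + (((p + 1 : ℕ) : ZMod 3), ((0 : ℕ) : ZMod 3)))
      have e3 : ∀ a b c d e : KK F, c ≠ 0 → e ≠ 0 → a * b * d / e = a * d / c * (b * c / e) := by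
        intro a b c d e hc he
        field_simp
      rw [e3 _ _ (pot F (h + ((p : ZMod 3), ((0 : ℕ) : ZMod 3)))) _ _ (pot_ne F _) (pot_ne F _)]
      exact h1
  | succ q ih =>
    have h1 := mul_mem ih (pot_ya F (h + ((p : ZMod 3), (q : ZMod 3))))
    have e1 : h + ((p : ZMod 3), (q : ZMod 3)) + sg =
        h + ((p : ZMod 3), ((q + 1 : ℕ) : ZMod 3)) := by
      rw [add_assoc]
      simp [sg]
    rw [e1] at h1
    have e2 : pathK F h p (q + 1) = pathK F h p q * ya F (h + ((p : ZMod 3), (q : ZMod 3))) := by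
      simp [pathK, Finset.prod_range_succ, mul_assoc]
    rw [e2]
    have e3 : ∀ a b c d e : KK F, c ≠ 0 → e ≠ 0 → a * b * d / e = a * d / c * (b * c / e) := by
      intro a b c d e hc he
      field_simp
    rw [e3 _ _ (pot F (h + ((p : ZMod 3), (q : ZMod 3)))) _ _ (pot_ne F _) (pot_ne F _)]
    exact h1

private theorem dcases (d : H) : d = sg ∨ d = tg ∨ ∃ t, d = dH t := by
  revert d
  decide

theorem pot_y (h h' : H) : y F h h' * pot F h / pot F h' ∈ adjoin F (genK F) := by
  obtain ⟨d, rfl⟩ : ∃ d, h' = h + d := ⟨h' - h, by abel⟩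
  rcases dcases d with rfl | rfl | ⟨t, rfl⟩
  · exact pot_ya F h
  · exact pot_yc F h
  · have h1 := mul_mem (wK_mem F t h) (pot_path F h (dv t).1 (dv t).2)
    have e1 : y F h (h + dH t) = wK F t h * pathK F h (dv t).1 (dv t).2 := by
      rw [wK, div_mul_cancel₀ _ (path_ne F _ _ _)]
    rw [e1]
    have e2 : wK F t h * pathK F h (dv t).1 (dv t).2 * pot F h / pot F (h + dH t) =
        wK F t h * (pathK F h (dv t).1 (dv t).2 * pot F h / pot F (h + dH t)) := by
      rw [mul_assoc, mul_div_assoc]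
    rw [e2]
    exact h1

end CPZ
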