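import Pool.Agent.CPZ.Defs

/-!
# CPZ-Pre: the intermediate abstract situation (a field with an action of `H = C₃ × C₃` and 83 generators; no proofs)
-/

namespace CPZ

open IntermediateField

universe u v

/-- a field generated by nine `u`'s with product `1`, nine `x`'s, `7 · 9` elements `w`, all permuted regularly by `H`, and two elements `b`
which are multiplied by elements of `F(u)` -/
structure Pre (F : Type u) (R : Type v) [Field F] [Field R] [Algebra F R] where
  /-- the action of `H` -/
  act : H → (R ≃ₐ[F] R)
  act_add : ∀ g h, act (g + h) = act g * act h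
  /-- nine elements with product `1` -/
  u : H → R
  /-- nine elements -/
  x : H → R
  /-- 63 elements -/
  w : Fin 7 → H → R
  /-- two elements -/
  b : Fin 2 → R
  act_u : ∀ g h, act g (u h) = u (g + h)
  act_x : ∀ g h, act g (x h) = x (g + h)
  act_w : ∀ g t h, act g (w t h) = w t (g + h)
  act_b : ∀ g r, ∃ c ∈ adjoin F (Set.range u), act g (b r) = c * b r
  prod_u : ∏ h, u h = 1
  gen : adjoin F (Set.range u ∪ Set.range x ∪ Set.range (fun p : Fin 7 × H => w p.1 p.2) ∪ Set.range b) = ⊤
  trd : ((82 : ℕ) : Cardinal) ≤ Algebra.trdeg F R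

end CPZ
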