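import Pool.Agent.CPZ.Dv
import Pool.Agent.CPZ.TR

/-!
# CPZ-Trd: the transcendence degree of `FM F` is at least 82

`trdeg F (KK F) ≥ 90` because the 90 variables are algebraically independent, and
`KK F = adjoin (FM F) {y_{0h} | h ≠ 0}` because closed walks are in `FM F`; so
`trdeg (FM F) (KK F) ≤ 8` and the tower formula gives `82 ≤ trdeg F (FM F)`.
-/

namespace CPZ

open IntermediateField

universe u

variable (F : Type u) [Field F]

theorem trdeg_KK : ((90 : ℕ) : Cardinal) ≤ Algebra.trdeg F (KK F) := by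
  have h1 : AlgebraicIndependent F
      (fun i : H ⊕ H × H => algebraMap (MvPolynomial (H ⊕ H × H) F) (KK F) (MvPolynomial.X i)) := by
    have h2 := MvPolynomial.algebraicIndependent_X (H ⊕ H × H) F
    exact h2.map' (f := IsScalarTower.toAlgHom F (MvPolynomial (H ⊕ H × H) F) (KK F))
      (IsFractionRing.injective (MvPolynomial (H ⊕ H × H) F) (KK F))
  have h3 := h1.lift_cardinalMk_le_trdeg
  have h4 : Cardinal.mk (H ⊕ H × H) = ((90 : ℕ) : Cardinal) := by
    rw [Cardinal.mk_fintype]
    rfl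
  rw [h4] at h3
  simpa using h3

private theorem mem_of_FM {L : IntermediateField (FM F) (KK F)} {f : KK F} (hf : f ∈ FM F) : f ∈ L :=
  L.algebraMap_mem ⟨f, hf⟩

theorem gens_KK : adjoin (FM F) ((fun h : H => y F 0 h) '' {0}ᶜ) = (⊤ : IntermediateField (FM F) (KK F)) := by
  set L : IntermediateField (FM F) (KK F) := adjoin (FM F) ((fun h : H => y F 0 h) '' {0}ᶜ) with hL
  have hx : ∀ i, x F i ∈ L := fun i => mem_of_FM F (x_mem F i)
  have hcyc2 : ∀ h, y F 0 h * y F h 0 ∈ FM F := by
    intro h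
    refine div_mem F ?_
    have := div_mul F (div_y F 0 h) (div_y F h 0)
    have e : (Pi.single 0 1 - Pi.single h 1 + (Pi.single h 1 - Pi.single 0 1) : H → ℤ) = 0 := by
      abel
    rwa [e] at this
  have hcyc3 : ∀ h h', y F 0 h * y F h h' * y F h' 0 ∈ FM F := by
    intro h h'
    refine div_mem F ?_
    have := div_mul F (div_mul F (div_y F 0 h) (div_y F h h')) (div_y F h' 0)
    have e : (Pi.single 0 1 - Pi.single h 1 + (Pi.single h 1 - Pi.single h' 1) +
        (Pi.single h' 1 - Pi.single 0 1) : H → ℤ) = 0 := by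
      abel
    rwa [e] at this
  have h0 : ∀ h, y F 0 h ∈ L := by
    intro h
    by_cases hh : h = 0
    · rw [hh]
      refine mem_of_FM F (div_mem F ?_)
      have := div_y F 0 0
      rwa [sub_self] at this
    · exact subset_adjoin _ _ ⟨h, hh, rfl⟩
  have h1 : ∀ h, y F h 0 ∈ L := by
    intro h
    have e : y F h 0 = (y F 0 h * y F h 0) / y F 0 h := by
      field_simp [y_ne F 0 h]
    rw [e]
    exact L.div_mem (mem_of_FM F (hcyc2 h)) (h0 h)
  have h2 : ∀ h h', y F h h' ∈ L := by
    intro h h'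
    have e : y F h h' = (y F 0 h * y F h h' * y F h' 0) / (y F 0 h * y F h' 0) := by
      have n1 := y_ne F 0 h
      have n2 := y_ne F h' 0
      field_simp
    rw [e]
    exact L.div_mem (mem_of_FM F (hcyc3 h h')) (mul_mem (h0 h) (h1 h'))
  have hpol : ∀ a : MvPolynomial (H ⊕ H × H) F, algebraMap (MvPolynomial (H ⊕ H × H) F) (KK F) a ∈ L := by
    intro a
    induction a using MvPolynomial.induction_on with
    | C c =>
      have e : algebraMap (MvPolynomial (H ⊕ H × H) F) (KK F) (MvPolynomial.C c) = algebraMap F (KK F) c := by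
        rw [IsScalarTower.algebraMap_apply F (MvPolynomial (H ⊕ H × H) F) (KK F)]
        rfl
      rw [e]
      exact mem_of_FM F ((FM F).algebraMap_mem c)
    | add p q hp hq =>
      rw [map_add]
      exact add_mem hp hq
    | mul_X p i hp =>
      rw [map_mul]
      refine mul_mem hp ?_
      rcases i with i | ⟨i, j⟩
      · exact hx i
      · exact h2 i j
  refine eq_top_iff.mpr fun r _ => ?_
  obtain ⟨a, b, _, rfl⟩ := IsFractionRing.div_surjective (A := MvPolynomial (H ⊕ H × H) F) r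
  exact L.div_mem (hpol a) (hpol b)

theorem trdeg_FM : ((82 : ℕ) : Cardinal) ≤ Algebra.trdeg F (FM F) := by
  have h1 : Algebra.trdeg (FM F) (KK F) ≤ ((Fintype.card {h : H // h ≠ 0} : ℕ) : Cardinal) := by
    refine trdeg_le_of_alg (F := FM F) (R := KK F) (fun h : {h : H // h ≠ 0} => y F 0 h.1) fun r => ?_
    have e : Set.range (fun h : {h : H // h ≠ 0} => y F 0 h.1) = (fun h : H => y F 0 h) '' {0}ᶜ := by
      ext z
      constructor
      · rintro ⟨h, rfl⟩
        exact ⟨h.1, h.2, rfl⟩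
      · rintro ⟨h, hh, rfl⟩
        exact ⟨⟨h, hh⟩, rfl⟩
    have hr : r ∈ adjoin (FM F) (Set.range (fun h : {h : H // h ≠ 0} => y F 0 h.1)) := by
      rw [e, gens_KK]
      exact mem_top
    exact isAlgebraic_algebraMap
      (⟨r, hr⟩ : adjoin (FM F) (Set.range (fun h : {h : H // h ≠ 0} => y F 0 h.1)))
  have h2 : Fintype.card {h : H // h ≠ 0} = 8 := by decide
  rw [h2] at h1
  have h3 := trdeg_add_eq F (FM F) (A := KK F)
  have h4 := trdeg_KK F
  rw [← h3] at h4
  have h5 : ((82 : ℕ) : Cardinal) + ((8 : ℕ) : Cardinal) ≤ Algebra.trdeg F (FM F) + ((8 : ℕ) : Cardinal) := by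
    calc ((82 : ℕ) : Cardinal) + ((8 : ℕ) : Cardinal) = ((90 : ℕ) : Cardinal) := by
          rw [← Nat.cast_add]
      _ ≤ _ := h4
      _ ≤ _ := add_le_add (le_refl _) h1
  exact (Cardinal.add_le_add_iff_of_lt_aleph0 (Cardinal.natCast_lt_aleph0)).mp h5

end CPZ
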