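import Pool.Agent.CPZ.Pre
import Pool.Agent.CPZ.FxL
import Pool.Agent.CPZ.CAct
import Pool.Agent.CPZ.Gen
import Pool.Agent.CPZ.Trd

/-!
# CPZ-PreC: the concrete `Pre`

`act g = res (FM F) (CPZ.act F g) …` (`FM_stable` for `g` and, with `act_symm`, for `-g`), `u h = ⟨uK F h, uK_mem F h⟩`, `x h = ⟨x F h, x_mem F h⟩`, `w t h = ⟨wK F t h, _⟩`,
`b = ![⟨bK F, _⟩, ⟨gK F, _⟩]`. The relations follow from `CAct` by `Subtype.ext`; `act_b`: the coefficient lies in `adjoin F (range uK)`; pull it back to `FM F`
(`adjoin F (range uK) = (adjoin F (range u)).map (FM F).val`, `IntermediateField.adjoin_map`); `gen`: from `FM_eq` in the same way (the map of `adjoin F (…)` under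
`(FM F).val` is `adjoin F (genK F) = FM F`, so it is `⊤`); `trd`: `trdeg_FM`.
-/

namespace CPZ

open IntermediateField

universe u

variable (F : Type u) [Field F]

private noncomputable def pact (g : H) : FM F ≃ₐ[F] FM F :=
  res (FM F) (CPZ.act F g) (fun a ha => FM_stable F g a ha)
    (fun a ha => by rw [act_symm]; exact FM_stable F (-g) a ha)

private theorem coe_pact (g : H) (a : FM F) : ((pact F g a : FM F) : KK F) = CPZ.act F g (a : KK F) := rfl

private noncomputable def pu (h : H) : FM F := ⟨uK F h, uK_mem F h⟩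

private noncomputable def px (h : H) : FM F := ⟨x F h, x_mem F h⟩

private noncomputable def pw (t : Fin 7) (h : H) : FM F := ⟨wK F t h, wK_mem F t h⟩

private noncomputable def pb : Fin 2 → FM F := ![⟨bK F, bK_mem F⟩, ⟨gK F, gK_mem F⟩]

private theorem lift_adjoin (c : KK F) (hc : c ∈ adjoin F (Set.range (uK F))) :
    ∃ d ∈ adjoin F (Set.range (pu F)), (d : KK F) = c := by
  have h : (adjoin F (Set.range (pu F))).map (FM F).val = adjoin F (Set.range (uK F)) := by
    rw [adjoin_map, ← Set.range_comp]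
    rfl
  rw [← h] at hc
  obtain ⟨d, hd, rfl⟩ := hc
  exact ⟨d, hd, rfl⟩

private theorem pact_b (g : H) (r : Fin 2) :
    ∃ c ∈ adjoin F (Set.range (pu F)), pact F g (pb F r) = c * pb F r := by
  fin_cases r
  · obtain ⟨c, hc, he⟩ := act_bK F g
    obtain ⟨d, hd, rfl⟩ := lift_adjoin F c hc
    exact ⟨d, hd, Subtype.ext he⟩
  · obtain ⟨c, hc, he⟩ := act_gK F g
    obtain ⟨d, hd, rfl⟩ := lift_adjoin F c hc
    exact ⟨d, hd, Subtype.ext he⟩

private theorem coe_prod_pu : ∏ h, pu F h = 1 := by
  apply Subtype.ext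
  have h := map_prod (FM F).val (pu F) Finset.univ
  have h2 : (FM F).val (∏ h, pu F h) = 1 := by
    rw [h]
    exact prod_uK F
  exact h2

private theorem pgen : adjoin F (Set.range (pu F) ∪ Set.range (px F) ∪
    Set.range (fun p : Fin 7 × H => pw F p.1 p.2) ∪ Set.range (pb F)) = ⊤ := by
  have h : (adjoin F (Set.range (pu F) ∪ Set.range (px F) ∪
      Set.range (fun p : Fin 7 × H => pw F p.1 p.2) ∪ Set.range (pb F))).map (FM F).val = FM F := by
    rw [adjoin_map]
    conv_rhs => rw [FM_eq]
    congr 1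
    unfold genK
    rw [Set.image_union, Set.image_union, Set.image_union, ← Set.range_comp, ← Set.range_comp,
      ← Set.range_comp, ← Set.range_comp]
    congr 1
    ext z
    simp only [Set.mem_range, Set.mem_insert_iff, Set.mem_singleton_iff, Function.comp_apply]
    constructor
    · rintro ⟨r, rfl⟩
      fin_cases r
      · left; rfl
      · right; rfl
    · rintro (rfl | rfl)
      · exact ⟨0, rfl⟩
      · exact ⟨1, rfl⟩
  rw [eq_top_iff]
  rintro ⟨a, ha⟩ _
  have ha' := ha
  rw [← h] at ha'
  obtain ⟨d, hd, he⟩ := ha'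
  have e : d = ⟨a, ha⟩ := Subtype.ext he
  rw [← e]
  exact hd

theorem exists_pre : ∃ P : Pre F (FM F), ∀ (g : H) (a : FM F), ((P.act g a : FM F) : KK F) = CPZ.act F g (a : KK F) := by
  refine ⟨{
    act := pact F
    act_add := ?_
    u := pu F
    x := px F
    w := pw F
    b := pb F
    act_u := fun g h => Subtype.ext (act_uK F g h)
    act_x := fun g h => Subtype.ext (act_x F g h)
    act_w := fun g t h => Subtype.ext (act_wK F g t h)
    act_b := pact_b F
    prod_u := coe_prod_pu F
    gen := pgen F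
    trd := trdeg_FM F }, fun g a => rfl⟩
  intro g h
  ext a
  have e : CPZ.act F (g + h) (a : KK F) = CPZ.act F g (CPZ.act F h (a : KK F)) := by
    rw [act_add]
    rfl
  exact e

end CPZ
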