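import Pool.Agent.CPZ.Ind
import Pool.Agent.CPZ.Det

/-!
# CPZ-Sol: the coefficients `t_1, t_2, t_3` of `M(X)` lie in `Bf D`

The three equations `rel_i` read, with `MM_eq`, `A_i t_1 + B_i t_2 + C_i t_3 = R_i` where
`A_i = v_i³ l_i² - e_i k_i²`, `B_i = v_i³ l_i - e_i k_i`, `C_i = v_i³ - e_i`, `R_i = e_i k_i³ - v_i³ l_i³`, all in `Bf D`.
`MM(k_i) A_i = v_i³ (l_i² MM(k_i) - k_i² MM(l_i))` etc. (as `e_i MM(k_i) = v_i³ MM(l_i)`), so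
`MM(k_0) MM(k_1) MM(k_2) * D3 (A, B, C) = (v_0 v_1 v_2)³ * (the determinant of det_ne) ≠ 0` (`Vi_ne`, `lkm_ind`, `det_ne`; `MM D X = Mm D.m X`).
Cramer: `D3 (A,B,C) * t_1 = D3 (R,B,C)` etc. (`linear_combination` of the three equations), so `t_1 = D3 (R,B,C) / D3 (A,B,C) ∈ Bf D`.
-/

namespace CPZ

open IntermediateField

universe u v

variable {F : Type u} {R : Type v} [Field F] [Field R] [Algebra F R] {s : ℕ}

private theorem MM_Mm (D : Datum F R s) (X : R) : MM D X = Mm D.m X := by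
  rw [MM_eq, t1, t2, t3, Mm]; ring

private theorem Vi_mem (D : Datum F R s) (i : ZMod 3) : Vi D i ∈ Bf D :=
  subset_adjoin F _ (Or.inl (Or.inl (Or.inl (Or.inl ⟨i, rfl⟩))))

private theorem Li_mem (D : Datum F R s) (i : ZMod 3) : Li D i ∈ Bf D :=
  subset_adjoin F _ (Or.inl (Or.inl (Or.inl (Or.inr ⟨i, rfl⟩))))

private theorem Ki_mem (D : Datum F R s) (i : ZMod 3) : Ki D i ∈ Bf D :=
  subset_adjoin F _ (Or.inl (Or.inl (Or.inr ⟨i, rfl⟩)))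

private theorem Ei_mem (D : Datum F R s) (i : ZMod 3) : Ei D i ∈ Bf D :=
  subset_adjoin F _ (Or.inl (Or.inr ⟨i, rfl⟩))

private def Af (D : Datum F R s) (i : ZMod 3) : R := Vi D i ^ 3 * Li D i ^ 2 - Ei D i * Ki D i ^ 2
private def Bg (D : Datum F R s) (i : ZMod 3) : R := Vi D i ^ 3 * Li D i - Ei D i * Ki D i
private def Cf (D : Datum F R s) (i : ZMod 3) : R := Vi D i ^ 3 - Ei D i
private def Rf (D : Datum F R s) (i : ZMod 3) : R := Ei D i * Ki D i ^ 3 - Vi D i ^ 3 * Li D i ^ 3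

private theorem Af_mem (D : Datum F R s) (i : ZMod 3) : Af D i ∈ Bf D :=
  sub_mem (mul_mem (pow_mem (Vi_mem D i) 3) (pow_mem (Li_mem D i) 2)) (mul_mem (Ei_mem D i) (pow_mem (Ki_mem D i) 2))

private theorem Bg_mem (D : Datum F R s) (i : ZMod 3) : Bg D i ∈ Bf D :=
  sub_mem (mul_mem (pow_mem (Vi_mem D i) 3) (Li_mem D i)) (mul_mem (Ei_mem D i) (Ki_mem D i))

private theorem Cf_mem (D : Datum F R s) (i : ZMod 3) : Cf D i ∈ Bf D :=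
  sub_mem (pow_mem (Vi_mem D i) 3) (Ei_mem D i)

private theorem Rf_mem (D : Datum F R s) (i : ZMod 3) : Rf D i ∈ Bf D :=
  sub_mem (mul_mem (Ei_mem D i) (pow_mem (Ki_mem D i) 3)) (mul_mem (pow_mem (Vi_mem D i) 3) (pow_mem (Li_mem D i) 3))

private theorem D3_mem (K : IntermediateField F R) {a1 a2 a3 b1 b2 b3 c1 c2 c3 : R} (ha1 : a1 ∈ K) (ha2 : a2 ∈ K)
    (ha3 : a3 ∈ K) (hb1 : b1 ∈ K) (hb2 : b2 ∈ K) (hb3 : b3 ∈ K) (hc1 : c1 ∈ K) (hc2 : c2 ∈ K) (hc3 : c3 ∈ K) :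
    D3 a1 a2 a3 b1 b2 b3 c1 c2 c3 ∈ K :=
  add_mem (sub_mem (mul_mem ha1 (sub_mem (mul_mem hb2 hc3) (mul_mem hb3 hc2)))
    (mul_mem ha2 (sub_mem (mul_mem hb1 hc3) (mul_mem hb3 hc1))))
    (mul_mem ha3 (sub_mem (mul_mem hb1 hc2) (mul_mem hb2 hc1)))

/-- the linear equation -/
private theorem eqn (D : Datum F R s) (i : ZMod 3) :
    Af D i * t1 D + Bg D i * t2 D + Cf D i * t3 D = Rf D i := by
  have h := rel_i D i
  rw [MM_eq, MM_eq] at h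
  unfold Af Bg Cf Rf
  linear_combination -h

private theorem mulA (D : Datum F R s) (i : ZMod 3) :
    MM D (Ki D i) * Af D i = Vi D i ^ 3 * (Li D i ^ 2 * Mm D.m (Ki D i) - Ki D i ^ 2 * Mm D.m (Li D i)) := by
  have h := rel_i D i
  rw [← MM_Mm, ← MM_Mm]
  unfold Af
  linear_combination (-(Ki D i ^ 2)) * h

private theorem mulB (D : Datum F R s) (i : ZMod 3) :
    MM D (Ki D i) * Bg D i = Vi D i ^ 3 * (Li D i * Mm D.m (Ki D i) - Ki D i * Mm D.m (Li D i)) := by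
  have h := rel_i D i
  rw [← MM_Mm, ← MM_Mm]
  unfold Bg
  linear_combination (-(Ki D i)) * h

private theorem mulC (D : Datum F R s) (i : ZMod 3) :
    MM D (Ki D i) * Cf D i = Vi D i ^ 3 * (Mm D.m (Ki D i) - Mm D.m (Li D i)) := by
  have h := rel_i D i
  rw [← MM_Mm, ← MM_Mm]
  unfold Cf
  linear_combination (-1 : R) * h

private theorem D3_rows (x y z a1 a2 a3 b1 b2 b3 c1 c2 c3 : R) :
    D3 (x * a1) (x * a2) (x * a3) (y * b1) (y * b2) (y * b3) (z * c1) (z * c2) (z * c3) =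
      x * y * z * D3 a1 a2 a3 b1 b2 b3 c1 c2 c3 := by
  unfold D3; ring

private def Dl (D : Datum F R s) : R :=
  D3 (Af D 0) (Bg D 0) (Cf D 0) (Af D 1) (Bg D 1) (Cf D 1) (Af D 2) (Bg D 2) (Cf D 2)

private theorem Dl_mem (D : Datum F R s) : Dl D ∈ Bf D :=
  D3_mem _ (Af_mem D 0) (Bg_mem D 0) (Cf_mem D 0) (Af_mem D 1) (Bg_mem D 1) (Cf_mem D 1) (Af_mem D 2) (Bg_mem D 2)
    (Cf_mem D 2)

private theorem Dl_ne (D : Datum F R s) : Dl D ≠ 0 := by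
  intro h0
  have h1 := D3_rows (MM D (Ki D 0)) (MM D (Ki D 1)) (MM D (Ki D 2)) (Af D 0) (Bg D 0) (Cf D 0) (Af D 1) (Bg D 1)
    (Cf D 1) (Af D 2) (Bg D 2) (Cf D 2)
  change _ = _ * Dl D at h1
  rw [h0, mul_zero, mulA, mulA, mulA, mulB, mulB, mulB, mulC, mulC, mulC, D3_rows] at h1
  have h2 := det_ne (F := F) (Li D) (Ki D) D.m (lkm_ind D)
  rcases mul_eq_zero.mp h1 with h3 | h3
  · rcases mul_eq_zero.mp h3 with h4 | h4
    · rcases mul_eq_zero.mp h4 with h5 | h5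
      · exact pow_ne_zero 3 (Vi_ne D 0) h5
      · exact pow_ne_zero 3 (Vi_ne D 1) h5
    · exact pow_ne_zero 3 (Vi_ne D 2) h4
  · exact h2 h3

theorem t_mem (D : Datum F R s) : t1 D ∈ Bf D ∧ t2 D ∈ Bf D ∧ t3 D ∈ Bf D := by
  have e0 := eqn D 0
  have e1 := eqn D 1
  have e2 := eqn D 2
  have hD := Dl_ne D
  have h1 : t1 D = D3 (Rf D 0) (Bg D 0) (Cf D 0) (Rf D 1) (Bg D 1) (Cf D 1) (Rf D 2) (Bg D 2) (Cf D 2) / Dl D := by
    rw [eq_div_iff hD]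
    unfold Dl D3
    linear_combination (Bg D 1 * Cf D 2 - Cf D 1 * Bg D 2) * e0 - (Bg D 0 * Cf D 2 - Cf D 0 * Bg D 2) * e1 +
      (Bg D 0 * Cf D 1 - Cf D 0 * Bg D 1) * e2
  have h2 : t2 D = D3 (Af D 0) (Rf D 0) (Cf D 0) (Af D 1) (Rf D 1) (Cf D 1) (Af D 2) (Rf D 2) (Cf D 2) / Dl D := by
    rw [eq_div_iff hD]
    unfold Dl D3
    linear_combination (-(Af D 1 * Cf D 2 - Cf D 1 * Af D 2)) * e0 + (Af D 0 * Cf D 2 - Cf D 0 * Af D 2) * e1 -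
      (Af D 0 * Cf D 1 - Cf D 0 * Af D 1) * e2
  have h3 : t3 D = D3 (Af D 0) (Bg D 0) (Rf D 0) (Af D 1) (Bg D 1) (Rf D 1) (Af D 2) (Bg D 2) (Rf D 2) / Dl D := by
    rw [eq_div_iff hD]
    unfold Dl D3
    linear_combination (Af D 1 * Bg D 2 - Bg D 1 * Af D 2) * e0 - (Af D 0 * Bg D 2 - Bg D 0 * Af D 2) * e1 +
      (Af D 0 * Bg D 1 - Bg D 0 * Af D 1) * e2
  refine ⟨?_, ?_, ?_⟩
  · rw [h1]
    exact div_mem (D3_mem _ (Rf_mem D 0) (Bg_mem D 0) (Cf_mem D 0) (Rf_mem D 1) (Bg_mem D 1) (Cf_mem D 1) (Rf_mem D 2)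
      (Bg_mem D 2) (Cf_mem D 2)) (Dl_mem D)
  · rw [h2]
    exact div_mem (D3_mem _ (Af_mem D 0) (Rf_mem D 0) (Cf_mem D 0) (Af_mem D 1) (Rf_mem D 1) (Cf_mem D 1) (Af_mem D 2)
      (Rf_mem D 2) (Cf_mem D 2)) (Dl_mem D)
  · rw [h3]
    exact div_mem (D3_mem _ (Af_mem D 0) (Bg_mem D 0) (Rf_mem D 0) (Af_mem D 1) (Bg_mem D 1) (Rf_mem D 1) (Af_mem D 2)
      (Bg_mem D 2) (Rf_mem D 2)) (Dl_mem D)

end CPZ
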