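import Mathlib

/-!
# MP_0e1fc4_al: the definitions used by the statement

The nine points are `ZMod 3 × ZMod 3`; `Ω` is a field of rational functions over `F` in the variables `x_i`, `y_ij`
(`i, j ∈ ZMod 3 × ZMod 3`) and `act g` the automorphism `x_i ↦ x_{g+i}`, `y_ij ↦ y_{g+i,g+j}`.
-/

namespace CPZ

namespace St

open IntermediateField

universe u v

/-- the nine points; the group `H = C₃ × C₃` acts on them by translation -/
abbrev P9 : Type := ZMod 3 × ZMod 3

/-- `K/F` is purely transcendental of degree `n` -/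
def Rat (F : Type u) (K : Type v) [Field F] [Field K] [Algebra F K] (n : ℕ) : Prop :=
  Nonempty (K ≃ₐ[F] FractionRing (MvPolynomial (Fin n) F))

/-- `Ω` is the field of rational functions over `F` in the independent variables `x_i`, `y_ij` and `act g` is the automorphism
`x_i ↦ x_{g+i}`, `y_ij ↦ y_{g+i,g+j}` -/
structure IsModel (F : Type u) (Ω : Type v) [Field F] [Field Ω] [Algebra F Ω] (x : P9 → Ω) (y : P9 → P9 → Ω)
    (act : P9 → (Ω ≃ₐ[F] Ω)) : Prop where
  ind : AlgebraicIndependent F (Sum.elim x (fun p : P9 × P9 => y p.1 p.2))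
  gen : adjoin F (Set.range (Sum.elim x (fun p : P9 × P9 => y p.1 p.2))) = ⊤
  act_x : ∀ g i, act g (x i) = x (g + i)
  act_y : ∀ g i j, act g (y i j) = y (g + i) (g + j)

/-- the field `F(M)`: generated by the Laurent monomials `∏ x_i ^ a_i * ∏ y_ij ^ b_ij` with `∑_j b_ij = ∑_j b_ji` for all `i` -/
def FM (F : Type u) {Ω : Type v} [Field F] [Field Ω] [Algebra F Ω] (x : P9 → Ω) (y : P9 → P9 → Ω) :
    IntermediateField F Ω :=
  adjoin F {f | ∃ (a : P9 → ℤ) (b : P9 → P9 → ℤ), (∀ i, ∑ j, b i j = ∑ j, b j i) ∧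
    f = (∏ i, x i ^ a i) * ∏ i, ∏ j, y i j ^ b i j}

/-- the elements of the field `K` fixed by all automorphisms in the set `S` -/
def FixIn {F : Type u} {Ω : Type v} [Field F] [Field Ω] [Algebra F Ω] (K : IntermediateField F Ω)
    (S : Set (Ω ≃ₐ[F] Ω)) : IntermediateField F Ω where
  carrier := {r | r ∈ K ∧ ∀ s ∈ S, s r = r}
  mul_mem' := fun {a b} ha hb => ⟨mul_mem ha.1 hb.1, fun s hs => by rw [map_mul, ha.2 s hs, hb.2 s hs]⟩
  one_mem' := ⟨one_mem _, fun s _ => map_one s⟩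
  add_mem' := fun {a b} ha hb => ⟨add_mem ha.1 hb.1, fun s hs => by rw [map_add, ha.2 s hs, hb.2 s hs]⟩
  zero_mem' := ⟨zero_mem _, fun s _ => map_zero s⟩
  algebraMap_mem' := fun r => ⟨K.algebraMap_mem r, fun s _ => s.commutes r⟩
  inv_mem' := fun a ha => ⟨inv_mem ha.1, fun s hs => by rw [map_inv₀, ha.2 s hs]⟩

/-- `E ⊆ Z ⊆ L`, the fields `E` and `L` are purely transcendental of degree `n` over `F`, `[Z : E] = 2`, `[L : Z] = 3`, and
the symmetric group on three letters acts faithfully on `L` with `Z` = fixed field of the alternating group and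
`E` = fixed field of the whole group -/
def Tower {F : Type u} {Ω : Type v} [Field F] [Field Ω] [Algebra F Ω] (E Z L : IntermediateField F Ω) (n : ℕ) :
    Prop :=
  E ≤ Z ∧ Z ≤ L ∧ Rat F E n ∧ Rat F L n ∧ E.relfinrank Z = 2 ∧ Z.relfinrank L = 3 ∧
    ∃ ρ : Equiv.Perm (Fin 3) →* (L ≃ₐ[F] L), Function.Injective ρ ∧
      (∀ a : L, (a : Ω) ∈ Z ↔ ∀ π ∈ alternatingGroup (Fin 3), ρ π a = a) ∧
      (∀ a : L, (a : Ω) ∈ E ↔ ∀ π, ρ π a = a)

end St

end CPZ
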