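import Pool.Agent.CPZ.TR

/-!
# CPZ-TRc: automorphisms from two generating independent families

`ext_aut`: two generating families of `R` indexed by the same finite type `ι` with `card ι ≤ trdeg F R` are
algebraically independent, and some automorphism maps the first to the second.
-/

namespace CPZ

open IntermediateField

universe u v w

variable {F : Type u} {R : Type v} [Field F] [Field R] [Algebra F R]

private theorem toTop {ι : Type w} (x : ι → R) (hx : adjoin F (Set.range x) = ⊤)
    (hi : AlgebraicIndependent F x) :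
    ∃ e : FractionRing (MvPolynomial ι F) ≃ₐ[F] R, ∀ i,
      e (algebraMap (MvPolynomial ι F) (FractionRing (MvPolynomial ι F)) (MvPolynomial.X i)) = x i := by
  refine ⟨hi.aevalEquivField.trans ((IntermediateField.equivOfEq hx).trans IntermediateField.topEquiv),
    fun i => ?_⟩
  have h := hi.aevalEquivField_algebraMap_apply_coe (MvPolynomial.X i)
  rw [MvPolynomial.aeval_X] at h
  rw [← h]
  rfl

theorem ext_aut {ι : Type w} [Fintype ι] (x y : ι → R) (hx : adjoin F (Set.range x) = ⊤)
    (hy : adjoin F (Set.range y) = ⊤) (ht : ((Fintype.card ι : ℕ) : Cardinal.{v}) ≤ Algebra.trdeg F R) :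
    ∃ φ : R ≃ₐ[F] R, ∀ i, φ (x i) = y i := by
  obtain ⟨e, he⟩ := toTop x hx (ind_of_gens x hx ht)
  obtain ⟨e', he'⟩ := toTop y hy (ind_of_gens y hy ht)
  refine ⟨e.symm.trans e', fun i => ?_⟩
  rw [AlgEquiv.trans_apply, ← he i, AlgEquiv.symm_apply_apply, he' i]

end CPZ
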