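import Pool.Agent.CPZ.DatL
import Pool.Agent.CPZ.TRc

/-!
# CPZ-Sym: the symmetric group acts

For every permutation `π` of `ZMod 3` there is an automorphism `ρ π` of `R` over `F` with `u i j ↦ u i (π j)`, `m j ↦ m (π j)`, `w k ↦ w k`:
`ext_aut` for the families `x = fam D (0, 0)` and `y = Sum.elim (fun p => D.u p.1.1 (π p.1.2)) (Sum.elim (fun j => D.m (π j)) D.w)`; `y` generates
`R` since the missing element `u 0 (π 0)` is the inverse of the product of the other eight (`D.hu`, `Equiv.prod_comp`); the value at `u 0 0`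
follows from `D.hu` as well. `π ↦ ρ π` is a homomorphism by `aut_ext` (`(π * π') j = π (π' j)`; `ρ (π π') (u i j) = u i (π (π' j)) = ρ π (ρ π' (u i j))`).
-/

namespace CPZ

open IntermediateField

universe u v

variable {F : Type u} {R : Type v} [Field F] [Field R] [Algebra F R] {s : ℕ}

/-- the action of the symmetric group -/
structure Rho (D : Datum F R s) where
  /-- the homomorphism -/
  ρ : Equiv.Perm (ZMod 3) →* (R ≃ₐ[F] R)
  hu : ∀ π i j, ρ π (D.u i j) = D.u i (π j)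
  hm : ∀ π j, ρ π (D.m j) = D.m (π j)
  hw : ∀ π k, ρ π (D.w k) = D.w k

private theorem sym_prod (D : Datum F R s) (π : Equiv.Perm (ZMod 3)) :
    ∏ p : ZMod 3 × ZMod 3, D.u p.1 (π p.2) = 1 := by
  rw [Fintype.prod_prod_type]
  refine Eq.trans ?_ D.hu
  refine Finset.prod_congr rfl fun i _ => ?_
  exact Equiv.prod_comp π (fun j => D.u i j)

private theorem sym_last (a b : ZMod 3 × ZMod 3 → R) (ha : ∏ p, a p = 1) (hb : ∏ p, b p = 1)
    (p0 : ZMod 3 × ZMod 3) (h : ∀ p, p ≠ p0 → a p = b p) : a p0 = b p0 := by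
  have h1 : a p0 * ∏ p ∈ Finset.univ.erase p0, a p = 1 := by
    rw [Finset.mul_prod_erase _ _ (Finset.mem_univ p0)]
    exact ha
  have h2 : b p0 * ∏ p ∈ Finset.univ.erase p0, b p = 1 := by
    rw [Finset.mul_prod_erase _ _ (Finset.mem_univ p0)]
    exact hb
  have h3 : ∏ p ∈ Finset.univ.erase p0, a p = ∏ p ∈ Finset.univ.erase p0, b p :=
    Finset.prod_congr rfl fun p hp => h p (Finset.ne_of_mem_erase hp)
  have h4 : ∏ p ∈ Finset.univ.erase p0, b p ≠ 0 := by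
    intro h0
    rw [h0, mul_zero] at h2
    exact zero_ne_one h2
  rw [h3] at h1
  exact mul_right_cancel₀ h4 (h1.trans h2.symm)

/-- the image family -/
private def symY (D : Datum F R s) (π : Equiv.Perm (ZMod 3)) : Idx s ((0, 0) : ZMod 3 × ZMod 3) → R :=
  Sum.elim (fun p => D.u p.1.1 (π p.1.2)) (Sum.elim (fun j => D.m (π j)) D.w)

private theorem symY_gen (D : Datum F R s) (π : Equiv.Perm (ZMod 3)) :
    adjoin F (Set.range (symY D π)) = ⊤ := by
  have hsub : Set.range (symY D π) ⊆ (adjoin F (Set.range (symY D π)) : Set R) := subset_adjoin F _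
  have h1 : ∀ p : ZMod 3 × ZMod 3, p ≠ (0, 0) → D.u p.1 (π p.2) ∈ adjoin F (Set.range (symY D π)) :=
    fun p hp => hsub ⟨Sum.inl ⟨p, hp⟩, rfl⟩
  have h2 : D.u 0 (π 0) ∈ adjoin F (Set.range (symY D π)) := by
    have h3 : D.u 0 (π 0) * ∏ p ∈ Finset.univ.erase ((0, 0) : ZMod 3 × ZMod 3), D.u p.1 (π p.2) = 1 := by
      rw [Finset.mul_prod_erase Finset.univ (fun p : ZMod 3 × ZMod 3 => D.u p.1 (π p.2))
        (Finset.mem_univ ((0, 0) : ZMod 3 × ZMod 3))]
      exact sym_prod D π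
    rw [eq_inv_of_mul_eq_one_left h3]
    exact inv_mem (prod_mem fun p hp => h1 p (Finset.ne_of_mem_erase hp))
  have h3 : ∀ p : ZMod 3 × ZMod 3, D.u p.1 (π p.2) ∈ adjoin F (Set.range (symY D π)) := by
    intro p
    by_cases hp : p = (0, 0)
    · rw [hp]
      exact h2
    · exact h1 p hp
  rw [eq_top_iff, ← D.gen, adjoin_le_iff]
  rintro r ((⟨p, rfl⟩ | ⟨j, rfl⟩) | ⟨k, rfl⟩)
  · have h4 := h3 (p.1, π.symm p.2)
    simp only [Equiv.apply_symm_apply] at h4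
    exact h4
  · refine hsub ⟨Sum.inr (Sum.inl (π.symm j)), ?_⟩
    simp [symY]
  · exact hsub ⟨Sum.inr (Sum.inr k), rfl⟩

private theorem sym_aut (D : Datum F R s) (π : Equiv.Perm (ZMod 3)) :
    ∃ φ : R ≃ₐ[F] R, (∀ i j, φ (D.u i j) = D.u i (π j)) ∧ (∀ j, φ (D.m j) = D.m (π j)) ∧
      ∀ k, φ (D.w k) = D.w k := by
  obtain ⟨φ, hφ⟩ := ext_aut (fam D (0, 0)) (symY D π) (fam_gen D (0, 0)) (symY_gen D π) (by
    rw [card_Idx]
    exact D.trd)
  refine ⟨φ, fun i j => ?_, fun j => hφ (Sum.inr (Sum.inl j)), fun k => hφ (Sum.inr (Sum.inr k))⟩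
  have h1 : ∀ p : ZMod 3 × ZMod 3, p ≠ (0, 0) → φ (D.u p.1 p.2) = D.u p.1 (π p.2) :=
    fun p hp => hφ (Sum.inl ⟨p, hp⟩)
  by_cases hp : (i, j) = ((0, 0) : ZMod 3 × ZMod 3)
  · have ha : ∏ p : ZMod 3 × ZMod 3, φ (D.u p.1 p.2) = 1 := by
      rw [← map_prod, Fintype.prod_prod_type, D.hu, map_one]
    have h2 := sym_last (fun p => φ (D.u p.1 p.2)) (fun p => D.u p.1 (π p.2)) ha (sym_prod D π) (0, 0) h1
    have hi : i = 0 := congrArg Prod.fst hp
    have hj : j = 0 := congrArg Prod.snd hp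
    subst hi
    subst hj
    exact h2
  · exact h1 (i, j) hp

private theorem sym_ext (D : Datum F R s) {φ ψ : R ≃ₐ[F] R} (hu : ∀ i j, φ (D.u i j) = ψ (D.u i j))
    (hm : ∀ j, φ (D.m j) = ψ (D.m j)) (hw : ∀ k, φ (D.w k) = ψ (D.w k)) : φ = ψ := by
  refine aut_ext _ D.gen φ ψ ?_
  rintro r ((⟨p, rfl⟩ | ⟨j, rfl⟩) | ⟨k, rfl⟩)
  · exact hu p.1 p.2
  · exact hm j
  · exact hw k

theorem exists_rho (D : Datum F R s) : Nonempty (Rho D) := by
  choose f hu hm hw using sym_aut D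
  refine ⟨⟨MonoidHom.mk' f fun π π' => ?_, hu, hm, hw⟩⟩
  refine sym_ext D (fun i j => ?_) (fun j => ?_) fun k => ?_
  · rw [hu, AlgEquiv.mul_apply, hu, hu]
    rfl
  · rw [hm, AlgEquiv.mul_apply, hm, hm]
    rfl
  · rw [hw, AlgEquiv.mul_apply, hw, hw]

theorem rho_inj (D : Datum F R s) (P : Rho D) : Function.Injective P.ρ := by
  intro π π' h
  refine Equiv.ext fun j => ?_
  have h1 : D.u 0 (π j) = D.u 0 (π' j) := by
    rw [← P.hu π 0 j, ← P.hu π' 0 j, h]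
  have h2 : ((0, π j) : ZMod 3 × ZMod 3) = (0, π' j) := u_inj D h1
  exact congrArg Prod.snd h2

/-- `σ` is the action of the cyclic shift (`aut_ext`) -/
theorem rho_shift (D : Datum F R s) (P : Rho D) : P.ρ (Equiv.addRight 1) = D.σ := by
  refine sym_ext D (fun i j => ?_) (fun j => ?_) fun k => ?_
  · rw [P.hu, D.σu]
    rfl
  · rw [P.hm, D.σm]
    rfl
  · rw [P.hw, D.σw]

/-- `τ` commutes with the action (`aut_ext`) -/
theorem rho_comm (D : Datum F R s) (P : Rho D) (π : Equiv.Perm (ZMod 3)) : P.ρ π * D.τ = D.τ * P.ρ π := by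
  refine sym_ext D (fun i j => ?_) (fun j => ?_) fun k => ?_
  · rw [AlgEquiv.mul_apply, AlgEquiv.mul_apply, D.τu, P.hu, P.hu, D.τu]
  · rw [AlgEquiv.mul_apply, AlgEquiv.mul_apply, D.τm, P.hm, D.τm]
  · rw [AlgEquiv.mul_apply, AlgEquiv.mul_apply, D.τw, P.hw, D.τw]

end CPZ
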