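import Pool.Agent.CPZ.Stmt
import Pool.Agent.CPZ.Mn

/-!
# CPZ-Trn: transport of the theorem to any model of the field of rational functions
-/

namespace CPZ

namespace St

open IntermediateField

universe u v w

theorem tower_map {F : Type u} {R : Type v} {Ω : Type w} [Field F] [Field R] [Field Ω] [Algebra F R] [Algebra F Ω]
    (ψ : R →ₐ[F] Ω) (E Z L : IntermediateField F R) (n : ℕ) (h : Tower E Z L n) :
    Tower (E.map ψ) (Z.map ψ) (L.map ψ) n := by
  obtain ⟨h1, h2, ⟨e1⟩, ⟨e2⟩, h5, h6, ρ, hρ, h7, h8⟩ := h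
  have hinj : Function.Injective ψ := ψ.toRingHom.injective
  have hmem : ∀ (K : IntermediateField F R) (a : L), ((L.equivMap ψ a : L.map ψ) : Ω) ∈ K.map ψ ↔ (a : R) ∈ K := by
    intro K a
    rw [coe_equivMap_apply]
    constructor
    · rintro ⟨b, hb, hb2⟩
      rw [← hinj hb2]; exact hb
    · intro ha
      exact ⟨a, ha, rfl⟩
  have hconj : ∀ (π : Equiv.Perm (Fin 3)) (a : L),
      AlgEquiv.autCongr (L.equivMap ψ) (ρ π) (L.equivMap ψ a) = L.equivMap ψ a ↔ ρ π a = a := by
    intro π a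
    rw [AlgEquiv.autCongr_apply]
    simp only [AlgEquiv.trans_apply, AlgEquiv.symm_apply_apply]
    exact (L.equivMap ψ).injective.eq_iff
  refine ⟨map_mono ψ h1, map_mono ψ h2, ⟨(E.equivMap ψ).symm.trans e1⟩, ⟨(L.equivMap ψ).symm.trans e2⟩, ?_, ?_,
    (AlgEquiv.autCongr (L.equivMap ψ)).toMonoidHom.comp ρ, ?_, ?_, ?_⟩
  · rw [relfinrank_map_map]; exact h5
  · rw [relfinrank_map_map]; exact h6
  · exact (AlgEquiv.autCongr (L.equivMap ψ)).injective.comp hρ
  · intro a
    obtain ⟨a, rfl⟩ := (L.equivMap ψ).surjective a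
    rw [hmem, h7]
    exact forall₂_congr fun π _ => (hconj π a).symm
  · intro a
    obtain ⟨a, rfl⟩ := (L.equivMap ψ).surjective a
    rw [hmem, h8]
    exact forall_congr' fun π => (hconj π a).symm

end St

end CPZ
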