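import Pool.Agent.CPZ.Mob
import Pool.Agent.CPZ.Sym

/-!
# CPZ-VD: definitions of the invariants `v_i, k_i, l_i, e_i` and the subfield they generate with the `w`'s (no proofs)
-/

namespace CPZ

open IntermediateField

universe u v

variable {F : Type u} {R : Type v} [Field F] [Field R] [Algebra F R] {s : ℕ}

/-- `v_i` -/
def Vi (D : Datum F R s) (i : ZMod 3) : R := vv (D.u i) D.m

/-- `k_i` -/
def Ki (D : Datum F R s) (i : ZMod 3) : R := kk (D.u i) D.m

/-- `l_i` -/
def Li (D : Datum F R s) (i : ZMod 3) : R := ll (D.u i) D.m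

/-- `e_i = ∏_j u_ij` -/
def Ei (D : Datum F R s) (i : ZMod 3) : R := ∏ j, D.u i j

/-- `M(X) = ∏_j (X + m_j)` -/
def MM (D : Datum F R s) (X : R) : R := ∏ j, (X + D.m j)

/-- coefficient of `X²` in `M(X)` -/
def t1 (D : Datum F R s) : R := D.m 0 + D.m 1 + D.m 2

/-- coefficient of `X` in `M(X)` -/
def t2 (D : Datum F R s) : R := D.m 0 * D.m 1 + D.m 0 * D.m 2 + D.m 1 * D.m 2

/-- constant coefficient of `M(X)` -/
def t3 (D : Datum F R s) : R := D.m 0 * D.m 1 * D.m 2

/-- the field generated by the invariants -/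
def Bf (D : Datum F R s) : IntermediateField F R :=
  adjoin F (Set.range (Vi D) ∪ Set.range (Li D) ∪ Set.range (Ki D) ∪ Set.range (Ei D) ∪ Set.range D.w)

theorem MM_eq (D : Datum F R s) (X : R) : MM D X = X ^ 3 + t1 D * X ^ 2 + t2 D * X + t3 D := by
  have h : MM D X = (X + D.m 0) * (X + D.m 1) * (X + D.m 2) := by
    unfold MM; exact Fin.prod_univ_three _
  rw [h, t1, t2, t3]; ring

end CPZ
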